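import Pool.Agent.H27Dual.Defs

/-! # Polynomials in `J w`

Proof. Put `s = (w - w⁻¹)/2`, `X = (w + w⁻¹)/2 = 2 J w - 1`; `s² = X² - 1`, and `w ↦ w⁻¹` replaces `s` by `-s`. Say that `f : ℂ → ℂ` is represented at level `n` by
`A, B : ℝ[X]` if `deg A ≤ n`, `B = 0 ∨ deg B + 1 ≤ n` and `f w = A(J w) + B(J w) s(w)`, `f w⁻¹ = A(J w) - B(J w) s(w)` for all `w ≠ 0`. Products: levels add,
`A'' = A A' + ((2X-1)² - 1) B B'`, `B'' = A B' + A' B`. The factor `(w - 2 r c + r² w⁻¹)/4` is represented at level one by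
`A = ((1 + r²)(2X - 1) - 2 r c)/4`, `B = (1 - r²)/4`; constants at level zero. So `Z` is represented at level `N`, `Z ^ k` at level `k N`:
`exists_A` (`A(J w) = (f w + f w⁻¹)/2`) and `exists_W` (`f w f w⁻¹ = (A² - ((2X-1)²-1) B²)(J w)`). -/

set_option autoImplicit false

namespace Pool.Agent.H27Dual

open Polynomial

/-- `f` is represented at level `n` -/
private def APolyRep (n : ℕ) (f : ℂ → ℂ) : Prop :=
  ∃ A B : ℝ[X], A.natDegree ≤ n ∧ (X * B).natDegree ≤ n ∧ ∀ w : ℂ, w ≠ 0 →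
    f w = aeval (J w) A + aeval (J w) B * ((w - w⁻¹) / 2) ∧
    f w⁻¹ = aeval (J w) A - aeval (J w) B * ((w - w⁻¹) / 2)

private theorem APoly_sq {w : ℂ} (hw : w ≠ 0) :
    ((w - w⁻¹) / 2) ^ 2 = 4 * J w * J w - 4 * J w := by
  unfold J
  field_simp
  ring

private theorem APoly_sub {p q : ℝ[X]} {n : ℕ} (hp : p.natDegree ≤ n) (hq : q.natDegree ≤ n) :
    (p - q).natDegree ≤ n :=
  (natDegree_sub_le p q).trans (max_le hp hq)

private theorem APoly_deg {B : ℝ[X]} {n : ℕ} (h : (X * B).natDegree ≤ n) : B.natDegree ≤ n := by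
  rcases eq_or_ne B 0 with rfl | hB
  · simp
  · rw [natDegree_X_mul hB] at h
    omega

private theorem APoly_mul {n m : ℕ} {f g : ℂ → ℂ} (hf : APolyRep n f) (hg : APolyRep m g) :
    APolyRep (n + m) (fun w => f w * g w) := by
  obtain ⟨A, B, hA, hB, h⟩ := hf
  obtain ⟨A', B', hA', hB', h'⟩ := hg
  refine ⟨A * A' + (C 4 * ((X * B) * (X * B')) - C 4 * ((X * B) * B')), A * B' + A' * B, ?_, ?_,
    ?_⟩
  · refine natDegree_add_le_of_degree_le ?_ ?_
    · exact natDegree_mul_le_of_le hA hA'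
    · refine APoly_sub ?_ ?_
      · exact (natDegree_C_mul_le _ _).trans (natDegree_mul_le_of_le hB hB')
      · exact (natDegree_C_mul_le _ _).trans (natDegree_mul_le_of_le hB (APoly_deg hB'))
  · have e : X * (A * B' + A' * B) = A * (X * B') + A' * (X * B) := by ring
    rw [e]
    refine natDegree_add_le_of_degree_le ?_ ?_
    · exact natDegree_mul_le_of_le hA hB'
    · rw [add_comm n m]
      exact natDegree_mul_le_of_le hA' hB
  · intro w hw
    obtain ⟨h1, h2⟩ := h w hw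
    obtain ⟨h3, h4⟩ := h' w hw
    have hs := APoly_sq hw
    constructor
    · show f w * g w = _
      rw [h1, h3]
      simp only [map_add, map_sub, map_mul, aeval_X, map_ofNat]
      linear_combination (aeval (J w) B) * (aeval (J w) B') * hs
    · show f w⁻¹ * g w⁻¹ = _
      rw [h2, h4]
      simp only [map_add, map_sub, map_mul, aeval_X, map_ofNat]
      linear_combination (aeval (J w) B) * (aeval (J w) B') * hs

private theorem APoly_const (c : ℝ) : APolyRep 0 (fun _ => (c : ℂ)) := by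
  refine ⟨C c, 0, by simp, by simp, fun w _ => ?_⟩
  simp

private theorem APoly_fac (r c : ℝ) :
    APolyRep 1 (fun w => (w - 2 * (r : ℂ) * (c : ℂ) + (r : ℂ) ^ 2 * w⁻¹) / 4) := by
  refine ⟨C ((1 + r ^ 2) / 2) * X + C (-(1 + r ^ 2) / 4 - r * c / 2), C ((1 - r ^ 2) / 4), ?_, ?_,
    fun w hw => ?_⟩
  · exact natDegree_linear_le
  · rw [mul_comm]
    exact (natDegree_C_mul_le _ _).trans natDegree_X_le
  · constructor
    · show (w - 2 * (r : ℂ) * (c : ℂ) + (r : ℂ) ^ 2 * w⁻¹) / 4 = _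
      simp only [map_add, map_mul, aeval_X, aeval_C, Complex.coe_algebraMap]
      unfold J
      push_cast
      ring
    · show (w⁻¹ - 2 * (r : ℂ) * (c : ℂ) + (r : ℂ) ^ 2 * w⁻¹⁻¹) / 4 = _
      rw [inv_inv]
      simp only [map_add, map_mul, aeval_X, aeval_C, Complex.coe_algebraMap]
      unfold J
      push_cast
      ring

private theorem APoly_prod {ι : Type} (s : Finset ι) (f : ι → ℂ → ℂ)
    (h : ∀ i ∈ s, APolyRep 1 (f i)) : APolyRep s.card (fun w => ∏ i ∈ s, f i w) := by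
  classical
  induction s using Finset.induction_on with
  | empty =>
    have := APoly_const 1
    simpa using this
  | insert a s ha ih =>
    have h1 := APoly_mul (h a (Finset.mem_insert_self a s))
      (ih (fun i hi => h i (Finset.mem_insert_of_mem hi)))
    rw [Finset.card_insert_of_notMem ha]
    have e : (fun w => ∏ i ∈ insert a s, f i w) = fun w => f a w * ∏ i ∈ s, f i w := by
      funext w
      rw [Finset.prod_insert ha]
    rw [e, add_comm]
    exact h1

private theorem APoly_Z (D : Dat) : APolyRep D.N D.Z := by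
  have h1 := APoly_prod (Finset.univ : Finset (Fin D.N))
    (fun j w => (w - 2 * (D.r : ℂ) * ((D.v j).re : ℂ) + (D.r : ℂ) ^ 2 * w⁻¹) / 4)
    (fun j _ => APoly_fac D.r (D.v j).re)
  have h2 := APoly_mul (APoly_const (Real.exp (D.N * D.L))) h1
  simp only [Finset.card_univ, Fintype.card_fin, zero_add] at h2
  exact h2

private theorem APoly_pow (D : Dat) (k : ℕ) : APolyRep (k * D.N) (fun w => D.Z w ^ k) := by
  induction k with
  | zero =>
    have := APoly_const 1
    simpa using this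
  | succ k ih =>
    have h1 := APoly_mul ih (APoly_Z D)
    have e : (fun w => D.Z w ^ (k + 1)) = fun w => D.Z w ^ k * D.Z w := by
      funext w
      rw [pow_succ]
    rw [e, Nat.succ_mul]
    exact h1

theorem exists_A (D : Dat) (k : ℕ) : ∃ A : ℝ[X], A.natDegree ≤ k * D.N ∧
    ∀ w : ℂ, w ≠ 0 → aeval (J w) A = (D.Z w ^ k + D.Z w⁻¹ ^ k) / 2 := by
  obtain ⟨A, B, hA, -, h⟩ := APoly_pow D k
  refine ⟨A, hA, fun w hw => ?_⟩
  obtain ⟨h1, h2⟩ := h w hw
  have h3 : D.Z w ^ k = _ := h1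
  have h4 : D.Z w⁻¹ ^ k = _ := h2
  rw [h3, h4]
  ring

theorem exists_W (D : Dat) (k : ℕ) : ∃ W : ℝ[X], W.natDegree ≤ 2 * k * D.N ∧
    ∀ w : ℂ, w ≠ 0 → aeval (J w) W = (D.Z w * D.Z w⁻¹) ^ k := by
  obtain ⟨A, B, hA, hB, h⟩ := APoly_pow D k
  have e0 : 2 * k * D.N = k * D.N + k * D.N := by ring
  refine ⟨A * A - (C 4 * ((X * B) * (X * B)) - C 4 * ((X * B) * B)), ?_, fun w hw => ?_⟩
  · rw [e0]
    refine APoly_sub (natDegree_mul_le_of_le hA hA) ?_
    refine APoly_sub ?_ ?_
    · exact (natDegree_C_mul_le _ _).trans (natDegree_mul_le_of_le hB hB)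
    · exact (natDegree_C_mul_le _ _).trans (natDegree_mul_le_of_le hB (APoly_deg hB))
  · obtain ⟨h1, h2⟩ := h w hw
    have hs := APoly_sq hw
    have h3 : D.Z w ^ k = _ := h1
    have h4 : D.Z w⁻¹ ^ k = _ := h2
    rw [mul_pow, h3, h4]
    simp only [map_sub, map_mul, aeval_X, map_ofNat]
    linear_combination (aeval (J w) B) * (aeval (J w) B) * hs

end Pool.Agent.H27Dual
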