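import Pool.Agent.H27Dual.MQb

/-! # Rational weights

Proof. Fix `g₀ ∈ G`. For `N` large let `n g := ⌊N p g⌋₊` for `g ≠ g₀` and `n g₀ := N - ∑_{g ≠ g₀} n g` (natural, since `∑_{g≠g₀} ⌊N p g⌋₊ ≤ N`), so
`∑ n g = N` and `|n g / N - p g| ≤ |G| / N`. By `MQ_le_MQ` (`‖v - v'‖ ≤ 2`) `|log MQ(Q,g) - log MQ(Q,g₀)| ≤ deg Q * C`,
`C = 2 log (1 + 2 / (1 - r))`. So `∑ (n g / N) log MQ(Q,g) = ∑ p g log MQ(Q,g) + ∑ (n g / N - p g)(log MQ(Q,g) - log MQ(Q,g₀))
≥ c deg Q - |G|² C deg Q / N ≥ (c - δ) deg Q`. Let `v : Fin N → ℂ` take every value `g ∈ G` exactly `n g` times: use an equivalence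
`Fin N ≃ Σ g : G, Fin (n g)`; then `∏ j, MQ r Q (v j) = ∏_{g ∈ G} MQ r Q g ^ n g`. -/

set_option autoImplicit false

namespace Pool.Agent.H27Dual

open Polynomial

/-- product over the multiset with multiplicities `n g` -/
private lemma Points_prod (f : ℂ → ℝ) (n : ℂ → ℕ) (s : Finset ℂ) :
    ((∑ g ∈ s, n g • ({g} : Multiset ℂ)).map f).prod = ∏ g ∈ s, f g ^ n g := by
  classical
  induction s using Finset.induction_on with
  | empty => simp
  | insert a s ha ih =>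
    rw [Finset.sum_insert ha, Finset.prod_insert ha, Multiset.map_add, Multiset.prod_add, ih,
      Multiset.map_nsmul, Multiset.prod_nsmul, Multiset.map_singleton, Multiset.prod_singleton]

/-- change of `log MQ` on the unit circle -/
private lemma Points_log {r : ℝ} (hr0 : 0 ≤ r) (hr1 : r < 1) {v v' : ℂ} (hv : ‖v‖ = 1)
    (hv' : ‖v'‖ = 1) {Q : ℤ[X]} (hQ : Q ≠ 0) :
    Real.log (MQ r Q v') - Real.log (MQ r Q v)
      ≤ Q.natDegree * (2 * Real.log (1 + 2 / (1 - r))) := by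
  have h := MQ_le_MQ hr0 hr1 hv hv' Q
  have hp := MQ_pos hr0 hr1 hv hQ
  have hp' := MQ_pos hr0 hr1 hv' hQ
  have h1r : 0 < 1 - r := by linarith
  have hd : ‖v - v'‖ ≤ 2 := by
    calc ‖v - v'‖ ≤ ‖v‖ + ‖v'‖ := norm_sub_le _ _
      _ = 2 := by rw [hv, hv']; norm_num
  have hd0 : 0 ≤ ‖v - v'‖ / (1 - r) := by positivity
  have hle : 1 + ‖v - v'‖ / (1 - r) ≤ 1 + 2 / (1 - r) := by gcongr
  have h2 : MQ r Q v' ≤ MQ r Q v * (1 + 2 / (1 - r)) ^ (2 * Q.natDegree) := by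
    refine h.trans ?_
    gcongr
  have h3 := Real.log_le_log hp' h2
  have hpos : 0 < 1 + 2 / (1 - r) := by positivity
  rw [Real.log_mul hp.ne' (pow_pos hpos _).ne', Real.log_pow] at h3
  push_cast at h3
  linarith

theorem exists_points {r c δ : ℝ} (hr0 : 0 ≤ r) (hr1 : r < 1) (hδ : 0 < δ) {G : Finset ℂ}
    (hG : G.Nonempty) (hG1 : ∀ g ∈ G, ‖g‖ = 1) (p : ℂ → ℝ) (hp : ∀ g ∈ G, 0 ≤ p g)
    (hp1 : ∑ g ∈ G, p g = 1)
    (hw : ∀ Q : ℤ[X], Q ≠ 0 → c * Q.natDegree ≤ ∑ g ∈ G, p g * Real.log (MQ r Q g)) :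
    ∃ (N : ℕ) (v : Fin N → ℂ), 1 ≤ N ∧ (∀ j, ‖v j‖ = 1) ∧ ∀ Q : ℤ[X], Q ≠ 0 →
      Real.exp ((c - δ) * (N * Q.natDegree)) ≤ ∏ j, MQ r Q (v j) := by
  classical
  obtain ⟨g0, hg0⟩ := hG
  have h1r : 0 < 1 - r := by linarith
  set C : ℝ := 2 * Real.log (1 + 2 / (1 - r)) with hCdef
  have hC : 0 ≤ C := by
    have : 0 ≤ Real.log (1 + 2 / (1 - r)) := Real.log_nonneg (by
      have : 0 ≤ 2 / (1 - r) := by positivity
      linarith)
    positivity
  obtain ⟨N0, hN0⟩ := exists_nat_ge ((G.card : ℝ) * C / δ)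
  set N : ℕ := N0 + 1 with hNdef
  have hNδ : (G.card : ℝ) * C ≤ N * δ := by
    have h1 : (G.card : ℝ) * C ≤ N0 * δ := by
      rw [div_le_iff₀ hδ] at hN0; exact hN0
    have h2 : (N : ℝ) = N0 + 1 := by rw [hNdef]; push_cast; ring
    rw [h2]; nlinarith
  have hNpos : (0 : ℝ) < N := by rw [hNdef]; positivity
  set S : ℕ := ∑ g ∈ G.erase g0, ⌊(N : ℝ) * p g⌋₊ with hS
  have hSN : S ≤ N := by
    have h1 : (S : ℝ) ≤ N := by
      rw [hS]
      push_cast
      calc ∑ g ∈ G.erase g0, (⌊(N : ℝ) * p g⌋₊ : ℝ)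
          ≤ ∑ g ∈ G.erase g0, (N : ℝ) * p g := by
            refine Finset.sum_le_sum (fun g hg => Nat.floor_le ?_)
            exact mul_nonneg hNpos.le (hp g (Finset.mem_of_mem_erase hg))
        _ ≤ ∑ g ∈ G, (N : ℝ) * p g := by
            refine Finset.sum_le_sum_of_subset_of_nonneg (Finset.erase_subset _ _) ?_
            intro g hg _
            exact mul_nonneg hNpos.le (hp g hg)
        _ = N := by rw [← Finset.mul_sum, hp1, mul_one]
    exact_mod_cast h1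
  set n : ℂ → ℕ := fun g => if g = g0 then N - S else ⌊(N : ℝ) * p g⌋₊ with hn
  have hn0 : n g0 = N - S := by simp [hn]
  have hn1 : ∀ g ∈ G.erase g0, n g = ⌊(N : ℝ) * p g⌋₊ := by
    intro g hg
    simp [hn, Finset.ne_of_mem_erase hg]
  have hsum : ∑ g ∈ G, n g = N := by
    rw [← Finset.add_sum_erase _ _ hg0, hn0, Finset.sum_congr rfl hn1, ← hS]
    omega
  set l : List ℂ := (∑ g ∈ G, n g • ({g} : Multiset ℂ)).toList with hl
  have hlen : l.length = N := by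
    rw [hl, Multiset.length_toList, Multiset.card_sum]
    simp only [Multiset.card_nsmul, Multiset.card_singleton, mul_one]
    exact hsum
  have hmem : ∀ x ∈ l, x ∈ G := by
    intro x hx
    rw [hl, Multiset.mem_toList, Multiset.mem_sum] at hx
    obtain ⟨g, hg, hxg⟩ := hx
    have := Multiset.mem_of_mem_nsmul hxg
    rw [Multiset.mem_singleton] at this
    rw [this]; exact hg
  refine ⟨l.length, fun j => l[j.1], ?_, ?_, ?_⟩
  · rw [hlen]; omega
  · intro j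
    exact hG1 _ (hmem _ (List.getElem_mem _))
  · intro Q hQ
    have hprod : ∏ j : Fin l.length, MQ r Q l[j.1] = ∏ g ∈ G, MQ r Q g ^ n g := by
      rw [Fin.prod_univ_fun_getElem l (MQ r Q), ← Points_prod (MQ r Q) n G, hl]
      conv_rhs => rw [← Multiset.coe_toList (∑ g ∈ G, n g • ({g} : Multiset ℂ))]
      rw [Multiset.map_coe, Multiset.prod_coe]
    rw [hprod, hlen]
    have hpos : ∀ g ∈ G, 0 < MQ r Q g := fun g hg => MQ_pos hr0 hr1 (hG1 g hg) hQ
    have hPpos : 0 < ∏ g ∈ G, MQ r Q g ^ n g :=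
      Finset.prod_pos (fun g hg => pow_pos (hpos g hg) _)
    rw [← Real.le_log_iff_exp_le hPpos, Real.log_prod (fun g hg => (pow_pos (hpos g hg) _).ne')]
    simp only [Real.log_pow]
    set Lg : ℂ → ℝ := fun g => Real.log (MQ r Q g) with hLg
    have e1 : ∑ g ∈ G, (n g : ℝ) * Lg g
        = N * Lg g0 + ∑ g ∈ G, (n g : ℝ) * (Lg g - Lg g0) := by
      have : (N : ℝ) = ∑ g ∈ G, (n g : ℝ) := by rw [← hsum]; push_cast; rfl
      rw [this, Finset.sum_mul, ← Finset.sum_add_distrib]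
      exact Finset.sum_congr rfl (fun g _ => by ring)
    have e2 : ∑ g ∈ G, p g * Lg g = Lg g0 + ∑ g ∈ G, p g * (Lg g - Lg g0) := by
      have : Lg g0 = (∑ g ∈ G, p g) * Lg g0 := by rw [hp1, one_mul]
      conv_rhs => rw [this]
      rw [Finset.sum_mul, ← Finset.sum_add_distrib]
      refine Finset.sum_congr rfl (fun g _ => ?_)
      rw [← Finset.sum_mul, hp1]
      ring
    have hw' := hw Q hQ
    rw [e2] at hw'
    have e3 : ∑ g ∈ G, ((N : ℝ) * p g - n g) * (Lg g - Lg g0) ≤ (G.card : ℝ) * (Q.natDegree * C) := by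
      have : ∀ g ∈ G, ((N : ℝ) * p g - n g) * (Lg g - Lg g0) ≤ Q.natDegree * C := by
        intro g hg
        by_cases hgg : g = g0
        · rw [hgg, sub_self, mul_zero]; positivity
        · have hg' : g ∈ G.erase g0 := Finset.mem_erase.2 ⟨hgg, hg⟩
          have hlog : Lg g - Lg g0 ≤ Q.natDegree * C :=
            Points_log hr0 hr1 (hG1 g0 hg0) (hG1 g hg) hQ
          rw [hn1 g hg']
          have a1 : (⌊(N : ℝ) * p g⌋₊ : ℝ) ≤ (N : ℝ) * p g :=
            Nat.floor_le (mul_nonneg hNpos.le (hp g hg))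
          have a2 : (N : ℝ) * p g < ⌊(N : ℝ) * p g⌋₊ + 1 := Nat.lt_floor_add_one _
          have hDC : (0 : ℝ) ≤ Q.natDegree * C := by positivity
          rcases le_total 0 (Lg g - Lg g0) with h0 | h0
          · nlinarith
          · nlinarith
      calc ∑ g ∈ G, ((N : ℝ) * p g - n g) * (Lg g - Lg g0)
          ≤ ∑ _g ∈ G, (Q.natDegree * C : ℝ) := Finset.sum_le_sum this
        _ = _ := by rw [Finset.sum_const, nsmul_eq_mul]
    have e4 : ∑ g ∈ G, ((N : ℝ) * p g - n g) * (Lg g - Lg g0)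
        = N * ∑ g ∈ G, p g * (Lg g - Lg g0) - ∑ g ∈ G, (n g : ℝ) * (Lg g - Lg g0) := by
      rw [Finset.mul_sum, ← Finset.sum_sub_distrib]
      exact Finset.sum_congr rfl (fun g _ => by ring)
    rw [e4] at e3
    have h5 : (N : ℝ) * (c * Q.natDegree) ≤ N * (Lg g0 + ∑ g ∈ G, p g * (Lg g - Lg g0)) :=
      mul_le_mul_of_nonneg_left hw' hNpos.le
    have h6 : (G.card : ℝ) * C * Q.natDegree ≤ N * δ * Q.natDegree :=
      mul_le_mul_of_nonneg_right hNδ (Nat.cast_nonneg _)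
    change (c - δ) * (N * Q.natDegree) ≤ ∑ g ∈ G, (n g : ℝ) * Lg g
    rw [e1]
    nlinarith

end Pool.Agent.H27Dual
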