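import Mathlib

/-! # A theorem of the alternative

Proof. If `κ` is empty the first alternative holds. Let `C` be the convex hull of the finite set `{u i}` in `κ → ℝ` (compact: `Set.Finite.isCompact_convexHull`) and
`K = {y | ∀ k, 0 ≤ y k}` (closed, convex). If `C ∩ K` is not empty: a point of `C` is `∑ p i • u i` (`convexHull_range_eq`, `mem_convexHull_iff..` or
`Finset.mem_convexHull'`). Otherwise separate them (`geometric_hahn_banach_compact_closed`): `f c < s < t < f y`; `f y = ∑ q k * y k`,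
`q k := f (Pi.single k 1)`; since `K` is a cone, `q k ≥ 0`, and `t < f 0 = 0`; so `f (u i) < 0`.
Integer version: `n k := ⌊M q k⌋₊` for `M` large: `∑ n k u i k ≤ M ∑ q k u i k + ∑ |u i k| < 0`. -/

set_option autoImplicit false

namespace Pool.Agent.H27Dual

theorem gordan {ι κ : Type*} [Fintype ι] [Nonempty ι] [Fintype κ] (u : ι → κ → ℝ) :
    (∃ p : ι → ℝ, (∀ i, 0 ≤ p i) ∧ ∑ i, p i = 1 ∧ ∀ k, 0 ≤ ∑ i, p i * u i k) ∨
    (∃ q : κ → ℝ, (∀ k, 0 ≤ q k) ∧ ∀ i, ∑ k, q k * u i k < 0) := by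
  classical
  set L : (ι → ℝ) →ₗ[ℝ] (κ → ℝ) := Fintype.linearCombination ℝ u with hL
  have hLa : ∀ (p : ι → ℝ) (k : κ), L p k = ∑ i, p i * u i k := by
    intro p k
    rw [hL, Fintype.linearCombination_apply, Finset.sum_apply]
    exact Finset.sum_congr rfl fun i _ => by rw [Pi.smul_apply, smul_eq_mul]
  have hLc : Continuous L := LinearMap.continuous_of_finiteDimensional L
  set C : Set (κ → ℝ) := L '' stdSimplex ℝ ι with hC
  have hCc : IsCompact C := (isCompact_stdSimplex ℝ ι).image hLc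
  have hCv : Convex ℝ C := (convex_stdSimplex ℝ ι).linear_image L
  set K : Set (κ → ℝ) := {y | ∀ k, 0 ≤ y k} with hK
  have hKc : IsClosed K := by
    have : K = ⋂ k, {y : κ → ℝ | 0 ≤ y k} := by
      ext y
      simp [hK]
    rw [this]
    exact isClosed_iInter fun k => isClosed_le continuous_const (continuous_apply k)
  have hKv : Convex ℝ K := by
    intro x hx y hy a b ha hb _ k
    have h1 := mul_nonneg ha (hx k)
    have h2 := mul_nonneg hb (hy k)
    rw [Pi.add_apply, Pi.smul_apply, Pi.smul_apply, smul_eq_mul, smul_eq_mul]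
    linarith
  by_cases hd : Disjoint C K
  · right
    obtain ⟨f, s, t, h1, h2, h3⟩ := geometric_hahn_banach_compact_closed hCv hCc hKv hKc hd
    have hf : ∀ y : κ → ℝ, f y = ∑ k, f (Pi.single k 1) * y k := by
      intro y
      have h4 : y = ∑ k, y k • (Pi.single k (1 : ℝ) : κ → ℝ) := by
        funext k
        simp [Finset.sum_apply, Pi.single_apply]
      conv_lhs => rw [h4, map_sum]
      exact Finset.sum_congr rfl fun k _ => by rw [map_smul, smul_eq_mul, mul_comm]
    have ht : t < 0 := by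
      have := h3 0 (fun k => le_rfl)
      rwa [map_zero] at this
    refine ⟨fun k => f (Pi.single k 1), fun k => ?_, fun i => ?_⟩
    · by_contra hneg
      push Not at hneg
      have h5 := h3 ((t / f (Pi.single k 1)) • Pi.single k 1) (fun j => by
        rw [Pi.smul_apply, smul_eq_mul]
        refine mul_nonneg (div_nonneg_of_nonpos ht.le hneg.le) ?_
        by_cases hj : j = k
        · rw [hj, Pi.single_eq_same]; exact zero_le_one
        · rw [Pi.single_eq_of_ne hj])
      rw [map_smul, smul_eq_mul, div_mul_cancel₀ _ hneg.ne] at h5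
      exact lt_irrefl _ h5
    · have h5 : u i ∈ C := by
        refine ⟨Pi.single i 1, single_mem_stdSimplex ℝ i, ?_⟩
        funext k
        rw [hLa, Finset.sum_eq_single i]
        · rw [Pi.single_eq_same, one_mul]
        · intro j _ hj
          rw [Pi.single_eq_of_ne hj, zero_mul]
        · exact fun h => absurd (Finset.mem_univ i) h
      have h6 := h1 _ h5
      rw [hf] at h6
      linarith
  · left
    obtain ⟨y, hyC, hyK⟩ := Set.not_disjoint_iff.1 hd
    obtain ⟨p, hp, rfl⟩ := hyC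
    exact ⟨p, hp.1, hp.2, fun k => by rw [← hLa]; exact hyK k⟩

theorem gordan_nat {ι κ : Type*} [Fintype ι] [Nonempty ι] [Fintype κ] (u : ι → κ → ℝ) :
    (∃ p : ι → ℝ, (∀ i, 0 ≤ p i) ∧ ∑ i, p i = 1 ∧ ∀ k, 0 ≤ ∑ i, p i * u i k) ∨
    (∃ n : κ → ℕ, ∀ i, ∑ k, (n k : ℝ) * u i k < 0) := by
  rcases gordan u with h | ⟨q, hq, hqu⟩
  · exact Or.inl h
  · right
    have h1 : ∀ i, ∀ᶠ M : ℕ in Filter.atTop, ∑ k, |u i k| < (M : ℝ) * (-∑ k, q k * u i k) := by
      intro i
      have h2 : 0 < -∑ k, q k * u i k := by linarith [hqu i]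
      exact (tendsto_natCast_atTop_atTop.atTop_mul_const h2).eventually_gt_atTop _
    obtain ⟨M, hM⟩ := (Filter.eventually_all.2 h1).exists
    refine ⟨fun k => ⌊(M : ℝ) * q k⌋₊, fun i => ?_⟩
    have h3 : ∀ k, ((⌊(M : ℝ) * q k⌋₊ : ℕ) : ℝ) * u i k ≤ (M : ℝ) * (q k * u i k) + |u i k| := by
      intro k
      have h4 : 0 ≤ (M : ℝ) * q k := mul_nonneg (Nat.cast_nonneg _) (hq k)
      have h5 := Nat.floor_le h4
      have h6 := Nat.lt_floor_add_one ((M : ℝ) * q k)
      have h7 : |((⌊(M : ℝ) * q k⌋₊ : ℕ) : ℝ) - (M : ℝ) * q k| ≤ 1 := by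
        rw [abs_le]
        constructor <;> linarith
      have h8 : (((⌊(M : ℝ) * q k⌋₊ : ℕ) : ℝ) - (M : ℝ) * q k) * u i k ≤ |u i k| := by
        calc (((⌊(M : ℝ) * q k⌋₊ : ℕ) : ℝ) - (M : ℝ) * q k) * u i k
            ≤ |(((⌊(M : ℝ) * q k⌋₊ : ℕ) : ℝ) - (M : ℝ) * q k) * u i k| := le_abs_self _
          _ = |((⌊(M : ℝ) * q k⌋₊ : ℕ) : ℝ) - (M : ℝ) * q k| * |u i k| := abs_mul _ _
          _ ≤ 1 * |u i k| := by gcongr
          _ = |u i k| := one_mul _
      have h9 : ((⌊(M : ℝ) * q k⌋₊ : ℕ) : ℝ) * u i k =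
          (((⌊(M : ℝ) * q k⌋₊ : ℕ) : ℝ) - (M : ℝ) * q k) * u i k + (M : ℝ) * (q k * u i k) := by
        ring
      rw [h9]
      linarith
    calc ∑ k, ((⌊(M : ℝ) * q k⌋₊ : ℕ) : ℝ) * u i k
        ≤ ∑ k, ((M : ℝ) * (q k * u i k) + |u i k|) := Finset.sum_le_sum fun k _ => h3 k
      _ = (M : ℝ) * ∑ k, q k * u i k + ∑ k, |u i k| := by
          rw [Finset.sum_add_distrib, Finset.mul_sum]
      _ < 0 := by
          have := hM i
          linarith

end Pool.Agent.H27Dual
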