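import Pool.Agent.H27Dual.MQb
import Pool.Agent.H27Dual.Gordan

/-! # Optimal weights on the grid (minimax theorem and compactness)

Proof. For `Q ≠ 0` let `K Q` be the set of the `p ∈ stdSimplex ℝ G` (`G` as the subtype `{g // g ∈ G}`) with
`c * deg Q ≤ ∑ p g * log (MQ r Q g)`; it is closed, and `stdSimplex` is compact (`isCompact_stdSimplex`). By the finite intersection property
(`IsCompact.inter_iInter_nonempty`, index type `{Q // Q ≠ 0}`) it is enough to find for finitely many `Q_k` a common `p`. Apply `gordan_nat` with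
`u g k = log (MQ r (Q_k) g) - c * deg Q_k`. In the second case let `F = ∏ Q_k ^ n_k ≠ 0`; `MQ_prod` and `natDegree_prod` give
`log (MQ r F g) < c * deg F` for all `g ∈ G`, in contradiction to `hmax`. -/

set_option autoImplicit false

namespace Pool.Agent.H27Dual

open Polynomial

/-- finitely many polynomials -/
private theorem Weights_fin {r c : ℝ} (hr0 : 0 ≤ r) (hr1 : r < 1) {G : Finset ℂ}
    (hG : G.Nonempty) (hG1 : ∀ g ∈ G, ‖g‖ = 1)
    (hmax : ∀ F : ℤ[X], F ≠ 0 → ∃ g ∈ G, c * F.natDegree ≤ Real.log (MQ r F g))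
    (u : Finset {Q : ℤ[X] // Q ≠ 0}) :
    ∃ p : {g // g ∈ G} → ℝ, (∀ i, 0 ≤ p i) ∧ ∑ i, p i = 1 ∧
      ∀ Q ∈ u, c * (Q.1.natDegree : ℝ) ≤ ∑ i, p i * Real.log (MQ r Q.1 i.1) := by
  classical
  obtain ⟨g0, hg0⟩ := hG
  haveI : Nonempty {g // g ∈ G} := ⟨⟨g0, hg0⟩⟩
  rcases gordan_nat (ι := {g // g ∈ G}) (κ := {Q // Q ∈ u})
    (fun g k => Real.log (MQ r k.1.1 g.1) - c * (k.1.1.natDegree : ℝ)) with
    ⟨p, h1, h2, h3⟩ | ⟨n, hn⟩
  · refine ⟨p, h1, h2, fun Q hQ => ?_⟩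
    have h4 := h3 ⟨Q, hQ⟩
    have h5 : ∑ i, p i * (Real.log (MQ r Q.1 i.1) - c * (Q.1.natDegree : ℝ)) =
        ∑ i, p i * Real.log (MQ r Q.1 i.1) - c * (Q.1.natDegree : ℝ) := by
      simp only [mul_sub, Finset.sum_sub_distrib]
      rw [← Finset.sum_mul, h2, one_mul]
    have h6 : 0 ≤ ∑ i, p i * Real.log (MQ r Q.1 i.1) - c * (Q.1.natDegree : ℝ) := by
      rw [← h5]
      exact h4
    linarith
  · exfalso
    have hF : (∏ k : {Q // Q ∈ u}, k.1.1 ^ n k) ≠ 0 :=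
      Finset.prod_ne_zero_iff.2 fun k _ => pow_ne_zero _ k.1.2
    obtain ⟨g, hg, hle⟩ := hmax _ hF
    have h1 := hn ⟨g, hg⟩
    have hdeg : (∏ k : {Q // Q ∈ u}, k.1.1 ^ n k).natDegree =
        ∑ k : {Q // Q ∈ u}, n k * k.1.1.natDegree := by
      rw [Polynomial.natDegree_prod _ _ (fun k _ => pow_ne_zero _ k.1.2)]
      exact Finset.sum_congr rfl fun k _ => Polynomial.natDegree_pow _ _
    have hlog : Real.log (MQ r (∏ k : {Q // Q ∈ u}, k.1.1 ^ n k) g) =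
        ∑ k : {Q // Q ∈ u}, (n k : ℝ) * Real.log (MQ r k.1.1 g) := by
      rw [MQ_prod r g Finset.univ (fun k : {Q // Q ∈ u} => k.1.1) n (fun k _ => k.1.2),
        Real.log_prod (fun k _ => pow_ne_zero _ (MQ_pos hr0 hr1 (hG1 g hg) k.1.2).ne')]
      exact Finset.sum_congr rfl fun k _ => Real.log_pow _ _
    rw [hdeg, hlog] at hle
    push_cast at hle
    have h2 : ∑ k : {Q // Q ∈ u}, (n k : ℝ) *
        (Real.log (MQ r k.1.1 g) - c * (k.1.1.natDegree : ℝ)) =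
        ∑ k : {Q // Q ∈ u}, (n k : ℝ) * Real.log (MQ r k.1.1 g) -
          c * ∑ k : {Q // Q ∈ u}, (n k : ℝ) * (k.1.1.natDegree : ℝ) := by
      rw [Finset.mul_sum, ← Finset.sum_sub_distrib]
      exact Finset.sum_congr rfl fun k _ => by ring
    have h3 : ∑ k : {Q // Q ∈ u}, (n k : ℝ) *
        (Real.log (MQ r k.1.1 g) - c * (k.1.1.natDegree : ℝ)) < 0 := h1
    linarith

theorem exists_weights {r c : ℝ} (hr0 : 0 ≤ r) (hr1 : r < 1) {G : Finset ℂ} (hG : G.Nonempty)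
    (hG1 : ∀ g ∈ G, ‖g‖ = 1)
    (hmax : ∀ F : ℤ[X], F ≠ 0 → ∃ g ∈ G, c * F.natDegree ≤ Real.log (MQ r F g)) :
    ∃ p : ℂ → ℝ, (∀ g ∈ G, 0 ≤ p g) ∧ ∑ g ∈ G, p g = 1 ∧
      ∀ Q : ℤ[X], Q ≠ 0 → c * Q.natDegree ≤ ∑ g ∈ G, p g * Real.log (MQ r Q g) := by
  classical
  have hcl : ∀ Q : {Q : ℤ[X] // Q ≠ 0}, IsClosed {p : {g // g ∈ G} → ℝ |
      c * (Q.1.natDegree : ℝ) ≤ ∑ i, p i * Real.log (MQ r Q.1 i.1)} := by
    intro Q
    refine isClosed_le continuous_const ?_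
    exact continuous_finset_sum _ fun i _ => (continuous_apply i).mul continuous_const
  obtain ⟨p, hp1, hp2⟩ := IsCompact.inter_iInter_nonempty
    (isCompact_stdSimplex ℝ {g // g ∈ G}) _ hcl (by
      intro u
      obtain ⟨p, h1, h2, h3⟩ := Weights_fin hr0 hr1 hG hG1 hmax u
      refine ⟨p, ⟨h1, h2⟩, ?_⟩
      simp only [Set.mem_iInter]
      exact h3)
  obtain ⟨h1, h2⟩ := hp1
  have h3 : ∀ Q : {Q : ℤ[X] // Q ≠ 0},
      c * (Q.1.natDegree : ℝ) ≤ ∑ i, p i * Real.log (MQ r Q.1 i.1) := fun Q =>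
    Set.mem_iInter.1 hp2 Q
  have key : ∀ φ : ℂ → ℝ, ∑ g ∈ G, (if h : g ∈ G then p ⟨g, h⟩ else 0) * φ g =
      ∑ i : {g // g ∈ G}, p i * φ i.1 := by
    intro φ
    rw [← Finset.sum_coe_sort G]
    refine Finset.sum_congr rfl fun i _ => ?_
    rw [dif_pos i.2]
  refine ⟨fun g => if h : g ∈ G then p ⟨g, h⟩ else 0, ?_, ?_, ?_⟩
  · intro g hg
    have h5 : (if h : g ∈ G then p ⟨g, h⟩ else 0) = p ⟨g, hg⟩ := dif_pos hg
    change 0 ≤ (if h : g ∈ G then p ⟨g, h⟩ else 0)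
    rw [h5]
    exact h1 _
  · have h4 := key fun _ => 1
    simp only [mul_one] at h4
    rw [h4]
    exact h2
  · intro Q hQ
    rw [key fun g => Real.log (MQ r Q g)]
    exact h3 ⟨Q, hQ⟩

end Pool.Agent.H27Dual
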