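import Pool.Agent.H27Dual.Grid
import Pool.Agent.H27Dual.Weights
import Pool.Agent.H27Dual.Points

/-! # Admissible data exist

Proof. `δ := η / 5`, `r := exp (-δ)`. `exists_grid` with `δ`: `c := log (t r e^{-δ}) = log t - 2 δ`. `exists_weights`, `exists_points` with `δ`:
`∏ MQ ≥ exp ((log t - 3 δ) N deg Q)`. Put `L := - log t + 4 δ`, `ε := δ` (`- log t ≥ 0`). -/

set_option autoImplicit false

namespace Pool.Agent.H27Dual

open Polynomial

theorem exists_adm {t η : ℝ} (ht : 0 < t) (ht1 : t ≤ 1) (hη : 0 < η)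
    (hstar : ∀ F : ℤ[X], F ≠ 0 → ∃ x ∈ Set.Icc (0 : ℝ) 1, t ^ F.natDegree ≤ |aeval x F|) :
    ∃ (D : Dat) (ε : ℝ), D.Adm ε ∧ D.L ≤ -Real.log t + η := by
  have hδ : 0 < η / 5 := by positivity
  set δ : ℝ := η / 5 with hδdef
  have hr0 : 0 < Real.exp (-δ) := Real.exp_pos _
  have hr1 : Real.exp (-δ) < 1 := Real.exp_lt_one_iff.2 (by linarith)
  obtain ⟨G, hG, hG1, hGF⟩ := exists_grid ht hr0 hr1 hδ hstar
  have hbase : t * Real.exp (-δ) * Real.exp (-δ) = Real.exp (Real.log t - 2 * δ) := by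
    conv_lhs => rw [← Real.exp_log ht]
    rw [← Real.exp_add, ← Real.exp_add]
    congr 1
    ring
  have hmax : ∀ F : ℤ[X], F ≠ 0 →
      ∃ g ∈ G, (Real.log t - 2 * δ) * F.natDegree ≤ Real.log (MQ (Real.exp (-δ)) F g) := by
    intro F hF
    obtain ⟨g, hg, h⟩ := hGF F hF
    refine ⟨g, hg, ?_⟩
    rw [hbase, ← Real.exp_nat_mul] at h
    have hpos : 0 < MQ (Real.exp (-δ)) F g := lt_of_lt_of_le (Real.exp_pos _) h
    rw [Real.le_log_iff_exp_le hpos, mul_comm]
    exact h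
  obtain ⟨p, hp, hp1, hw⟩ := exists_weights hr0.le hr1 hG hG1 hmax
  obtain ⟨N, v, hN, hv, hQ⟩ := exists_points hr0.le hr1 hδ hG hG1 p hp hp1 hw
  refine ⟨⟨N, v, Real.exp (-δ), -Real.log t + 4 * δ, hN, hv, hr0, hr1⟩, δ, ?_, ?_⟩
  · refine ⟨hδ, ?_, ?_⟩
    · have : Real.log t ≤ 0 := Real.log_nonpos ht.le ht1
      simp only
      linarith
    · intro Q hQ0
      have h := hQ Q hQ0
      simp only
      calc Real.exp (δ * (N * Q.natDegree))
          = Real.exp ((-Real.log t + 4 * δ) * (N * Q.natDegree)) *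
            Real.exp ((Real.log t - 2 * δ - δ) * (N * Q.natDegree)) := by
            rw [← Real.exp_add]; congr 1; ring
        _ ≤ _ := mul_le_mul_of_nonneg_left h (Real.exp_pos _).le
  · simp only
    linarith

end Pool.Agent.H27Dual
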