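import Pool.Agent.H27Dual.OmB

/-! # Alternation points -/

set_option autoImplicit false

namespace Pool.Agent.H27Dual

open ComplexConjugate

/-- the two inner factors -/
private noncomputable def Alt_f (r : ℝ) (v : ℂ) (θ : ℝ) : ℂ :=
  1 - r * v * Complex.exp (-(θ * Complex.I))

private theorem Alt_f_slit {r : ℝ} (h0 : 0 < r) (h1 : r < 1) {v : ℂ} (hv : ‖v‖ = 1) (θ : ℝ) :
    0 < (Alt_f r v θ).re := by
  have hn : ‖(r : ℂ) * v * Complex.exp (-(θ * Complex.I))‖ = r := by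
    have : -((θ : ℂ) * Complex.I) = ((-θ : ℝ) : ℂ) * Complex.I := by push_cast; ring
    rw [norm_mul, norm_mul, hv, this, Complex.norm_exp_ofReal_mul_I, Complex.norm_real,
      Real.norm_of_nonneg h0.le]
    ring
  have h := Complex.re_le_norm ((r : ℂ) * v * Complex.exp (-(θ * Complex.I)))
  rw [hn] at h
  unfold Alt_f
  rw [Complex.sub_re, Complex.one_re]
  linarith

private noncomputable def Alt_a (r : ℝ) (v : ℂ) (θ : ℝ) : ℝ :=
  θ + Complex.arg (Alt_f r v θ) + Complex.arg (Alt_f r (conj v) θ)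

private theorem Alt_cont {r : ℝ} (h0 : 0 < r) (h1 : r < 1) {v : ℂ} (hv : ‖v‖ = 1) :
    Continuous (Alt_a r v) := by
  have hf : ∀ u : ℂ, Continuous (Alt_f r u) := by
    intro u
    unfold Alt_f
    fun_prop
  have hc : ∀ u : ℂ, ‖u‖ = 1 → Continuous fun θ : ℝ => Complex.arg (Alt_f r u θ) := by
    intro u hu
    refine continuous_iff_continuousAt.2 fun θ => ?_
    have h := Complex.continuousAt_arg (x := Alt_f r u θ) (Or.inl (Alt_f_slit h0 h1 hu θ))
    exact ContinuousAt.comp (f := Alt_f r u) h (hf u).continuousAt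
  unfold Alt_a
  exact (continuous_id.add (hc v hv)).add (hc (conj v) (by rw [RCLike.norm_conj, hv]))

private theorem Alt_arg_add {z : ℂ} (hz : 0 < z.re) : Complex.arg z + Complex.arg (conj z) = 0 := by
  rw [Complex.arg_conj, if_neg]
  · ring
  · intro h
    have := (Complex.arg_eq_pi_iff.1 h).1
    linarith

private theorem Alt_conj {r : ℝ} {v : ℂ} {θ : ℝ}
    (h : conj (Complex.exp (-(θ * Complex.I))) = Complex.exp (-(θ * Complex.I))) :
    Alt_f r (conj v) θ = conj (Alt_f r v θ) := by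
  unfold Alt_f
  rw [map_sub, map_mul, map_mul, map_one, Complex.conj_ofReal, h]

private theorem Alt_zero {r : ℝ} (h0 : 0 < r) (h1 : r < 1) {v : ℂ} (hv : ‖v‖ = 1) :
    Alt_a r v 0 = 0 := by
  unfold Alt_a
  rw [Alt_conj (by simp), zero_add]
  exact Alt_arg_add (Alt_f_slit h0 h1 hv 0)

private theorem Alt_pi {r : ℝ} (h0 : 0 < r) (h1 : r < 1) {v : ℂ} (hv : ‖v‖ = 1) :
    Alt_a r v Real.pi = Real.pi := by
  unfold Alt_a
  have he : Complex.exp (-((Real.pi : ℂ) * Complex.I)) = -1 := by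
    rw [Complex.exp_neg, Complex.exp_pi_mul_I]; norm_num
  rw [Alt_conj (by rw [he]; simp), add_assoc, Alt_arg_add (Alt_f_slit h0 h1 hv _), add_zero]

private theorem Alt_factor {r : ℝ} {v : ℂ} (hv : ‖v‖ = 1) (θ : ℝ) :
    Complex.exp (θ * Complex.I) - 2 * (r : ℂ) * ((v.re : ℝ) : ℂ) +
        (r : ℂ) ^ 2 * (Complex.exp (θ * Complex.I))⁻¹ =
      ((‖Alt_f r v θ‖ * ‖Alt_f r (conj v) θ‖ : ℝ) : ℂ) *
        Complex.exp ((Alt_a r v θ : ℝ) * Complex.I) := by
  have hw : Complex.exp (θ * Complex.I) ≠ 0 := Complex.exp_ne_zero _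
  have h1 := Complex.norm_mul_exp_arg_mul_I (Alt_f r v θ)
  have h2 := Complex.norm_mul_exp_arg_mul_I (Alt_f r (conj v) θ)
  have h3 : ((‖Alt_f r v θ‖ * ‖Alt_f r (conj v) θ‖ : ℝ) : ℂ) *
        Complex.exp ((Alt_a r v θ : ℝ) * Complex.I) =
      Complex.exp (θ * Complex.I) * (Alt_f r v θ * Alt_f r (conj v) θ) := by
    conv_rhs => rw [← h1, ← h2]
    unfold Alt_a
    push_cast
    rw [add_mul, add_mul, Complex.exp_add, Complex.exp_add]
    ring
  rw [h3]
  unfold Alt_f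
  rw [Complex.exp_neg]
  have hvv : v * conj v = 1 := by rw [Complex.mul_conj, Complex.normSq_eq_norm_sq, hv]; simp
  have hre : v + conj v = 2 * ((v.re : ℝ) : ℂ) := by
    rw [Complex.add_conj]; push_cast; ring
  field_simp
  linear_combination ((r : ℂ) * Complex.exp (θ * Complex.I)) * hre - (r : ℂ) ^ 2 * hvv

private theorem Alt_Z (D : Dat) (θ : ℝ) : D.Z (Complex.exp (θ * Complex.I)) =
    (D.Om (Complex.exp (θ * Complex.I)) : ℂ) *
      Complex.exp ((∑ j, Alt_a D.r (D.v j) θ : ℝ) * Complex.I) := by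
  have hw : Complex.exp (θ * Complex.I) ≠ 0 := Complex.exp_ne_zero _
  obtain ⟨c, hc, hZ⟩ : ∃ c : ℝ, 0 ≤ c ∧ D.Z (Complex.exp (θ * Complex.I)) =
      (c : ℂ) * Complex.exp ((∑ j, Alt_a D.r (D.v j) θ : ℝ) * Complex.I) := by
    refine ⟨Real.exp (D.N * D.L) * ∏ j, ((‖Alt_f D.r (D.v j) θ‖ *
      ‖Alt_f D.r (conj (D.v j)) θ‖) / 4), by positivity, ?_⟩
    unfold Dat.Z
    have h1 : ∀ j, (Complex.exp (θ * Complex.I) - 2 * (D.r : ℂ) * (((D.v j).re : ℝ) : ℂ) +
        (D.r : ℂ) ^ 2 * (Complex.exp (θ * Complex.I))⁻¹) / 4 =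
        (((‖Alt_f D.r (D.v j) θ‖ * ‖Alt_f D.r (conj (D.v j)) θ‖) / 4 : ℝ) : ℂ) *
          Complex.exp ((Alt_a D.r (D.v j) θ : ℝ) * Complex.I) := by
      intro j
      rw [Alt_factor (D.hv j)]
      push_cast
      ring
    rw [Finset.prod_congr rfl fun j _ => h1 j, Finset.prod_mul_distrib, ← Complex.exp_sum]
    push_cast
    rw [Finset.sum_mul]
    ring
  have h2 := D.norm_Z hw
  rw [hZ, norm_mul, Complex.norm_exp_ofReal_mul_I, mul_one, Complex.norm_real,
    Real.norm_of_nonneg hc] at h2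
  rw [hZ, h2]

theorem exists_alt (D : Dat) {k : ℕ} (hk : 1 ≤ k) : ∃ w : ℕ → ℂ,
    (∀ i ≤ k * D.N, ‖w i‖ = 1) ∧ (∀ i < k * D.N, xOf (w (i + 1)) < xOf (w i)) ∧
    ∀ i ≤ k * D.N, D.Z (w i) ^ k = (-1) ^ i * (D.Om (w i) : ℂ) ^ k := by
  set Θ : ℝ → ℝ := fun θ => k * ∑ j, Alt_a D.r (D.v j) θ with hΘ
  have hcont : Continuous Θ :=
    continuous_const.mul (continuous_finsetSum _ fun j _ => Alt_cont D.r0 D.r1 (D.hv j))
  have hΘ0 : Θ 0 = 0 := by
    rw [hΘ]
    simp only [Alt_zero D.r0 D.r1 (D.hv _), Finset.sum_const_zero, mul_zero]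
  have hΘπ : Θ Real.pi = (k * D.N : ℕ) * Real.pi := by
    rw [hΘ]
    simp only [Alt_pi D.r0 D.r1 (D.hv _), Finset.sum_const, Finset.card_univ, Fintype.card_fin,
      nsmul_eq_mul]
    push_cast
    ring
  have key : ∀ n, n ≤ k * D.N → ∃ θ : ℕ → ℝ,
      (∀ i ≤ n, θ i ∈ Set.Icc 0 Real.pi ∧ Θ (θ i) = i * Real.pi) ∧ ∀ i < n, θ i < θ (i + 1) := by
    intro n
    induction n with
    | zero =>
      intro _
      refine ⟨fun _ => 0, fun i hi => ⟨⟨le_rfl, Real.pi_pos.le⟩, ?_⟩, fun i hi => by omega⟩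
      have : i = 0 := by omega
      rw [this, hΘ0]; simp
    | succ n ih =>
      intro hn
      obtain ⟨θ, h1, h2⟩ := ih (by omega)
      obtain ⟨h3, h4⟩ := h1 n le_rfl
      have hle : (((n + 1 : ℕ) : ℝ)) * Real.pi ≤ (k * D.N : ℕ) * Real.pi :=
        mul_le_mul_of_nonneg_right (by exact_mod_cast hn) Real.pi_pos.le
      have hlt : (n : ℝ) * Real.pi < ((n + 1 : ℕ) : ℝ) * Real.pi := by
        push_cast; nlinarith [Real.pi_pos]
      obtain ⟨y, hy, hyΘ⟩ := intermediate_value_Icc h3.2 hcont.continuousOn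
        (show ((n + 1 : ℕ) : ℝ) * Real.pi ∈ Set.Icc (Θ (θ n)) (Θ Real.pi) by
          rw [h4, hΘπ]; exact ⟨hlt.le, hle⟩)
      have hny : θ n < y := by
        refine lt_of_le_of_ne hy.1 fun h => ?_
        rw [← h, h4] at hyΘ
        linarith
      refine ⟨fun i => if i ≤ n then θ i else y, fun i hi => ?_, fun i hi => ?_⟩
      · by_cases hin : i ≤ n
        · simp only [if_pos hin]; exact h1 i hin
        · have hi' : i = n + 1 := by omega
          simp only [if_neg hin]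
          rw [hi']
          exact ⟨⟨h3.1.trans hy.1, hy.2⟩, hyΘ⟩
      · by_cases hin : i + 1 ≤ n
        · simp only [if_pos hin, if_pos (show i ≤ n by omega)]
          exact h2 i (by omega)
        · have hi' : i = n := by omega
          simp only [if_neg hin, if_pos (show i ≤ n by omega)]
          rw [hi']
          exact hny
  obtain ⟨θ, h1, h2⟩ := key _ le_rfl
  refine ⟨fun i => Complex.exp (θ i * Complex.I), fun i _ => Complex.norm_exp_ofReal_mul_I _,
    fun i hi => ?_, fun i hi => ?_⟩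
  · unfold xOf
    rw [Complex.exp_ofReal_mul_I_re, Complex.exp_ofReal_mul_I_re]
    have := Real.strictAntiOn_cos (h1 i hi.le).1 (h1 (i + 1) hi).1 (h2 i hi)
    linarith
  · show D.Z (Complex.exp (θ i * Complex.I)) ^ k =
      (-1) ^ i * (D.Om (Complex.exp (θ i * Complex.I)) : ℂ) ^ k
    rw [Alt_Z, mul_pow, ← Complex.exp_nat_mul]
    have h3 := (h1 i hi).2
    have h4 : (k : ℂ) * (((∑ j, Alt_a D.r (D.v j) (θ i) : ℝ) : ℂ) * Complex.I) =
        (i : ℂ) * (Real.pi * Complex.I) := by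
      have h5 : (((k : ℝ) * ∑ j, Alt_a D.r (D.v j) (θ i) : ℝ) : ℂ) = ((i * Real.pi : ℝ) : ℂ) := by
        rw [← h3]
      push_cast at h5 ⊢
      rw [← mul_assoc, h5]
      ring
    rw [h4, Complex.exp_nat_mul, Complex.exp_pi_mul_I]
    ring

end Pool.Agent.H27Dual
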