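import Pool.Agent.H27Dual.OmB

/-! # The leading coefficient of `A`

Proof. Let `w = T` real, `T → ∞`. `J T = (2 + T + T⁻¹)/4`, `aeval (J T) A / (J T)^(kN) → A.coeff (k N)` (`natDegree ≤ k N`; e.g. `Polynomial.div_tendsto...` or write
`A = ∑_{i ≤ kN} a_i X^i`). The factors of `Z T` divided by `J T` tend to `1` (times `e^{NL}` altogether), those of `Z T⁻¹` divided by `J T` tend to `r²`:
`Z T / (J T)^N → e^{NL}`, `Z T⁻¹ / (J T)^N → e^{NL} r^(2N)`. So `A.coeff (kN) = e^{kNL} (1 + r^(2kN)) / 2 ≤ e^{kNL}`. -/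

set_option autoImplicit false

namespace Pool.Agent.H27Dual

open Polynomial

private theorem CoefA_Om_le (D : Dat) {T : ℝ} (hT : 1 < T) :
    D.Om (T : ℂ) ≤ Real.exp (D.N * D.L) * ((2 + T + T⁻¹) / 4) ^ D.N := by
  have hT0 : 0 < T := by linarith
  have hnT : ‖(T : ℂ)‖ = T := by rw [Complex.norm_real, Real.norm_of_nonneg hT0.le]
  unfold Dat.Om Dat.Om0
  refine mul_le_mul_of_nonneg_left ?_ (Real.exp_pos _).le
  calc ∏ j, ker D.r (D.v j) (T : ℂ) ≤ ∏ _j : Fin D.N, ((2 + T + T⁻¹) / 4) := by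
        refine Finset.prod_le_prod (fun j _ => ?_) (fun j _ => ?_)
        · unfold ker; positivity
        · unfold ker
          rw [hnT]
          have h1 : ∀ u : ℂ, ‖u‖ = 1 → ‖(T : ℂ) - D.r * u‖ ≤ T + 1 := by
            intro u hu
            calc ‖(T : ℂ) - D.r * u‖ ≤ ‖(T : ℂ)‖ + ‖(D.r : ℂ) * u‖ := norm_sub_le _ _
              _ = T + D.r := by
                  rw [hnT, norm_mul, hu, Complex.norm_real, Real.norm_of_nonneg D.r0.le, mul_one]
              _ ≤ T + 1 := by linarith [D.r1]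
          have h2 := h1 _ (D.hv j)
          have h3 := h1 ((starRingEnd ℂ) (D.v j)) (by rw [RCLike.norm_conj]; exact D.hv j)
          calc ‖(T : ℂ) - D.r * D.v j‖ * ‖(T : ℂ) - D.r * (starRingEnd ℂ) (D.v j)‖ / (4 * T)
              ≤ (T + 1) * (T + 1) / (4 * T) := by gcongr
            _ = (2 + T + T⁻¹) / 4 := by
                field_simp
                ring
    _ = ((2 + T + T⁻¹) / 4) ^ D.N := by
        rw [Finset.prod_const, Finset.card_univ, Fintype.card_fin]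

theorem coeff_A_le (D : Dat) (k : ℕ) {A : ℝ[X]} (hA : A.natDegree ≤ k * D.N)
    (h : ∀ w : ℂ, w ≠ 0 → aeval (J w) A = (D.Z w ^ k + D.Z w⁻¹ ^ k) / 2) :
    |A.coeff (k * D.N)| ≤ Real.exp ((k * D.N : ℕ) * D.L) := by
  have key : ∀ T : ℝ, 1 < T →
      ‖aeval ((((2 + T + T⁻¹) / 4 : ℝ) : ℂ)⁻¹) (reflect (k * D.N) A)‖ ≤
        Real.exp ((k * D.N : ℕ) * D.L) := by
    intro T hT
    have hTp : 0 < T := by linarith
    have hT0 : (T : ℂ) ≠ 0 := by exact_mod_cast hTp.ne'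
    have hnT : ‖(T : ℂ)‖ = T := by rw [Complex.norm_real, Real.norm_of_nonneg hTp.le]
    have hJ : J (T : ℂ) = (((2 + T + T⁻¹) / 4 : ℝ) : ℂ) := by
      unfold J; push_cast; ring
    have hx : 0 < (2 + T + T⁻¹) / 4 := by positivity
    have hJ0 : J (T : ℂ) ≠ 0 := by rw [hJ]; exact_mod_cast hx.ne'
    have h2 := h T hT0
    rw [← hJ]
    have := invertibleOfNonzero hJ0
    have h1 := eval₂_reflect_mul_pow (algebraMap ℝ ℂ) (J (T : ℂ)) (k * D.N) A hA
    rw [invOf_eq_inv, ← aeval_def, ← aeval_def, h2] at h1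
    have hlt := D.norm_Z_inv_lt (w := (T : ℂ)) (by rw [hnT]; exact hT)
    have h3 : ‖(D.Z (T : ℂ) ^ k + D.Z (T : ℂ)⁻¹ ^ k) / 2‖ ≤ ‖D.Z (T : ℂ)‖ ^ k := by
      rw [norm_div, Complex.norm_ofNat]
      have : ‖D.Z (T : ℂ) ^ k + D.Z (T : ℂ)⁻¹ ^ k‖ ≤ ‖D.Z (T : ℂ)‖ ^ k + ‖D.Z (T : ℂ)‖ ^ k := by
        refine (norm_add_le _ _).trans ?_
        rw [norm_pow, norm_pow]
        gcongr
      linarith
    rw [D.norm_Z hT0] at h3
    have h4 : D.Om (T : ℂ) ^ k ≤ Real.exp ((k * D.N : ℕ) * D.L) * ((2 + T + T⁻¹) / 4) ^ (k * D.N) := by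
      have h5 := CoefA_Om_le D hT
      have h6 : 0 ≤ D.Om (T : ℂ) := by rw [← D.norm_Z hT0]; exact norm_nonneg _
      calc D.Om (T : ℂ) ^ k ≤ (Real.exp (D.N * D.L) * ((2 + T + T⁻¹) / 4) ^ D.N) ^ k := by gcongr
        _ = Real.exp ((k * D.N : ℕ) * D.L) * ((2 + T + T⁻¹) / 4) ^ (k * D.N) := by
            rw [mul_pow, ← Real.exp_nat_mul, ← pow_mul, mul_comm D.N k]
            congr 2
            push_cast
            ring
    have h7 : ‖aeval (J (T : ℂ))⁻¹ (reflect (k * D.N) A)‖ * ((2 + T + T⁻¹) / 4) ^ (k * D.N) ≤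
        Real.exp ((k * D.N : ℕ) * D.L) * ((2 + T + T⁻¹) / 4) ^ (k * D.N) := by
      have h8 : ‖J (T : ℂ)‖ = (2 + T + T⁻¹) / 4 := by
        rw [hJ, Complex.norm_real, Real.norm_of_nonneg hx.le]
      calc ‖aeval (J (T : ℂ))⁻¹ (reflect (k * D.N) A)‖ * ((2 + T + T⁻¹) / 4) ^ (k * D.N)
          = ‖aeval (J (T : ℂ))⁻¹ (reflect (k * D.N) A) * J (T : ℂ) ^ (k * D.N)‖ := by
            rw [norm_mul, norm_pow, h8]
        _ ≤ _ := by rw [h1]; exact h3.trans h4
    exact le_of_mul_le_mul_right h7 (by positivity)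
  have hlim : Filter.Tendsto (fun T : ℝ => ((((2 + T + T⁻¹) / 4 : ℝ) : ℂ)⁻¹)) Filter.atTop
      (nhds 0) := by
    have h1 : Filter.Tendsto (fun T : ℝ => (2 + T + T⁻¹) / 4) Filter.atTop Filter.atTop := by
      refine Filter.tendsto_atTop_mono' _ ?_ (Filter.tendsto_id.atTop_div_const (by norm_num : (0:ℝ) < 4))
      filter_upwards [Filter.eventually_gt_atTop (0 : ℝ)] with T hT
      have : 0 < T⁻¹ := by positivity
      simp only [id]
      linarith
    have h2 := (Complex.continuous_ofReal.tendsto 0).comp (tendsto_inv_atTop_zero.comp h1)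
    simp only [Complex.ofReal_zero] at h2
    refine h2.congr fun T => ?_
    simp only [Function.comp_apply, Complex.ofReal_inv]
  have hcont := ((reflect (k * D.N) A).continuous_aeval (A := ℂ)).tendsto 0
  have h3 := (hcont.comp hlim).norm
  have h4 : ‖aeval (0 : ℂ) (reflect (k * D.N) A)‖ = |A.coeff (k * D.N)| := by
    rw [aeval_def, eval₂_at_zero, coeff_reflect, revAt_zero]
    simp
  rw [h4] at h3
  refine le_of_tendsto h3 ?_
  filter_upwards [Filter.eventually_gt_atTop (1 : ℝ)] with T hT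
  exact key T hT

end Pool.Agent.H27Dual
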