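import Pool.Agent.H27Dual.LinForms

/-! # Small integer polynomials with respect to a weight (Fekete points)

Proof. Let `x : Fin (n+1) → [0,1]` maximise `|det vandermonde x| / ∏ ω (x i)` (continuous on a compact set). The maximum is positive (take distinct points), so the
`x i` are distinct. Replacing `x i` by `y ∈ [0,1]` does not increase the value; with the Lagrange basis `ℓ_i = Lagrange.basis univ x i` this says
`|ℓ_i(y)| ω (x i) ≤ ω y` (`Matrix.det_vandermonde`: the quotient of the Vandermonde determinants of `Function.update x i y` and of `x` is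
`± ∏_{j ≠ i} (y - x j) / (x i - x j) = ± ℓ_i(y)`; alternatively: `y ↦ det (vandermonde (update x i y))` is a polynomial of degree `≤ n` which vanishes at the `x j`, `j ≠ i`, so it is
`det (vandermonde x) * ℓ_i(y)`). Apply `linForms` to the matrix `A i j = x i ^ j / ω (x i)`, `|det A| = |det vandermonde x| / ∏ ω (x i) < c ^ (n+1)`: there is an
integer vector `v ≠ 0` with `|F(x i)| < c ω (x i)`, `F = ∑ v j X^j`. By Lagrange interpolation (`Lagrange.eq_interpolate`)
`|F(y)| ≤ ∑ |F(x i)| |ℓ_i(y)| ≤ (n+1) c ω y`. -/

set_option autoImplicit false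

namespace Pool.Agent.H27Dual

open Polynomial

/-- Lagrange interpolation at `n+1` nodes, evaluated. -/
theorem Fekete_interp {n : ℕ} {x : Fin (n + 1) → ℝ} (hx : Function.Injective x) (P : ℝ[X])
    (hP : P.natDegree ≤ n) (y : ℝ) :
    P.eval y = ∑ i, P.eval (x i) * (Lagrange.basis Finset.univ x i).eval y := by
  have hdeg : P.degree < (Finset.univ : Finset (Fin (n + 1))).card := by
    rw [Finset.card_univ, Fintype.card_fin]
    calc P.degree ≤ (P.natDegree : WithBot ℕ) := Polynomial.degree_le_natDegree
      _ < ((n + 1 : ℕ) : WithBot ℕ) := by exact_mod_cast Nat.lt_succ_of_le hP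
  have h1 := Lagrange.eq_interpolate (f := P) (s := Finset.univ) (v := x) hx.injOn hdeg
  conv_lhs => rw [h1]
  rw [Lagrange.interpolate_apply, Polynomial.eval_finset_sum]
  apply Finset.sum_congr rfl
  intro i _
  rw [Polynomial.eval_mul, Polynomial.eval_C]

/-- The Vandermonde determinant after replacing one node. -/
theorem Fekete_det_update {n : ℕ} {x : Fin (n + 1) → ℝ} (hx : Function.Injective x) (i : Fin (n + 1))
    (y : ℝ) : (Matrix.vandermonde (Function.update x i y)).det =
      (Lagrange.basis Finset.univ x i).eval y * (Matrix.vandermonde x).det := by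
  have h1 : Matrix.vandermonde (Function.update x i y) =
      (Matrix.vandermonde x).updateRow i
        (∑ k, (Lagrange.basis Finset.univ x k).eval y • (Matrix.vandermonde x) k) := by
    ext a j
    by_cases ha : a = i
    · subst ha
      rw [Matrix.updateRow_self, Finset.sum_apply, Matrix.vandermonde_apply, Function.update_self]
      have h2 := Fekete_interp hx (X ^ (j : ℕ)) (by
        rw [Polynomial.natDegree_X_pow]; exact Nat.lt_succ_iff.mp j.2) y
      simp only [Polynomial.eval_pow, Polynomial.eval_X] at h2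
      rw [h2]
      apply Finset.sum_congr rfl
      intro k _
      rw [Pi.smul_apply, Matrix.vandermonde_apply, smul_eq_mul, mul_comm]
    · rw [Matrix.updateRow_ne ha, Matrix.vandermonde_apply, Matrix.vandermonde_apply,
        Function.update_of_ne ha]
  rw [h1, Matrix.det_updateRow_sum, smul_eq_mul]

theorem fekete (n : ℕ) (ω : ℝ → ℝ) (hc : ContinuousOn ω (Set.Icc 0 1))
    (hp : ∀ x ∈ Set.Icc (0 : ℝ) 1, 0 < ω x) {c : ℝ} (hc0 : 0 < c)
    (h : ∀ x : Fin (n + 1) → ℝ, (∀ i, x i ∈ Set.Icc (0 : ℝ) 1) →
      |(Matrix.vandermonde x).det| < c ^ (n + 1) * ∏ i, ω (x i)) :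
    ∃ F : ℤ[X], F ≠ 0 ∧ F.natDegree ≤ n ∧
      ∀ x ∈ Set.Icc (0 : ℝ) 1, |aeval x F| ≤ (n + 1) * c * ω x := by
  classical
  -- the Fekete points
  set K : Set (Fin (n + 1) → ℝ) := Set.pi Set.univ (fun _ => Set.Icc (0 : ℝ) 1) with hK
  have hKc : IsCompact K := isCompact_univ_pi fun _ => isCompact_Icc
  have hKm : ∀ x : Fin (n + 1) → ℝ, x ∈ K ↔ ∀ i, x i ∈ Set.Icc (0 : ℝ) 1 := fun x => by
    rw [hK, Set.mem_univ_pi]
  have hKn : K.Nonempty := ⟨fun _ => 0, (hKm _).2 fun _ => ⟨le_rfl, zero_le_one⟩⟩
  set f : (Fin (n + 1) → ℝ) → ℝ := fun x => |(Matrix.vandermonde x).det| / ∏ i, ω (x i) with hf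
  have hprod : ∀ x ∈ K, 0 < ∏ i, ω (x i) := fun x hx =>
    Finset.prod_pos fun i _ => hp _ ((hKm x).1 hx i)
  have hfc : ContinuousOn f K := by
    apply ContinuousOn.div
    · apply Continuous.continuousOn
      apply Continuous.abs
      apply Continuous.matrix_det
      apply continuous_matrix
      intro i j
      simp only [Matrix.vandermonde_apply]
      exact (continuous_apply i).pow _
    · apply continuousOn_finset_prod
      intro i _
      exact hc.comp (continuous_apply i).continuousOn fun x hx => (hKm x).1 hx i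
    · intro x hx
      exact (hprod x hx).ne'
  obtain ⟨x, hxK, hmax⟩ := hKc.exists_isMaxOn hKn hfc
  have hx01 := (hKm x).1 hxK
  -- the maximum is positive
  have hdet : (Matrix.vandermonde x).det ≠ 0 := by
    set z : Fin (n + 1) → ℝ := fun i => (i : ℕ) / (n + 1 : ℝ) with hz
    have hn : (0 : ℝ) < n + 1 := by positivity
    have hzK : z ∈ K := by
      rw [hKm]
      intro i
      refine ⟨by positivity, ?_⟩
      rw [div_le_one hn]
      have : ((i : ℕ) : ℝ) < (n + 1 : ℕ) := by exact_mod_cast i.2
      push_cast at this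
      exact this.le
    have hzinj : Function.Injective z := by
      intro i j hij
      have h1 : ((i : ℕ) : ℝ) / (n + 1 : ℝ) = ((j : ℕ) : ℝ) / (n + 1 : ℝ) := hij
      rw [div_left_inj' hn.ne'] at h1
      exact Fin.ext (by exact_mod_cast h1)
    have hzpos : 0 < f z := by
      have := (Matrix.det_vandermonde_ne_zero_iff (v := z)).2 hzinj
      exact div_pos (abs_pos.2 this) (hprod z hzK)
    have h1 : f z ≤ f x := hmax hzK
    intro h0
    have h2 : f x = 0 := by
      simp only [hf]
      rw [h0, abs_zero, zero_div]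
    linarith
  have hinj : Function.Injective x := Matrix.det_vandermonde_ne_zero_iff.1 hdet
  have hℓ : ∀ i, ∀ y ∈ Set.Icc (0 : ℝ) 1,
      |(Lagrange.basis Finset.univ x i).eval y| * ω (x i) ≤ ω y := by
    intro i y hy
    have huK : Function.update x i y ∈ K := by
      rw [hKm]
      intro j
      by_cases hj : j = i
      · subst hj
        rw [Function.update_self]
        exact hy
      · rw [Function.update_of_ne hj]
        exact hx01 j
    have h1 : f (Function.update x i y) ≤ f x := hmax huK
    simp only [hf] at h1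
    rw [div_le_div_iff₀ (hprod _ huK) (hprod _ hxK), Fekete_det_update hinj, abs_mul] at h1
    have hR0 : 0 < ∏ j ∈ Finset.univ.erase i, ω (x j) :=
      Finset.prod_pos fun j _ => hp _ (hx01 j)
    have h2 : ∏ j, ω (x j) = ω (x i) * ∏ j ∈ Finset.univ.erase i, ω (x j) :=
      (Finset.mul_prod_erase Finset.univ (fun j => ω (x j)) (Finset.mem_univ i)).symm
    have h3 : ∏ j, ω (Function.update x i y j) = ω y * ∏ j ∈ Finset.univ.erase i, ω (x j) := by
      rw [← Finset.mul_prod_erase Finset.univ _ (Finset.mem_univ i), Function.update_self]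
      congr 1
      apply Finset.prod_congr rfl
      intro j hj
      rw [Function.update_of_ne (Finset.ne_of_mem_erase hj)]
    rw [h2, h3] at h1
    have hD : 0 < |(Matrix.vandermonde x).det| := abs_pos.2 hdet
    have h4 : (|(Lagrange.basis Finset.univ x i).eval y| * ω (x i)) *
        (|(Matrix.vandermonde x).det| * ∏ j ∈ Finset.univ.erase i, ω (x j)) ≤
        ω y * (|(Matrix.vandermonde x).det| * ∏ j ∈ Finset.univ.erase i, ω (x j)) := by
      calc _ = |(Lagrange.basis Finset.univ x i).eval y| * |(Matrix.vandermonde x).det| *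
            (ω (x i) * ∏ j ∈ Finset.univ.erase i, ω (x j)) := by ring
        _ ≤ |(Matrix.vandermonde x).det| * (ω y * ∏ j ∈ Finset.univ.erase i, ω (x j)) := h1
        _ = _ := by ring
    exact le_of_mul_le_mul_right h4 (mul_pos hD hR0)
  -- the linear forms
  set A : Matrix (Fin (n + 1)) (Fin (n + 1)) ℝ :=
    Matrix.diagonal (fun i => (ω (x i))⁻¹) * Matrix.vandermonde x with hA
  have hωx : ∀ i, 0 < ω (x i) := fun i => hp _ (hx01 i)
  have hAdet : A.det = (∏ i, (ω (x i))⁻¹) * (Matrix.vandermonde x).det := by
    rw [hA, Matrix.det_mul, Matrix.det_diagonal]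
  have hprodinv : 0 < ∏ i, (ω (x i))⁻¹ := Finset.prod_pos fun i _ => inv_pos.2 (hωx i)
  obtain ⟨v, hv0, hv⟩ := linForms A (by
      rw [hAdet]
      exact mul_ne_zero hprodinv.ne' hdet) (fun _ => c) (fun _ => hc0) (by
      rw [hAdet, abs_mul, abs_of_pos hprodinv, Finset.prod_const, Finset.card_univ,
        Fintype.card_fin]
      have h1 := h x hx01
      calc (∏ i, (ω (x i))⁻¹) * |(Matrix.vandermonde x).det|
          < (∏ i, (ω (x i))⁻¹) * (c ^ (n + 1) * ∏ i, ω (x i)) :=
            mul_lt_mul_of_pos_left h1 hprodinv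
        _ = c ^ (n + 1) := by
            rw [Finset.prod_inv_distrib]
            have h2 := (hprod x hxK).ne'
            field_simp)
  refine ⟨∑ j : Fin (n + 1), C (v j) * X ^ (j : ℕ), ?_, ?_, ?_⟩
  · intro h0
    apply hv0
    funext j
    have h1 := congrArg (fun P : ℤ[X] => P.coeff (j : ℕ)) h0
    simp only [Polynomial.finset_sum_coeff, Polynomial.coeff_C_mul, Polynomial.coeff_X_pow,
      Polynomial.coeff_zero] at h1
    rw [Finset.sum_eq_single j] at h1
    · simpa using h1
    · intro k _ hk
      rw [if_neg, mul_zero]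
      intro h2
      exact hk (Fin.ext h2.symm)
    · intro h2
      exact absurd (Finset.mem_univ j) h2
  · apply Polynomial.natDegree_sum_le_of_forall_le
    intro j _
    exact (Polynomial.natDegree_C_mul_X_pow_le _ _).trans (Nat.lt_succ_iff.mp j.2)
  · intro y hy
    set P : ℝ[X] := ∑ j : Fin (n + 1), C ((v j : ℤ) : ℝ) * X ^ (j : ℕ) with hP
    have hPdeg : P.natDegree ≤ n := by
      apply Polynomial.natDegree_sum_le_of_forall_le
      intro j _
      exact (Polynomial.natDegree_C_mul_X_pow_le _ _).trans (Nat.lt_succ_iff.mp j.2)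
    have hPe : ∀ y : ℝ, aeval y (∑ j : Fin (n + 1), C (v j) * X ^ (j : ℕ)) = P.eval y := by
      intro y
      rw [hP, map_sum, Polynomial.eval_finset_sum]
      apply Finset.sum_congr rfl
      intro j _
      simp
    have hval : ∀ i, |P.eval (x i)| ≤ c * ω (x i) := by
      intro i
      have h1 := (hv i).le
      have h2 : A.mulVec (fun j => ((v j : ℤ) : ℝ)) i = (ω (x i))⁻¹ * P.eval (x i) := by
        rw [hA, ← Matrix.mulVec_mulVec, Matrix.mulVec_diagonal]
        congr 1
        rw [hP, Polynomial.eval_finset_sum]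
        unfold Matrix.mulVec dotProduct
        apply Finset.sum_congr rfl
        intro j _
        simp only [Matrix.vandermonde_apply, Polynomial.eval_mul, Polynomial.eval_C,
          Polynomial.eval_pow, Polynomial.eval_X]
        ring
      rw [h2, abs_mul, abs_of_pos (inv_pos.2 (hωx i)), inv_mul_le_iff₀ (hωx i)] at h1
      linarith
    rw [hPe y, Fekete_interp hinj P hPdeg y]
    calc |∑ i, P.eval (x i) * (Lagrange.basis Finset.univ x i).eval y|
        ≤ ∑ i, |P.eval (x i) * (Lagrange.basis Finset.univ x i).eval y| :=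
          Finset.abs_sum_le_sum_abs _ _
      _ ≤ ∑ _i : Fin (n + 1), c * ω y := by
          apply Finset.sum_le_sum
          intro i _
          rw [abs_mul]
          calc |P.eval (x i)| * |(Lagrange.basis Finset.univ x i).eval y|
              ≤ (c * ω (x i)) * |(Lagrange.basis Finset.univ x i).eval y| :=
                mul_le_mul_of_nonneg_right (hval i) (abs_nonneg _)
            _ = c * (|(Lagrange.basis Finset.univ x i).eval y| * ω (x i)) := by ring
            _ ≤ c * ω y := mul_le_mul_of_nonneg_left (hℓ i y hy) hc0.le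
      _ = (n + 1) * c * ω y := by
          rw [Finset.sum_const, Finset.card_univ, Fintype.card_fin, nsmul_eq_mul]
          push_cast
          ring

end Pool.Agent.H27Dual
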