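import Pool.Agent.H27Dual.Ker

/-! # The weight `Ω` and the function `Z`

Proofs. Products over `j` of the facts of `Ker.lean`. `norm_Z`: `w - 2 r Re v + r² / w = (w - r v)(w - r v̄) / w` (`v v̄ = 1`).
`Z_inv`: for `‖w‖ = 1` one has `w⁻¹ = w̄`. `norm_Z_inv_lt`: for `1 < ‖w‖`, `‖v‖ = 1`:
`‖w - r v̄‖² - ‖1 - r v w‖² = (‖w‖² - 1)(1 - r²) > 0` and the same with `v̄` instead of `v`; the factor of `Z w⁻¹` is
`(1 - r v w)(1 - r v̄ w) / (4 w)`. `Z_conj`: all coefficients are real. -/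

set_option autoImplicit false

namespace Pool.Agent.H27Dual

open Polynomial

private theorem OmB_sq {v : ℂ} (hv : ‖v‖ = 1) : v.re * v.re + v.im * v.im = 1 := by
  have h := Complex.sq_norm v
  rw [hv, Complex.normSq_apply] at h
  linarith

/-- one factor of `Z` -/
private theorem OmB_fac {r : ℝ} {v w : ℂ} (hv : ‖v‖ = 1) (hw : w ≠ 0) :
    ‖(w - 2 * (r : ℂ) * ((v.re : ℝ) : ℂ) + (r : ℂ) ^ 2 * w⁻¹) / 4‖ = ker r v w := by
  have hvv : v * (starRingEnd ℂ) v = 1 := by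
    rw [Complex.mul_conj, Complex.normSq_apply, OmB_sq hv, Complex.ofReal_one]
  have hre : v + (starRingEnd ℂ) v = 2 * ((v.re : ℝ) : ℂ) := by
    rw [Complex.add_conj]
    push_cast
    ring
  have h1 : (w - 2 * (r : ℂ) * ((v.re : ℝ) : ℂ) + (r : ℂ) ^ 2 * w⁻¹) / 4 =
      (w - r * v) * (w - r * (starRingEnd ℂ) v) / (4 * w) := by
    rw [div_eq_div_iff (by norm_num) (mul_ne_zero (by norm_num) hw)]
    have h2 : w⁻¹ * w = 1 := inv_mul_cancel₀ hw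
    linear_combination 4 * (r : ℂ) ^ 2 * h2 - 4 * (r : ℂ) ^ 2 * hvv + 4 * (r : ℂ) * w * hre
  rw [h1, norm_div, norm_mul, norm_mul]
  unfold ker
  rw [Complex.norm_ofNat]

private theorem OmB_nlt {r : ℝ} (h0 : 0 < r) (h1 : r < 1) {v w : ℂ} (hv : ‖v‖ = 1)
    (hw : 1 < ‖w‖) : ‖1 - r * v * w‖ < ‖w - r * (starRingEnd ℂ) v‖ := by
  have hs : ‖1 - (r : ℂ) * v * w‖ ^ 2 < ‖w - (r : ℂ) * (starRingEnd ℂ) v‖ ^ 2 := by
    have h2 := OmB_sq hv
    have h3 : ‖w‖ ^ 2 = w.re * w.re + w.im * w.im := by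
      rw [Complex.sq_norm, Complex.normSq_apply]
    have h4 : ‖w - (r : ℂ) * (starRingEnd ℂ) v‖ ^ 2 - ‖1 - (r : ℂ) * v * w‖ ^ 2 =
        (‖w‖ ^ 2 - 1) * (1 - r ^ 2) := by
      rw [Complex.sq_norm, Complex.sq_norm, Complex.normSq_apply, Complex.normSq_apply, h3]
      simp only [Complex.sub_re, Complex.sub_im, Complex.mul_re, Complex.mul_im,
        Complex.ofReal_re, Complex.ofReal_im, Complex.conj_re, Complex.conj_im, Complex.one_re,
        Complex.one_im]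
      linear_combination (r ^ 2 - r ^ 2 * (w.re * w.re + w.im * w.im)) * h2
    have h5 : 0 < (‖w‖ ^ 2 - 1) * (1 - r ^ 2) := by
      apply mul_pos
      · nlinarith
      · nlinarith
    linarith
  exact lt_of_pow_lt_pow_left₀ 2 (norm_nonneg _) hs

private theorem OmB_ker_inv {r : ℝ} {v w : ℂ} (hw : w ≠ 0) :
    ker r v w⁻¹ = ‖1 - r * v * w‖ * ‖1 - r * (starRingEnd ℂ) v * w‖ / (4 * ‖w‖) := by
  unfold ker
  have hn : ‖w‖ ≠ 0 := norm_ne_zero_iff.2 hw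
  have e1 : w⁻¹ - r * v = (1 - r * v * w) * w⁻¹ := by
    have h2 : w * w⁻¹ = 1 := mul_inv_cancel₀ hw
    linear_combination (r : ℂ) * v * h2
  have e2 : w⁻¹ - r * (starRingEnd ℂ) v = (1 - r * (starRingEnd ℂ) v * w) * w⁻¹ := by
    have h2 : w * w⁻¹ = 1 := mul_inv_cancel₀ hw
    linear_combination (r : ℂ) * (starRingEnd ℂ) v * h2
  rw [e1, e2, norm_mul, norm_mul, norm_inv]
  field_simp

private theorem OmB_ker_lt {r : ℝ} (h0 : 0 < r) (h1 : r < 1) {v w : ℂ} (hv : ‖v‖ = 1)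
    (hw : 1 < ‖w‖) : ker r v w⁻¹ < ker r v w := by
  have hw0 : w ≠ 0 := by
    rintro rfl
    rw [norm_zero] at hw
    linarith
  rw [OmB_ker_inv hw0]
  unfold ker
  have hv' : ‖(starRingEnd ℂ) v‖ = 1 := by
    rw [Complex.norm_conj]
    exact hv
  have a1 := OmB_nlt h0 h1 hv hw
  have a2 := OmB_nlt h0 h1 hv' hw
  rw [Complex.conj_conj] at a2
  have a3 : ‖1 - (r : ℂ) * v * w‖ * ‖1 - (r : ℂ) * (starRingEnd ℂ) v * w‖ <
      ‖w - (r : ℂ) * v‖ * ‖w - (r : ℂ) * (starRingEnd ℂ) v‖ := by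
    rw [mul_comm ‖w - (r : ℂ) * v‖]
    exact mul_lt_mul'' a1 a2 (norm_nonneg _) (norm_nonneg _)
  exact div_lt_div_of_pos_right a3 (by linarith)

namespace Dat

variable (D : Dat)

theorem Om0_pos {w : ℂ} (hw : 1 ≤ ‖w‖) : 0 < D.Om0 w :=
  Finset.prod_pos fun j _ => ker_pos D.r0.le D.r1 (D.hv j) hw

theorem Om_pos {w : ℂ} (hw : 1 ≤ ‖w‖) : 0 < D.Om w :=
  mul_pos (Real.exp_pos _) (D.Om0_pos hw)

theorem Om0_le_one {w : ℂ} (hw : ‖w‖ = 1) : D.Om0 w ≤ 1 :=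
  Finset.prod_le_one (fun j _ => (ker_pos D.r0.le D.r1 (D.hv j) hw.ge).le)
    fun j _ => ker_le_one D.r0.le D.r1 (D.hv j) hw

theorem exists_lower : ∃ c : ℝ, 0 < c ∧ c ≤ 1 ∧ ∀ w : ℂ, ‖w‖ = 1 → c ≤ D.Om w := by
  have hr : 0 < (1 - D.r) ^ 2 / 4 := by
    have := D.r1
    have h : 0 < 1 - D.r := by linarith
    positivity
  refine ⟨min 1 (Real.exp (D.N * D.L) * ∏ _j : Fin D.N, (1 - D.r) ^ 2 / 4), ?_,
    min_le_left _ _, ?_⟩
  · exact lt_min one_pos (mul_pos (Real.exp_pos _) (Finset.prod_pos fun _ _ => hr))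
  · intro w hw
    refine (min_le_right _ _).trans ?_
    unfold Om Om0
    refine mul_le_mul_of_nonneg_left ?_ (Real.exp_pos _).le
    exact Finset.prod_le_prod (fun _ _ => hr.le) fun j _ => le_ker_unit D.r0.le D.r1 (D.hv j) hw

theorem exists_upper : ∃ C : ℝ, 1 ≤ C ∧ ∀ w : ℂ, ‖w‖ = 1 → D.Om w ≤ C := by
  refine ⟨max 1 (Real.exp (D.N * D.L)), le_max_left _ _, ?_⟩
  intro w hw
  refine le_trans ?_ (le_max_right _ _)
  unfold Om
  exact mul_le_of_le_one_right (Real.exp_pos _).le (D.Om0_le_one hw)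

theorem Om0_congr {w w' : ℂ} (hw : ‖w‖ = 1) (hw' : ‖w'‖ = 1) (h : w.re = w'.re) :
    D.Om0 w = D.Om0 w' :=
  Finset.prod_congr rfl fun j _ => ker_congr D.r (D.v j) hw hw' h

theorem continuousOn_Om0 : ContinuousOn D.Om0 {w | w ≠ 0} :=
  continuousOn_finset_prod _ fun j _ => continuousOn_ker D.r (D.v j)

theorem norm_Z {w : ℂ} (hw : w ≠ 0) : ‖D.Z w‖ = D.Om w := by
  unfold Z Om Om0
  rw [norm_mul, norm_prod, Complex.norm_real, Real.norm_eq_abs, abs_of_pos (Real.exp_pos _)]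
  congr 1
  exact Finset.prod_congr rfl fun j _ => OmB_fac (D.hv j) hw

theorem Z_conj (w : ℂ) : D.Z ((starRingEnd ℂ) w) = (starRingEnd ℂ) (D.Z w) := by
  unfold Z
  rw [map_mul, map_prod, Complex.conj_ofReal]
  congr 1
  refine Finset.prod_congr rfl fun j _ => ?_
  simp only [map_div₀, map_add, map_sub, map_mul, map_pow, map_inv₀, Complex.conj_ofReal,
    map_ofNat]

theorem Z_inv {w : ℂ} (hw : ‖w‖ = 1) : D.Z w⁻¹ = (starRingEnd ℂ) (D.Z w) := by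
  rw [← D.Z_conj, Complex.inv_eq_conj hw]

theorem norm_Z_inv_lt {w : ℂ} (hw : 1 < ‖w‖) : ‖D.Z w⁻¹‖ < ‖D.Z w‖ := by
  have hw0 : w ≠ 0 := by
    rintro rfl
    rw [norm_zero] at hw
    linarith
  rw [D.norm_Z hw0, D.norm_Z (inv_ne_zero hw0)]
  unfold Om
  refine mul_lt_mul_of_pos_left ?_ (Real.exp_pos _)
  by_cases hz : D.Om0 w⁻¹ = 0
  · rw [hz]
    exact D.Om0_pos hw.le
  · unfold Om0 at hz ⊢
    haveI : Nonempty (Fin D.N) := ⟨⟨0, D.hN⟩⟩
    refine Finset.prod_lt_prod_of_nonempty ?_ ?_ Finset.univ_nonempty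
    · intro j hj
      have h1 : ker D.r (D.v j) w⁻¹ ≠ 0 := fun h => hz (Finset.prod_eq_zero hj h)
      have h2 : 0 ≤ ker D.r (D.v j) w⁻¹ := by
        unfold ker
        positivity
      exact lt_of_le_of_ne h2 h1.symm
    · intro j _
      exact OmB_ker_lt D.r0 D.r1 (D.hv j) hw

end Dat

end Pool.Agent.H27Dual
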