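import Pool.Agent.H27Dual.Energy
import Pool.Agent.H27Dual.OmB

/-! # The upper bound for weighted Vandermonde determinants

Proof. Choose `s < 1`, `s > r²`, close to one such that `λ := log (1 - r²) - log (1 - r²/s) - (1/2) log s < η / 2` (continuity at `s = 1`). Put `n = k N + 1` (number of
points), `w i = wOf (x i)`, `x i = xOf (w i)`. If the determinant is zero, the right side is positive. Otherwise the `x i` are distinct,
`2 log |det| = ∑_{i ≠ i'} log |x i - x i'|` (`Matrix.det_vandermonde`), `|x i - x i'| = ‖J (w i) - J (w i')‖ ≤ ker s (w i') (w i) / s` (`le_ker`) and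
`ker s w w ≥ (1-s)²/4` (`le_ker_unit`), so with `energy_fin`
`2 log |det| - 2 k ∑ log Om0 (w i) ≤ (kN)² (-En + 2(..)) + (kN+1) log (4/(1-s)²) - (kN+1) kN log s
 ≤ (kN+1) [ kN (-En + 2 λ) + log (4/(1-s)²) ]`  (`En ≤ 0` by `ker_le_one`, and `log (1-r²) - log (1-r²/s) ≥ 0`).
So `log |det| - k ∑ log Om0 ≤ (kN+1)(kN (-En/2 + λ) + log (2/(1-s))) < (kN+1) kN (-En/2 + η)` as soon as `kN (η - λ) > log (2/(1-s))`. -/

set_option autoImplicit false

namespace Pool.Agent.H27Dual

private theorem VandBound_choice {r η : ℝ} (h0 : 0 < r) (h1 : r < 1) (hη : 0 < η) :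
    ∃ s : ℝ, r ^ 2 < s ∧ s < 1 ∧
      2 * (Real.log (1 - r ^ 2) - Real.log (1 - r ^ 2 / s)) - Real.log s < η := by
  have hr2 : r ^ 2 < 1 := by nlinarith
  have hc : ContinuousAt
      (fun s : ℝ => 2 * (Real.log (1 - r ^ 2) - Real.log (1 - r ^ 2 / s)) - Real.log s) 1 := by
    apply ContinuousAt.sub
    · apply ContinuousAt.mul continuousAt_const
      apply ContinuousAt.sub continuousAt_const
      apply ContinuousAt.log
      · apply ContinuousAt.sub continuousAt_const
        exact ContinuousAt.div continuousAt_const continuousAt_id one_ne_zero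
      · simp only [div_one]
        linarith
    · exact Real.continuousAt_log one_ne_zero
  have hv : (2 * (Real.log (1 - r ^ 2) - Real.log (1 - r ^ 2 / 1)) - Real.log 1) < η := by
    simp only [div_one, Real.log_one]
    linarith
  have e1 := hc.eventually (gt_mem_nhds hv)
  have e2 : ∀ᶠ s in nhds (1 : ℝ), r ^ 2 < s := lt_mem_nhds hr2
  have e3 : ∀ᶠ s in nhdsWithin (1 : ℝ) (Set.Iio 1), s ∈ Set.Iio (1 : ℝ) :=
    eventually_mem_nhdsWithin
  obtain ⟨s, h⟩ := ((e1.filter_mono nhdsWithin_le_nhds).and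
    ((e2.filter_mono nhdsWithin_le_nhds).and e3)).exists
  exact ⟨s, h.2.1, h.2.2, h.1⟩

private theorem VandBound_En (D : Dat) : D.En ≤ 0 := by
  unfold Dat.En
  apply div_nonpos_of_nonpos_of_nonneg _ (by positivity)
  apply Finset.sum_nonpos
  intro j _
  apply Finset.sum_nonpos
  intro l _
  have h0 : (0 : ℝ) ≤ D.r ^ 2 := by positivity
  have h1 : D.r ^ 2 < 1 := by nlinarith [D.r0, D.r1]
  exact Real.log_nonpos (ker_pos h0 h1 (D.hv j) (D.hv l).ge).le
    (ker_le_one h0 h1 (D.hv j) (D.hv l))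

private theorem VandBound_log {s : ℝ} (hs0 : 0 < s) (hs1 : s < 1) (n : ℕ)
    (x : Fin n → ℝ) (hx : ∀ i, x i ∈ Set.Icc (0 : ℝ) 1) (hd : (Matrix.vandermonde x).det ≠ 0) :
    2 * Real.log |(Matrix.vandermonde x).det| ≤
      (∑ i, ∑ i', Real.log (ker s (wOf (x i)) (wOf (x i')))) +
        n * Real.log (4 / (1 - s) ^ 2) - n * ((n : ℝ) - 1) * Real.log s := by
  have hinj : Function.Injective x := Matrix.det_vandermonde_ne_zero_iff.1 hd
  have hne : ∀ i j : Fin n, j ≠ i → x j - x i ≠ 0 := fun i j hij h =>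
    hij (hinj (sub_eq_zero.1 h))
  have h1 : Real.log |(Matrix.vandermonde x).det| =
      ∑ i, ∑ j ∈ Finset.Ioi i, Real.log |x j - x i| := by
    rw [Matrix.det_vandermonde, Finset.abs_prod, Real.log_prod]
    · apply Finset.sum_congr rfl
      intro i _
      rw [Finset.abs_prod, Real.log_prod]
      intro j hj
      exact abs_ne_zero.2 (hne i j (Finset.mem_Ioi.1 hj).ne')
    · intro i _
      rw [Finset.abs_prod, Finset.prod_ne_zero_iff]
      intro j hj
      exact abs_ne_zero.2 (hne i j (Finset.mem_Ioi.1 hj).ne')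
  have h2 : 2 * Real.log |(Matrix.vandermonde x).det| =
      ∑ i, ∑ j ∈ {i}ᶜ, Real.log |x j - x i| := by
    rw [h1, ← Finset.sum_sum_Ioi_add_eq_sum_sum_off_diag (fun j i => Real.log |x j - x i|),
      Finset.mul_sum]
    apply Finset.sum_congr rfl
    intro i _
    rw [Finset.mul_sum]
    apply Finset.sum_congr rfl
    intro j _
    rw [abs_sub_comm (x i) (x j)]
    ring
  have h3 : ∀ i j : Fin n, j ≠ i → Real.log |x j - x i| ≤
      Real.log (ker s (wOf (x i)) (wOf (x j))) - Real.log s := by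
    intro i j hij
    have hwi := norm_wOf (hx i)
    have hwj := norm_wOf (hx j)
    have hk := le_ker hs0.le hs1.le hwi hwj.ge
    have e1 : ‖J (wOf (x j)) - J (wOf (x i))‖ = |x j - x i| := by
      rw [J_eq_xOf hwj, J_eq_xOf hwi, xOf_wOf, xOf_wOf, ← Complex.ofReal_sub,
        Complex.norm_real, Real.norm_eq_abs]
    rw [e1] at hk
    have hp : 0 < |x j - x i| := abs_pos.2 (hne i j hij)
    have := Real.log_le_log (mul_pos hs0 hp) hk
    rw [Real.log_mul hs0.ne' hp.ne'] at this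
    linarith
  have h4 : ∀ i : Fin n, ∑ j ∈ {i}ᶜ, Real.log |x j - x i| ≤
      (∑ j, Real.log (ker s (wOf (x i)) (wOf (x j)))) + Real.log (4 / (1 - s) ^ 2)
        - ((n : ℝ) - 1) * Real.log s := by
    intro i
    have hn : 1 ≤ n := by
      have := i.pos
      omega
    have e1 : ∑ j ∈ {i}ᶜ, Real.log |x j - x i| ≤
        ∑ j ∈ {i}ᶜ, (Real.log (ker s (wOf (x i)) (wOf (x j))) - Real.log s) := by
      apply Finset.sum_le_sum
      intro j hj
      apply h3
      simpa using hj
    have e2 : ∑ j ∈ ({i}ᶜ : Finset (Fin n)),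
        (Real.log (ker s (wOf (x i)) (wOf (x j))) - Real.log s) =
        (∑ j, Real.log (ker s (wOf (x i)) (wOf (x j))))
          - Real.log (ker s (wOf (x i)) (wOf (x i))) - ((n : ℝ) - 1) * Real.log s := by
      rw [Finset.sum_sub_distrib, Finset.sum_const, Finset.card_compl, Finset.card_singleton,
        Fintype.card_fin, nsmul_eq_mul, Nat.cast_sub hn, Nat.cast_one,
        ← Finset.sum_add_sum_compl {i}
          (fun j => Real.log (ker s (wOf (x i)) (wOf (x j)))), Finset.sum_singleton]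
      ring
    have hwi := norm_wOf (hx i)
    have e3 := le_ker_unit hs0.le hs1 hwi hwi
    have hs2 : 0 < (1 - s) ^ 2 / 4 := by
      have : 0 < 1 - s := by linarith
      positivity
    have e4 := Real.log_le_log hs2 e3
    have e5 : Real.log (4 / (1 - s) ^ 2) = - Real.log ((1 - s) ^ 2 / 4) := by
      rw [← Real.log_inv, inv_div]
    linarith
  rw [h2]
  refine (Finset.sum_le_sum fun i _ => h4 i).trans_eq ?_
  rw [Finset.sum_sub_distrib, Finset.sum_add_distrib, Finset.sum_const, Finset.sum_const,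
    Finset.card_univ, Fintype.card_fin, nsmul_eq_mul, nsmul_eq_mul]
  ring

theorem vand_bound (D : Dat) {η : ℝ} (hη : 0 < η) : ∃ K : ℕ, ∀ k ≥ K,
    ∀ x : Fin (k * D.N + 1) → ℝ, (∀ i, x i ∈ Set.Icc (0 : ℝ) 1) →
      |(Matrix.vandermonde x).det| <
        Real.exp ((k * D.N : ℕ) * (-D.En / 2 + η)) ^ (k * D.N + 1) *
          ∏ i, D.Om0 (wOf (x i)) ^ k := by
  obtain ⟨s, hs0, hs1, hs⟩ := VandBound_choice D.r0 D.r1 hη
  have hs00 : 0 < s := lt_of_le_of_lt (by positivity) hs0
  obtain ⟨K, hK⟩ := exists_nat_gt (Real.log (4 / (1 - s) ^ 2) / η)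
  refine ⟨K, fun k hk x hx => ?_⟩
  have hOm : ∀ i, 0 < D.Om0 (wOf (x i)) := fun i => D.Om0_pos (norm_wOf (hx i)).ge
  have hR : 0 < Real.exp ((k * D.N : ℕ) * (-D.En / 2 + η)) ^ (k * D.N + 1) *
      ∏ i, D.Om0 (wOf (x i)) ^ k :=
    mul_pos (pow_pos (Real.exp_pos _) _) (Finset.prod_pos fun i _ => pow_pos (hOm i) _)
  by_cases hd : (Matrix.vandermonde x).det = 0
  · rw [hd, abs_zero]
    exact hR
  have hlog := VandBound_log hs00 hs1 (k * D.N + 1) x hx hd
  have hen := energy_fin D hs0 hs1 (k * D.N + 1) k (fun i => wOf (x i))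
    (fun i => norm_wOf (hx i))
  have hEn := VandBound_En D
  have hmono : 0 ≤ Real.log (1 - D.r ^ 2) - Real.log (1 - D.r ^ 2 / s) := by
    have e1 : 0 < 1 - D.r ^ 2 / s := by
      rw [sub_pos, div_lt_one hs00]
      exact hs0
    have e2 : 1 - D.r ^ 2 / s ≤ 1 - D.r ^ 2 := by
      have : D.r ^ 2 ≤ D.r ^ 2 / s := by
        rw [le_div_iff₀ hs00]
        nlinarith [sq_nonneg D.r]
      linarith
    linarith [Real.log_le_log e1 e2]
  have hm : Real.log (4 / (1 - s) ^ 2) < (k * D.N : ℕ) * η := by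
    rw [div_lt_iff₀ hη] at hK
    refine hK.trans_le (mul_le_mul_of_nonneg_right ?_ hη.le)
    have h1 : K ≤ k * D.N := hk.trans (Nat.le_mul_of_pos_right k D.hN)
    exact_mod_cast h1
  rw [← Real.log_lt_log_iff (abs_pos.2 hd) hR,
    Real.log_mul (pow_pos (Real.exp_pos _) _).ne'
      (Finset.prod_pos fun i _ => pow_pos (hOm i) _).ne', Real.log_pow, Real.log_exp,
    Real.log_prod fun i _ => (pow_pos (hOm i) k).ne']
  simp only [Real.log_pow]
  rw [← Finset.mul_sum]
  push_cast at hlog hen hm ⊢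
  set m : ℝ := (k : ℝ) * (D.N : ℝ) with hmdef
  have hm0 : 0 ≤ m := by positivity
  set A := ∑ i, ∑ i', Real.log (ker s (wOf (x i)) (wOf (x i'))) with hA
  set B := ∑ i, Real.log (D.Om0 (wOf (x i))) with hB
  set l1 := Real.log (1 - D.r ^ 2) - Real.log (1 - D.r ^ 2 / s) with hl1
  set c0 := Real.log (4 / (1 - s) ^ 2) with hc0
  set ls := Real.log s with hls
  have hq : m ^ 2 * (-D.En + 2 * l1) ≤ (m + 1) * m * (-D.En + 2 * l1) := by
    apply mul_le_mul_of_nonneg_right _ (by linarith)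
    nlinarith
  have hstep : (m + 1) * (m * (2 * l1 - ls) + c0) < (m + 1) * (m * (2 * η)) := by
    apply mul_lt_mul_of_pos_left _ (by linarith)
    have : m * (2 * l1 - ls) ≤ m * η := mul_le_mul_of_nonneg_left hs.le hm0
    linarith
  nlinarith [hlog, hen, hq, hstep]

end Pool.Agent.H27Dual
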