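import Pool.Agent.H27Dual.MaxPr
import Pool.Agent.H27Dual.VandBound
import Pool.Agent.H27Dual.Fekete

/-!
# A small integer polynomial

Fekete points for the weight `Om0 ^ k` and the maximum principle.
-/

set_option autoImplicit false

namespace Pool.Agent.H27Dual

open Polynomial

private lemma SmallS_log (δ : ℝ) (hδ : 0 < δ) : ∃ K : ℕ, ∀ n : ℕ, K ≤ n →
    2 * Real.log ((n : ℝ) + 1) + Real.log 2 ≤ δ * n := by
  have h1 := Real.isLittleO_log_id_atTop.bound (c := δ / 4) (by linarith)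
  have h2 : Filter.Tendsto (fun n : ℕ => (n : ℝ) + 1) Filter.atTop Filter.atTop :=
    Filter.tendsto_atTop_add_const_right _ _ tendsto_natCast_atTop_atTop
  have h3 := h2.eventually h1
  obtain ⟨K1, hK1⟩ := Filter.eventually_atTop.1 h3
  obtain ⟨K2, hK2⟩ := exists_nat_ge ((δ / 2 + Real.log 2) / (δ / 2))
  refine ⟨max K1 K2, fun n hn => ?_⟩
  have h4 := hK1 n ((le_max_left _ _).trans hn)
  have h5 : (K2 : ℝ) ≤ n := by exact_mod_cast (le_max_right _ _).trans hn
  have hn0 : (0 : ℝ) ≤ n := Nat.cast_nonneg n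
  simp only [id, Real.norm_eq_abs] at h4
  rw [abs_of_nonneg (by linarith : (0 : ℝ) ≤ (n : ℝ) + 1)] at h4
  have h6 := (le_abs_self _).trans h4
  have h7 : δ / 2 + Real.log 2 ≤ δ / 2 * n := by
    have := hK2.trans h5
    rw [div_le_iff₀ (by linarith)] at this
    linarith
  nlinarith

theorem small_S {D : Dat} {ε : ℝ} (hA : D.Adm ε) : ∃ (k0 : ℕ) (S : ℤ[X]), 1 ≤ k0 ∧
    S.natDegree = k0 * D.N ∧ ∀ w : ℂ, ‖w‖ = 1 → |aeval (xOf w) S| ≤ 1 / 2 * D.Om w ^ k0 := by
  have hε := hA.e0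
  obtain ⟨K, hK⟩ := vand_bound D (η := ε / 8) (by linarith)
  obtain ⟨K', hK'⟩ := SmallS_log (3 / 4 * ε) (by linarith)
  set k : ℕ := max (max K K') 1 with hk
  have hkK : K ≤ k := (le_max_left _ _).trans (le_max_left _ _)
  have hkK' : K' ≤ k := (le_max_right _ _).trans (le_max_left _ _)
  have hk1 : 1 ≤ k := le_max_right _ _
  have hN := D.hN
  set n : ℕ := k * D.N with hn
  have hnk : k ≤ n := by rw [hn]; exact Nat.le_mul_of_pos_right _ hN
  have hlog := hK' n (hkK'.trans hnk)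
  set κ : ℝ := -D.En / 2 with hκ
  set c : ℝ := Real.exp ((n : ℝ) * (κ + ε / 8)) with hc
  have hc0 : 0 < c := Real.exp_pos _
  obtain ⟨F, hF0, hFd, hFb⟩ := fekete n (fun x => D.Om0 (wOf x) ^ k) (by
      apply ContinuousOn.pow
      apply D.continuousOn_Om0.comp continuous_wOf.continuousOn
      intro x hx
      show wOf x ≠ 0
      intro h0
      have := norm_wOf hx
      rw [h0, norm_zero] at this
      exact zero_ne_one this)
    (fun x hx => pow_pos (D.Om0_pos (by rw [norm_wOf hx])) k) hc0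
    (fun x hx => hK k hkK x hx)
  have hb : ∀ w : ℂ, ‖w‖ = 1 → |aeval (xOf w) F| ≤ ((n : ℝ) + 1) * c * D.Om0 w ^ k := by
    intro w hw
    have h1 := hFb (xOf w) (xOf_mem hw)
    have h2 : D.Om0 (wOf (xOf w)) = D.Om0 w := by
      apply D.Om0_congr (norm_wOf (xOf_mem hw)) hw
      have := xOf_wOf (xOf w)
      have e1 : xOf (wOf (xOf w)) = (1 + (wOf (xOf w)).re) / 2 := rfl
      have e2 : xOf w = (1 + w.re) / 2 := rfl
      rw [e1] at this
      linarith
    simp only [h2] at h1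
    exact h1
  have hn0 : (0 : ℝ) ≤ n := Nat.cast_nonneg n
  have hCpos : 0 < ((n : ℝ) + 1) * c := by positivity
  have hmax := max_principle D hF0 k hCpos hb
  have hadm := hA.h F hF0
  have hNr : (1 : ℝ) ≤ D.N := by exact_mod_cast hN
  have hlogC : Real.log (((n : ℝ) + 1) * c) = Real.log ((n : ℝ) + 1) + n * (κ + ε / 8) := by
    rw [Real.log_mul (by positivity) hc0.ne', hc, Real.log_exp]
  -- logarithms
  have h3 : ε * (D.N * F.natDegree) ≤ D.L * (D.N * F.natDegree) +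
      (D.N * Real.log (((n : ℝ) + 1) * c) + k * ((D.N : ℝ) ^ 2 * D.En)) := by
    have h4 : Real.exp (ε * (D.N * F.natDegree)) ≤ Real.exp (D.L * (D.N * F.natDegree) +
        (D.N * Real.log (((n : ℝ) + 1) * c) + k * ((D.N : ℝ) ^ 2 * D.En))) := by
      refine hadm.trans ?_
      rw [Real.exp_add, Real.exp_add, Real.exp_nat_mul, Real.exp_log hCpos, Real.exp_nat_mul]
      exact mul_le_mul_of_nonneg_left hmax (Real.exp_pos _).le
    exact Real.exp_le_exp.1 h4
  have hdeg : (F.natDegree : ℝ) ≤ n := by exact_mod_cast hFd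
  have hnN : (n : ℝ) = k * D.N := by rw [hn]; push_cast; ring
  have hen : D.En = -2 * κ := by rw [hκ]; ring
  have hLε : 0 ≤ D.L - ε := by linarith [hA.e1]
  have h5 : (D.N : ℝ) * (n * κ) ≤ D.N * (n * (D.L - ε + ε / 8) + Real.log ((n : ℝ) + 1)) := by
    have h6 : (D.L - ε) * (D.N * F.natDegree) ≤ (D.L - ε) * (D.N * n) := by
      apply mul_le_mul_of_nonneg_left _ hLε
      exact mul_le_mul_of_nonneg_left hdeg (by linarith)
    rw [hlogC, hen] at h3
    have h7 : (k : ℝ) * ((D.N : ℝ) ^ 2 * (-2 * κ)) = -2 * (D.N * (n * κ)) := by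
      rw [hnN]; ring
    rw [h7] at h3
    nlinarith
  have h8 : (n : ℝ) * κ ≤ n * (D.L - ε + ε / 8) + Real.log ((n : ℝ) + 1) :=
    le_of_mul_le_mul_left h5 (by linarith)
  have h9 : Real.log (((n : ℝ) + 1) * c) ≤ n * D.L - Real.log 2 := by
    rw [hlogC]
    nlinarith
  have h10 : ((n : ℝ) + 1) * c ≤ 1 / 2 * Real.exp (n * D.L) := by
    have h11 : ((n : ℝ) + 1) * c ≤ Real.exp (n * D.L - Real.log 2) := by
      rw [← Real.exp_log hCpos]
      exact Real.exp_le_exp.2 h9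
    rw [Real.exp_sub, Real.exp_log (by norm_num)] at h11
    linarith
  refine ⟨k, X ^ (n - F.natDegree) * F, hk1, ?_, ?_⟩
  · rw [natDegree_mul (pow_ne_zero _ X_ne_zero) hF0, natDegree_X_pow]
    omega
  · intro w hw
    obtain ⟨x0, x1⟩ := xOf_mem hw
    rw [map_mul, map_pow, aeval_X, abs_mul, abs_pow, abs_of_nonneg x0]
    have h12 : xOf w ^ (n - F.natDegree) ≤ 1 := pow_le_one₀ x0 x1
    have h13 : D.Om w ^ k = Real.exp (n * D.L) * D.Om0 w ^ k := by
      unfold Dat.Om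
      rw [mul_pow, ← Real.exp_nat_mul]
      congr 2
      rw [hnN]; ring
    have hOm : 0 ≤ D.Om0 w ^ k := (pow_pos (D.Om0_pos (by rw [hw])) k).le
    calc xOf w ^ (n - F.natDegree) * |aeval (xOf w) F| ≤ 1 * |aeval (xOf w) F| :=
          mul_le_mul_of_nonneg_right h12 (abs_nonneg _)
      _ ≤ ((n : ℝ) + 1) * c * D.Om0 w ^ k := by rw [one_mul]; exact hb w hw
      _ ≤ (1 / 2 * Real.exp (n * D.L)) * D.Om0 w ^ k := mul_le_mul_of_nonneg_right h10 hOm
      _ = 1 / 2 * D.Om w ^ k := by rw [h13]; ring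

end Pool.Agent.H27Dual
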