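import Pool.Agent.H27Dual.RedAll
import Pool.Agent.H27Dual.SmallS

/-! # Covering radius -/

set_option autoImplicit false

namespace Pool.Agent.H27Dual

open Polynomial

private theorem Cover_aeval_bound {f : ℝ[X]} {d : ℕ} (hf : f.natDegree < d)
    (hc : ∀ i, |f.coeff i| ≤ 1 / 2) {x : ℝ} (hx : x ∈ Set.Icc (0 : ℝ) 1) :
    |aeval x f| ≤ d / 2 := by
  rw [aeval_eq_sum_range' hf]
  refine (Finset.abs_sum_le_sum_abs _ _).trans ?_
  have h : ∀ i ∈ Finset.range d, |f.coeff i • x ^ i| ≤ 1 / 2 := by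
    intro i _
    rw [smul_eq_mul, abs_mul, abs_of_nonneg (pow_nonneg hx.1 i)]
    calc |f.coeff i| * x ^ i ≤ 1 / 2 * 1 :=
          mul_le_mul (hc i) (pow_le_one₀ hx.1 hx.2) (pow_nonneg hx.1 i) (by norm_num)
      _ = 1 / 2 := mul_one _
  refine (Finset.sum_le_sum h).trans ?_
  rw [Finset.sum_const, Finset.card_range, nsmul_eq_mul]
  linarith

/-- rounding the coefficients -/
private theorem Cover_round {c : ℝ[X]} {d : ℕ} (hd : 1 ≤ d) (hc : c.natDegree < d) :
    ∃ (g : ℤ[X]) (f : ℝ[X]), c = toR g + f ∧ g.natDegree < d ∧ f.natDegree < d ∧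
      ∀ i, |f.coeff i| ≤ 1 / 2 := by
  set g : ℤ[X] := ∑ i ∈ Finset.range d, C (round (c.coeff i)) * X ^ i with hg
  have hgc : ∀ i, g.coeff i = if i < d then round (c.coeff i) else 0 := by
    intro i
    rw [hg, finsetSum_coeff]
    simp only [coeff_C_mul, coeff_X_pow, mul_ite, mul_one, mul_zero]
    rw [Finset.sum_ite_eq]
    simp only [Finset.mem_range]
  have hgd : g.natDegree < d := by
    by_contra h
    push Not at h
    have h0 : g ≠ 0 := by
      intro h0
      rw [h0, natDegree_zero] at h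
      omega
    have h1 := hgc g.natDegree
    rw [if_neg (by omega)] at h1
    exact h0 (leadingCoeff_eq_zero.1 h1)
  refine ⟨g, c - toR g, by ring, hgd, ?_, ?_⟩
  · refine (natDegree_sub_le _ _).trans_lt (max_lt hc ?_)
    exact natDegree_map_le.trans_lt hgd
  · intro i
    rw [coeff_sub, coeff_map, hgc]
    split_ifs with h
    · exact abs_sub_round _
    · rw [coeff_eq_zero_of_natDegree_lt (by omega : c.natDegree < i)]
      simp

private theorem Cover_base (D : Dat) (k : ℕ) : ∃ ρ : ℝ, 0 ≤ ρ ∧ D.Cov k ρ := by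
  obtain ⟨c0, hc0, hc1, hcOm⟩ := D.exists_lower
  refine ⟨((k * D.N + 1 : ℕ) : ℝ) / 2 / c0 ^ k, by positivity, fun F hF => ?_⟩
  obtain ⟨g, f, hgf, hgd, hfd, hfc⟩ := Cover_round (c := F) (d := k * D.N + 1) (by omega) (by omega)
  refine ⟨g, by omega, fun w hw => ?_⟩
  have h1 : F - toR g = f := by rw [hgf]; ring
  rw [h1]
  refine (Cover_aeval_bound hfd hfc (xOf_mem hw)).trans ?_
  rw [div_mul_eq_mul_div, le_div_iff₀ (by positivity)]
  exact mul_le_mul_of_nonneg_left (pow_le_pow_left₀ hc0.le (hcOm w hw) _) (by positivity)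

private theorem Cover_step {D : Dat} {S : ℤ[X]} {k0 K' : ℕ} {η : ℝ} (hS0 : S ≠ 0)
    (hSd : S.natDegree = k0 * D.N)
    (hS : ∀ w : ℂ, ‖w‖ = 1 → |aeval (xOf w) S| ≤ 1 / 2 * D.Om w ^ k0)
    (hK' : ∀ k ≥ K', ∀ F : ℝ[X], ∃ (G : ℤ[X]) (E : ℝ[X]),
      G.natDegree + 0 ≤ k * D.N ∧ E.natDegree + 0 ≤ k * D.N ∧ toR S ∣ F - toR G - E ∧
      ∀ w : ℂ, ‖w‖ = 1 → |aeval (xOf w) E| ≤ η / 4 * D.Om w ^ k)
    {k : ℕ} (hk : K' ≤ k) {ρ : ℝ} (hcov : D.Cov k ρ) :
    D.Cov (k + k0) (η / 4 + ρ / 2) := by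
  intro F hF
  obtain ⟨G, E, hG, hE, ⟨F', hF'⟩, hb⟩ := hK' (k + k0) (by omega) F
  have hSR : (toR S).natDegree = k0 * D.N := by
    rw [← hSd]; exact natDegree_map_eq_of_injective Int.cast_injective _
  have hSR0 : toR S ≠ 0 := by
    intro h
    exact hS0 ((Polynomial.map_eq_zero_iff (f := Int.castRingHom ℝ)
      (RingHom.injective_int (Int.castRingHom ℝ))).1 h)
  have hFd : F'.natDegree ≤ k * D.N := by
    rcases eq_or_ne F' 0 with h0 | h0
    · rw [h0, natDegree_zero]; omega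
    · have h1 : (toR S * F').natDegree = k0 * D.N + F'.natDegree := by
        rw [natDegree_mul hSR0 h0, hSR]
      have h2 : (toR S * F').natDegree ≤ (k + k0) * D.N := by
        rw [← hF']
        refine (natDegree_sub_le _ _).trans (max_le ((natDegree_sub_le _ _).trans
          (max_le hF (natDegree_map_le.trans (by omega)))) (by omega))
      have h3 : (k + k0) * D.N = k * D.N + k0 * D.N := by ring
      omega
  obtain ⟨G', hG', hb'⟩ := hcov F' hFd
  refine ⟨G + S * G', ?_, fun w hw => ?_⟩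
  · have h3 : (k + k0) * D.N = k * D.N + k0 * D.N := by ring
    refine (natDegree_add_le _ _).trans (max_le (by omega) (natDegree_mul_le.trans ?_))
    omega
  · have h1 : F - toR (G + S * G') = E + toR S * (F' - toR G') := by
      simp only [toR, Polynomial.map_add, Polynomial.map_mul] at hF' ⊢
      linear_combination hF'
    rw [h1, map_add, map_mul]
    have h2 : aeval (xOf w) (toR S) = aeval (xOf w) S := by
      simp only [toR, aeval_def, eval₂_map]
      rfl
    rw [h2]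
    refine (abs_add_le _ _).trans ?_
    rw [abs_mul]
    have hOm : 0 < D.Om w := D.Om_pos hw.ge
    have h3 : |aeval (xOf w) S| * |aeval (xOf w) (F' - toR G')| ≤
        (1 / 2 * D.Om w ^ k0) * (ρ * D.Om w ^ k) :=
      mul_le_mul (hS w hw) (hb' w hw) (abs_nonneg _) (by positivity)
    have h4 := hb w hw
    calc _ ≤ η / 4 * D.Om w ^ (k + k0) + (1 / 2 * D.Om w ^ k0) * (ρ * D.Om w ^ k) :=
          add_le_add h4 h3
      _ = (η / 4 + ρ / 2) * D.Om w ^ (k + k0) := by rw [pow_add]; ring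

theorem cover {D : Dat} {ε : ℝ} (hA : D.Adm ε) {η : ℝ} (hη : 0 < η) (K : ℕ) :
    ∃ k ≥ K, D.Cov k η := by
  obtain ⟨k0, S, hk0, hSd, hS⟩ := small_S hA
  have hS0 : S ≠ 0 := by
    intro h
    rw [h, natDegree_zero] at hSd
    have h1 : 0 < k0 * D.N := Nat.mul_pos (by omega) D.hN
    omega
  obtain ⟨K', hK'⟩ := red_all hA hS0 0 (η / 4) (by positivity)
  set k := max K K' with hk
  obtain ⟨ρ, hρ, hbase⟩ := Cover_base D k
  have hiter : ∀ i : ℕ, D.Cov (k + i * k0) (ρ / 2 ^ i + η / 2) := by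
    intro i
    induction i with
    | zero =>
      rw [zero_mul, add_zero, pow_zero, div_one]
      intro F hF
      obtain ⟨G, hG, hb⟩ := hbase F hF
      refine ⟨G, hG, fun w hw => (hb w hw).trans ?_⟩
      have hOm : 0 < D.Om w := D.Om_pos hw.ge
      exact mul_le_mul_of_nonneg_right (by linarith) (by positivity)
    | succ i ih =>
      have h1 := Cover_step hS0 hSd hS hK' (k := k + i * k0)
        ((le_max_right K K').trans (Nat.le_add_right _ _)) ih
      have e1 : k + i * k0 + k0 = k + (i + 1) * k0 := by ring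
      have e2 : η / 4 + (ρ / 2 ^ i + η / 2) / 2 = ρ / 2 ^ (i + 1) + η / 2 := by
        rw [pow_succ]; field_simp; ring
      rwa [e1, e2] at h1
  obtain ⟨i, hi⟩ : ∃ i : ℕ, ρ / 2 ^ i ≤ η / 2 := by
    have hlim : Filter.Tendsto (fun i : ℕ => ρ * (1 / 2 : ℝ) ^ i) Filter.atTop
        (nhds (ρ * 0)) :=
      (tendsto_pow_atTop_nhds_zero_of_lt_one (by norm_num) (by norm_num)).const_mul _
    rw [mul_zero] at hlim
    obtain ⟨i, hi⟩ := (hlim.eventually_le_const (show 0 < η / 2 by positivity)).exists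
    refine ⟨i, ?_⟩
    rwa [one_div, inv_pow, ← div_eq_mul_inv] at hi
  refine ⟨k + i * k0, (le_max_left K K').trans (Nat.le_add_right _ _), fun F hF => ?_⟩
  obtain ⟨G, hG, hb⟩ := hiter i F hF
  refine ⟨G, hG, fun w hw => (hb w hw).trans ?_⟩
  have hOm : 0 < D.Om w := D.Om_pos hw.ge
  exact mul_le_mul_of_nonneg_right (by linarith) (by positivity)

end Pool.Agent.H27Dual
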