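import Mathlib

/-! # Strong duality for the integer Chebyshev constant of `[0,1]`: definitions

Points of `[0,1]` are written `xOf w = (1 + Re w) / 2` with `‖w‖ = 1`; every complex number is `J w`
with `1 ≤ ‖w‖` (Joukowski). -/

set_option autoImplicit false

namespace Pool.Agent.H27Dual

open Polynomial

/-- the Joukowski map for `[0,1]` -/
noncomputable def J (w : ℂ) : ℂ := (2 + w + w⁻¹) / 4

/-- the point `J w` of `[0,1]` for `‖w‖ = 1` -/
noncomputable def xOf (w : ℂ) : ℝ := (1 + w.re) / 2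

/-- a preimage of `x` in the upper half plane -/
noncomputable def wOf (x : ℝ) : ℂ := ⟨2 * x - 1, Real.sqrt (1 - (2 * x - 1) ^ 2)⟩

/-- the kernel `|w - r v| |w - r v̄| / (4 |w|)`; for `r = 1`, `‖v‖ = 1` it is `‖J w - J v‖` -/
noncomputable def ker (r : ℝ) (v w : ℂ) : ℝ :=
  ‖w - r * v‖ * ‖w - r * (starRingEnd ℂ) v‖ / (4 * ‖w‖)

/-- an integer polynomial as a real polynomial -/
noncomputable abbrev toR (Q : ℤ[X]) : ℝ[X] := Q.map (Int.castRingHom ℝ)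

/-- the complex roots of an integer polynomial, with multiplicity -/
noncomputable def rts (Q : ℤ[X]) : Multiset ℂ := (Q.map (Int.castRingHom ℂ)).roots

theorem exists_J (α : ℂ) : ∃ w : ℂ, 1 ≤ ‖w‖ ∧ J w = α := by
  obtain ⟨s, hs⟩ : ∃ s : ℂ, s ^ 2 = (2 * α - 1) ^ 2 - 1 :=
    IsAlgClosed.exists_pow_nat_eq ((2 * α - 1) ^ 2 - 1) (by norm_num)
  have hprod : ((2 * α - 1) + s) * ((2 * α - 1) - s) = 1 := by linear_combination -hs
  have h1 : (2 * α - 1) + s ≠ 0 := left_ne_zero_of_mul (hprod ▸ one_ne_zero)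
  have h2 : (2 * α - 1) - s ≠ 0 := right_ne_zero_of_mul (hprod ▸ one_ne_zero)
  have i1 : ((2 * α - 1) + s)⁻¹ = (2 * α - 1) - s := inv_eq_of_mul_eq_one_right hprod
  have i2 : ((2 * α - 1) - s)⁻¹ = (2 * α - 1) + s := by rw [← i1, inv_inv]
  have hn : ‖(2 * α - 1) + s‖ * ‖(2 * α - 1) - s‖ = 1 := by rw [← norm_mul, hprod, norm_one]
  rcases le_total 1 ‖(2 * α - 1) + s‖ with h | h
  · exact ⟨_, h, by unfold J; rw [i1]; ring⟩
  · refine ⟨(2 * α - 1) - s, ?_, by unfold J; rw [i2]; ring⟩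
    by_contra h3
    push Not at h3
    have h4 : 0 < ‖(2 * α - 1) + s‖ := norm_pos_iff.2 h1
    nlinarith [norm_nonneg ((2 * α - 1) - s)]

/-- a preimage of `α` under `J` of norm at least one -/
noncomputable def rootW (α : ℂ) : ℂ := (exists_J α).choose

theorem one_le_rootW (α : ℂ) : 1 ≤ ‖rootW α‖ := (exists_J α).choose_spec.1

theorem J_rootW (α : ℂ) : J (rootW α) = α := (exists_J α).choose_spec.2

/-- `M_r(Q, v) = |lead Q| ∏ ker r v (rootW α)` over the roots `α` of `Q` -/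
noncomputable def MQ (r : ℝ) (Q : ℤ[X]) (v : ℂ) : ℝ :=
  |(Q.leadingCoeff : ℝ)| * ((rts Q).map fun α => ker r v (rootW α)).prod

/-- The data of the weight: points `v j` of the unit circle, `0 < r < 1`, and the number `L`. -/
structure Dat where
  N : ℕ
  v : Fin N → ℂ
  r : ℝ
  L : ℝ
  hN : 1 ≤ N
  hv : ∀ j, ‖v j‖ = 1
  r0 : 0 < r
  r1 : r < 1

namespace Dat

variable (D : Dat)

/-- `Ω₀(w) = ∏ ker r v_j w` -/
noncomputable def Om0 (w : ℂ) : ℝ := ∏ j, ker D.r (D.v j) w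

/-- `Ω(w) = e^{N L} Ω₀(w)` -/
noncomputable def Om (w : ℂ) : ℝ := Real.exp (D.N * D.L) * D.Om0 w

/-- the analytic function with `‖Z w‖ = Ω(w)` -/
noncomputable def Z (w : ℂ) : ℂ :=
  (Real.exp (D.N * D.L) : ℂ) *
    ∏ j, (w - 2 * (D.r : ℂ) * ((D.v j).re : ℂ) + (D.r : ℂ) ^ 2 * w⁻¹) / 4

/-- the energy of the smoothed measure -/
noncomputable def En : ℝ :=
  (∑ j, ∑ l, Real.log (ker (D.r ^ 2) (D.v j) (D.v l))) / (D.N : ℝ) ^ 2

/-- all heights are at least `ε` -/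
structure Adm (ε : ℝ) : Prop where
  e0 : 0 < ε
  e1 : ε ≤ D.L
  h : ∀ Q : ℤ[X], Q ≠ 0 → Real.exp (ε * (D.N * Q.natDegree)) ≤
    Real.exp (D.L * (D.N * Q.natDegree)) * ∏ j, MQ D.r Q (D.v j)

/-- Reduction modulo `S`: for all large levels `k`, every real polynomial is modulo `S` the sum of an integer
polynomial and of a real polynomial which is small with respect to `Ω ^ k`, both of degree at most
`k N - s`. -/
def Red (S : ℤ[X]) : Prop :=
  ∀ (s : ℕ) (η : ℝ), 0 < η → ∃ K : ℕ, ∀ k ≥ K, ∀ F : ℝ[X], ∃ (G : ℤ[X]) (E : ℝ[X]),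
    G.natDegree + s ≤ k * D.N ∧ E.natDegree + s ≤ k * D.N ∧ toR S ∣ F - toR G - E ∧
    ∀ w : ℂ, ‖w‖ = 1 → |aeval (xOf w) E| ≤ η * D.Om w ^ k

/-- the covering radius at level `k` is at most `ρ` -/
def Cov (k : ℕ) (ρ : ℝ) : Prop :=
  ∀ F : ℝ[X], F.natDegree ≤ k * D.N → ∃ G : ℤ[X], G.natDegree ≤ k * D.N ∧
    ∀ w : ℂ, ‖w‖ = 1 → |aeval (xOf w) (F - toR G)| ≤ ρ * D.Om w ^ k

end Dat

end Pool.Agent.H27Dual
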