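import Mathlib

/-!
# The determinant of the multiplication modulo a polynomial

Proof. Let `M i j = ((u X^j) %ₘ Q).coeff i` over `ℂ` and `V i j = α i ^ j`
(`Matrix.vandermonde α`, `det ≠ 0` since `α` is injective). Then
`(V M) i j = ∑ k, α i ^ k M k j = ((u X^j) %ₘ Q)(α i) = u(α i) α i ^ j` (degree `< d`;
`Q (α i) = 0`), so `V M = diagonal (u(α i)) V`. Take determinants and cancel `det V`.
-/

set_option autoImplicit false

namespace Pool.Agent.H27Dual

open Polynomial

theorem det_mulMod {d : ℕ} {Q : ℝ[X]} (hQ : Q.Monic) (hd : Q.natDegree = d) (α : Fin d → ℂ)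
    (hinj : Function.Injective α) (hroot : ∀ i, aeval (α i) Q = 0) (u : ℝ[X]) :
    (((Matrix.of fun i j : Fin d => ((u * X ^ (j : ℕ)) %ₘ Q).coeff i).det : ℝ) : ℂ) =
      ∏ i, aeval (α i) u := by
  classical
  set M : Matrix (Fin d) (Fin d) ℝ :=
    Matrix.of fun i j : Fin d => ((u * X ^ (j : ℕ)) %ₘ Q).coeff i with hM
  have hdet : ((M.det : ℝ) : ℂ) = (M.map (algebraMap ℝ ℂ)).det := by
    have := RingHom.map_det (algebraMap ℝ ℂ) M
    rw [RingHom.mapMatrix_apply] at this
    exact this
  rw [hdet]
  have hVne : (Matrix.vandermonde α).det ≠ 0 := Matrix.det_vandermonde_ne_zero_iff.2 hinj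
  have key : Matrix.vandermonde α * M.map (algebraMap ℝ ℂ)
      = Matrix.diagonal (fun i => aeval (α i) u) * Matrix.vandermonde α := by
    ext i j
    rw [Matrix.diagonal_mul, Matrix.mul_apply]
    simp only [Matrix.vandermonde_apply, Matrix.map_apply, hM, Matrix.of_apply]
    set R : ℝ[X] := (u * X ^ (j : ℕ)) %ₘ Q with hR
    have hdeg : R.natDegree < d ∨ R = 0 := by
      by_cases h0 : R = 0
      · exact Or.inr h0
      · left
        by_cases hQ1 : Q = 1
        · exfalso
          apply h0
          rw [hR, hQ1, modByMonic_one]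
        · rw [← hd]
          exact natDegree_modByMonic_lt _ hQ hQ1
    have heval : aeval (α i) R = ∑ k : Fin d, α i ^ (k : ℕ) * algebraMap ℝ ℂ (R.coeff k) := by
      have h1 : aeval (α i) R = ∑ k ∈ Finset.range d, algebraMap ℝ ℂ (R.coeff k) * α i ^ k := by
        rcases hdeg with h | h
        · rw [aeval_eq_sum_range' h]
          refine Finset.sum_congr rfl fun k _ => ?_
          rw [Algebra.smul_def]
        · rw [h]; simp
      rw [h1, ← Fin.sum_univ_eq_sum_range (fun k => algebraMap ℝ ℂ (R.coeff k) * α i ^ k)]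
      exact Finset.sum_congr rfl fun k _ => mul_comm _ _
    rw [← heval]
    have h2 : aeval (α i) (u * X ^ (j : ℕ)) = aeval (α i) R := by
      conv_lhs => rw [← modByMonic_add_div (u * X ^ (j : ℕ)) Q]
      rw [map_add, map_mul, hroot i, zero_mul, add_zero]
    rw [← h2, map_mul, map_pow, aeval_X]
  have h3 := congrArg Matrix.det key
  rw [Matrix.det_mul, Matrix.det_mul, Matrix.det_diagonal, mul_comm] at h3
  exact mul_right_cancel₀ hVne h3

end Pool.Agent.H27Dual
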