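import Mathlib

/-! # Eisenstein at two for the primitive part, and the easy inequality

Proof. `irr_primPart`: `q = C (content) * primPart`; the content divides `q.coeff n`, so it is odd; hence the coefficients of `primPart` have the same divisibility properties; apply
`Polynomial.irreducible_of_eisenstein_criterion` with the prime ideal `(2)`.
`finite_irr_dvd`: an irreducible divisor of `p ≠ 0` is associated to an element of the finite multiset `UniqueFactorizationMonoid.factors p`; units of `ℤ[X]` are `±1`.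
`easy`: `q` is irreducible over `ℚ` and does not divide `p`, so they are coprime and the resultant of `p` and `q` is a nonzero integer; up to sign it is
`lead(q)^(deg p) ∏ p(β)` over the `deg q` complex roots `β` of `q` (`Polynomial.resultant_eq_prod_eval` over `ℂ`, `resultant_map_map`, `Polynomial.resultant_ne_zero`). -/

set_option autoImplicit false

namespace Pool.Agent.H27Dual

open Polynomial

theorem irr_primPart {n : ℕ} (hn : 1 ≤ n) {q : ℤ[X]} (hq : q.natDegree = n)
    (h1 : ¬ (2 : ℤ) ∣ q.coeff n) (h2 : ∀ i < n, (2 : ℤ) ∣ q.coeff i)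
    (h3 : ¬ (4 : ℤ) ∣ q.coeff 0) : Irreducible q.primPart := by
  have hc : ∀ i, q.coeff i = q.content * q.primPart.coeff i := by
    intro i
    conv_lhs => rw [q.eq_C_content_mul_primPart]
    rw [coeff_C_mul]
  have hdeg : q.primPart.natDegree = n := by rw [natDegree_primPart, hq]
  have hodd : ¬ (2 : ℤ) ∣ q.content := fun h => h1 (by
    rw [hc n]
    exact Dvd.dvd.mul_right h _)
  have hP : (Ideal.span {(2 : ℤ)}).IsPrime := by
    rw [Ideal.span_singleton_prime (by norm_num)]
    exact Int.prime_two
  refine irreducible_of_eisenstein_criterion hP ?_ ?_ ?_ ?_ q.isPrimitive_primPart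
  · rw [Ideal.mem_span_singleton, leadingCoeff, hdeg]
    intro h
    apply h1
    rw [hc n]
    exact Dvd.dvd.mul_left h _
  · intro i hi
    have hi' : i < n := by
      rw [← hdeg]
      have h0 : q.primPart ≠ 0 := q.primPart_ne_zero
      rw [degree_eq_natDegree h0] at hi
      exact_mod_cast hi
    rw [Ideal.mem_span_singleton]
    have h4 := h2 i hi'
    rw [hc i] at h4
    exact (Int.prime_two.dvd_or_dvd h4).resolve_left hodd
  · rw [← natDegree_pos_iff_degree_pos, hdeg]
    exact hn
  · rw [Ideal.span_singleton_pow, Ideal.mem_span_singleton]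
    intro h
    apply h3
    rw [hc 0]
    norm_num at h
    exact Dvd.dvd.mul_left h _

theorem finite_irr_dvd {p : ℤ[X]} (hp : p ≠ 0) : {q : ℤ[X] | Irreducible q ∧ q ∣ p}.Finite := by
  classical
  refine Set.Finite.subset (Finset.finite_toSet ((UniqueFactorizationMonoid.factors p).toFinset ∪
    (UniqueFactorizationMonoid.factors p).toFinset.image (fun x => -x))) ?_
  rintro q ⟨h1, h2⟩
  obtain ⟨x, hx, hqx⟩ := UniqueFactorizationMonoid.exists_mem_factors_of_dvd hp h1 h2
  obtain ⟨u, hu⟩ := hqx.symm
  rw [Finset.mem_coe, Finset.mem_union, Multiset.mem_toFinset, Finset.mem_image]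
  obtain ⟨r, hr, hru⟩ := Polynomial.isUnit_iff.1 u.isUnit
  rw [← hru] at hu
  rcases Int.isUnit_iff.1 hr with rfl | rfl
  · left
    rw [C_1, mul_one] at hu
    rw [← hu]
    exact hx
  · right
    refine ⟨x, Multiset.mem_toFinset.2 hx, ?_⟩
    rw [← hu, C_neg, C_1, mul_neg, mul_one]

theorem Eis_prod_le (s : Multiset ℂ) (f : ℂ → ℂ) {M : ℝ} (hM : 0 ≤ M)
    (h : ∀ a ∈ s, ‖f a‖ ≤ M) : ‖(s.map f).prod‖ ≤ M ^ Multiset.card s := by
  induction s using Multiset.induction_on with
  | empty => simp
  | cons a s ih =>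
    rw [Multiset.map_cons, Multiset.prod_cons, Multiset.card_cons, norm_mul, pow_succ']
    exact mul_le_mul (h a (Multiset.mem_cons_self _ _))
      (ih fun b hb => h b (Multiset.mem_cons_of_mem hb)) (norm_nonneg _) hM

theorem easy {q : ℤ[X]} (hq : Irreducible q) (hd : 1 ≤ q.natDegree)
    (hr : ∀ z : ℂ, aeval z q = 0 → ∃ x ∈ Set.Icc (0 : ℝ) 1, z = (x : ℂ)) {p : ℤ[X]} (hp : p ≠ 0)
    (hqp : ¬ q ∣ p) {M : ℝ} (hM : ∀ x ∈ Set.Icc (0 : ℝ) 1, |aeval x p| ≤ M) :
    1 ≤ |(q.leadingCoeff : ℝ)| ^ p.natDegree * M ^ q.natDegree := by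
  have hM0 : 0 ≤ M := (abs_nonneg _).trans (hM 0 ⟨le_rfl, zero_le_one⟩)
  have hq0 : q ≠ 0 := hq.ne_zero
  have hprim : q.IsPrimitive := hq.isPrimitive (by omega)
  have hQirr := (IsPrimitive.Int.irreducible_iff_irreducible_map_cast hprim).1 hq
  have hndvd : ¬ q.map (Int.castRingHom ℚ) ∣ p.map (Int.castRingHom ℚ) := by
    intro h
    apply hqp
    have h1 : p.map (Int.castRingHom ℚ) =
        C ((p.content : ℤ) : ℚ) * p.primPart.map (Int.castRingHom ℚ) := by
      conv_lhs => rw [p.eq_C_content_mul_primPart]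
      rw [Polynomial.map_mul, map_C]
      rfl
    have hc0 : ((p.content : ℤ) : ℚ) ≠ 0 := by
      have : p.content ≠ 0 := by
        rw [Ne, content_eq_zero_iff]
        exact hp
      exact_mod_cast this
    rw [h1] at h
    have h2 : q.map (Int.castRingHom ℚ) ∣ p.primPart.map (Int.castRingHom ℚ) :=
      (Polynomial.dvd_C_mul hc0).1 h
    have h3 := (IsPrimitive.Int.dvd_iff_map_cast_dvd_map_cast q p.primPart hprim).2 h2
    exact h3.trans p.primPart_dvd
  have hcop : IsCoprime (q.map (Int.castRingHom ℚ)) (p.map (Int.castRingHom ℚ)) :=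
    (Irreducible.coprime_iff_not_dvd hQirr).2 hndvd
  have hinjQ : Function.Injective (Int.castRingHom ℚ) := Int.cast_injective
  have hinjC : Function.Injective (Int.castRingHom ℂ) := Int.cast_injective
  have hR0 : resultant q p ≠ 0 := by
    intro h
    have h1 := resultant_ne_zero _ _ hcop
    rw [natDegree_map_eq_of_injective hinjQ, natDegree_map_eq_of_injective hinjQ,
      resultant_map_map, h, map_zero] at h1
    exact h1 rfl
  have hres : ((resultant q p : ℤ) : ℂ) = ((q.leadingCoeff : ℤ) : ℂ) ^ p.natDegree *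
      ((q.map (Int.castRingHom ℂ)).roots.map (p.map (Int.castRingHom ℂ)).eval).prod := by
    have h1 := resultant_eq_prod_eval (q.map (Int.castRingHom ℂ)) (p.map (Int.castRingHom ℂ))
      p.natDegree (natDegree_map_le) (IsAlgClosed.splits _)
    rw [natDegree_map_eq_of_injective hinjC, resultant_map_map,
      leadingCoeff_map_of_injective hinjC] at h1
    exact h1
  have hnorm : |((resultant q p : ℤ) : ℝ)| = |(q.leadingCoeff : ℝ)| ^ p.natDegree *
      ‖((q.map (Int.castRingHom ℂ)).roots.map (p.map (Int.castRingHom ℂ)).eval).prod‖ := by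
    have h1 := congrArg norm hres
    rw [norm_mul, norm_pow, Complex.norm_intCast, Complex.norm_intCast] at h1
    exact h1
  have hle : ‖((q.map (Int.castRingHom ℂ)).roots.map
      (p.map (Int.castRingHom ℂ)).eval).prod‖ ≤ M ^ q.natDegree := by
    have hcard : Multiset.card (q.map (Int.castRingHom ℂ)).roots = q.natDegree := by
      rw [← (IsAlgClosed.splits (q.map (Int.castRingHom ℂ))).natDegree_eq_card_roots,
        natDegree_map_eq_of_injective hinjC]
    rw [← hcard]
    refine Eis_prod_le _ _ hM0 ?_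
    intro a ha
    have h1 : aeval a q = 0 := by
      have h2 := (mem_roots'.1 ha).2
      rw [IsRoot, eval_map] at h2
      exact h2
    obtain ⟨x, hx, rfl⟩ := hr a h1
    have h3 : (p.map (Int.castRingHom ℂ)).eval (x : ℂ) = ((aeval x p : ℝ) : ℂ) := by
      rw [eval_map]
      have := Polynomial.aeval_algebraMap_apply ℂ x p
      exact this
    rw [h3, Complex.norm_real]
    exact hM x hx
  have h1R : (1 : ℝ) ≤ |((resultant q p : ℤ) : ℝ)| := by
    exact_mod_cast Int.one_le_abs hR0
  rw [hnorm] at h1R
  exact h1R.trans (mul_le_mul_of_nonneg_left hle (pow_nonneg (abs_nonneg _) _))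

end Pool.Agent.H27Dual
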