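import Pool.Agent.H27Dual.Defs

/-! # The Fourier series of the logarithm of the kernel -/

set_option autoImplicit false

namespace Pool.Agent.H27Dual

open ComplexConjugate in
private theorem LogSeries_norm {s : ℝ} {v w : ℂ} (hw : ‖w‖ = 1) :
    ‖w - s * v‖ = ‖1 - s * conj w * v‖ := by
  have h : w * conj w = 1 := by rw [Complex.mul_conj, Complex.normSq_eq_norm_sq, hw]; simp
  have h1 : w - s * v = w * (1 - s * conj w * v) := by
    linear_combination (s * v) * h
  rw [h1, norm_mul, hw, one_mul]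

private theorem LogSeries_re {z : ℂ} (hz : ‖z‖ < 1) :
    HasSum (fun m : ℕ => (z ^ (m + 1)).re / ((m : ℝ) + 1)) (-Real.log ‖1 - z‖) := by
  have h := Complex.hasSum_re (Complex.hasSum_taylorSeries_neg_log' hz)
  convert h using 1
  · ext m
    have e : ((m : ℂ) + 1) = (((m : ℝ) + 1 : ℝ) : ℂ) := by push_cast; rfl
    rw [e, Complex.div_ofReal_re]
  · rw [Complex.neg_re, Complex.log_re]

open ComplexConjugate in
theorem hasSum_log_ker {s : ℝ} (h0 : 0 ≤ s) (h1 : s < 1) {v w : ℂ} (hv : ‖v‖ = 1)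
    (hw : ‖w‖ = 1) :
    HasSum (fun m : ℕ => 2 * s ^ (m + 1) / ((m : ℝ) + 1) * ((v ^ (m + 1)).re * (w ^ (m + 1)).re))
      (-Real.log 4 - Real.log (ker s v w)) := by
  have hna : ‖(s : ℂ) * conj w * v‖ < 1 := by
    rw [norm_mul, norm_mul, RCLike.norm_conj, hv, hw, Complex.norm_real, Real.norm_of_nonneg h0]
    linarith
  have hnb : ‖(s : ℂ) * conj w * conj v‖ < 1 := by
    rw [norm_mul, norm_mul, RCLike.norm_conj, RCLike.norm_conj, hv, hw, Complex.norm_real,
      Real.norm_of_nonneg h0]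
    linarith
  have ha := LogSeries_re hna
  have hb := LogSeries_re hnb
  have h := ha.add hb
  have hpos1 : 0 < ‖1 - (s : ℂ) * conj w * v‖ := by
    rw [norm_pos_iff]
    intro h
    rw [← sub_eq_zero.1 h, norm_one] at hna
    exact lt_irrefl _ hna
  have hpos2 : 0 < ‖1 - (s : ℂ) * conj w * conj v‖ := by
    rw [norm_pos_iff]
    intro h
    rw [← sub_eq_zero.1 h, norm_one] at hnb
    exact lt_irrefl _ hnb
  convert h using 1
  · ext m
    have e1 : ((s : ℂ) * conj w * v) ^ (m + 1) =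
        ((s ^ (m + 1) : ℝ) : ℂ) * (conj (w ^ (m + 1)) * v ^ (m + 1)) := by
      rw [mul_pow, mul_pow, map_pow]; push_cast; ring
    have e2 : ((s : ℂ) * conj w * conj v) ^ (m + 1) =
        ((s ^ (m + 1) : ℝ) : ℂ) * (conj (w ^ (m + 1)) * conj (v ^ (m + 1))) := by
      rw [mul_pow, mul_pow, map_pow, map_pow]; push_cast; ring
    rw [e1, e2, Complex.re_ofReal_mul, Complex.re_ofReal_mul]
    simp only [Complex.mul_re, Complex.conj_re, Complex.conj_im]
    ring
  · unfold ker
    rw [LogSeries_norm hw, LogSeries_norm hw, hw, mul_one,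
      Real.log_div (by positivity) (by norm_num), Real.log_mul hpos1.ne' hpos2.ne']
    ring

end Pool.Agent.H27Dual
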