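import Pool.Agent.H27Dual.Ker
import Pool.Agent.H27Dual.LogSeries

/-! # The energy inequality

Proof. Write `τ m = ∑ i, Re ((w i)^(m+1))`, `γ m = ∑ j, Re ((v j)^(m+1))`, `N = D.N`, `r = D.r`. By `hasSum_log_ker` (finite sums of `HasSum`)
`A := ∑_{i,i'} log ker s (w i) (w i') = - n² log 4 - ∑' 2 s^(m+1)/(m+1) τ m²`,
`B := ∑ i, log (Om0 (w i)) = ∑_{i,j} log ker r (v j) (w i) = - n N log 4 - ∑' 2 r^(m+1)/(m+1) τ m γ m`,
`N² En = - N² log 4 - ∑' 2 r^(2(m+1))/(m+1) γ m²`. So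
`A - 2 k B = - (n² - 2 k N n) log 4 - ∑' 2/(m+1) (s^(m+1) τ m² - 2 k r^(m+1) τ m γ m)`; here
`s^(m+1) τ² - 2 k r^(m+1) τ γ ≥ - k² (r²/s)^(m+1) γ²` (complete the square), `- (n² - 2kNn) log 4 ≤ k² N² log 4`, so
`A - 2 k B ≤ k² N² log 4 + k² ∑' 2/(m+1) (r²/s)^(m+1) γ m² = - k² N² En + k² ∑' 2/(m+1) ((r²/s)^(m+1) - r^(2(m+1))) γ m²` and with `γ m² ≤ N²`
the last sum is `≤ k² N² 2 (log (1 - r²) - log (1 - r²/s))` (`Real.hasSum_pow_div_log_of_abs_lt_one`). -/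

set_option autoImplicit false

namespace Pool.Agent.H27Dual

/-- finite double sums of the series of the logarithm of the kernel -/
private theorem Energy_hasSum {s : ℝ} (h0 : 0 ≤ s) (h1 : s < 1) {a b : ℕ} (x : Fin a → ℂ)
    (y : Fin b → ℂ) (hx : ∀ i, ‖x i‖ = 1) (hy : ∀ i, ‖y i‖ = 1) :
    HasSum (fun m : ℕ => 2 * s ^ (m + 1) / ((m : ℝ) + 1) *
        ((∑ i, ((x i) ^ (m + 1)).re) * ∑ j, ((y j) ^ (m + 1)).re))
      (-(a * b * Real.log 4) - ∑ i, ∑ j, Real.log (ker s (x i) (y j))) := by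
  have h := hasSum_sum (s := (Finset.univ : Finset (Fin a)))
    (fun i _ => hasSum_sum (s := (Finset.univ : Finset (Fin b)))
      (fun j _ => hasSum_log_ker h0 h1 (hx i) (hy j)))
  convert h using 1
  · funext m
    rw [Finset.sum_mul_sum, Finset.mul_sum]
    refine Finset.sum_congr rfl fun i _ => ?_
    rw [Finset.mul_sum]
  · simp only [Finset.sum_sub_distrib, Finset.sum_const, Finset.card_univ, Fintype.card_fin,
      nsmul_eq_mul]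
    ring

private theorem Energy_pt {s r τ γ N k : ℝ} (h0 : 0 < s) (h1 : s < 1) (m : ℕ)
    (hγ : |γ| ≤ N) :
    0 ≤ s ^ (m + 1) * (τ * τ) - 2 * k * (r ^ (m + 1) * (γ * τ)) +
      k ^ 2 * ((r ^ 2) ^ (m + 1) * (γ * γ)) +
      k ^ 2 * N ^ 2 * ((r ^ 2 / s) ^ (m + 1) - (r ^ 2) ^ (m + 1)) := by
  have hs : 0 < s ^ (m + 1) := by positivity
  have e1 : (r ^ 2 / s) ^ (m + 1) = (r ^ (m + 1)) ^ 2 / s ^ (m + 1) := by
    rw [div_pow]; ring
  have h2 : (r ^ 2) ^ (m + 1) ≤ (r ^ 2 / s) ^ (m + 1) := by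
    apply pow_le_pow_left₀ (by positivity)
    rw [le_div_iff₀ h0]
    nlinarith [sq_nonneg r]
  have h3 : γ ^ 2 ≤ N ^ 2 := by
    have := abs_nonneg γ
    rw [← sq_abs γ]
    gcongr
  have h4 : 0 ≤ (N ^ 2 - γ ^ 2) * ((r ^ 2 / s) ^ (m + 1) - (r ^ 2) ^ (m + 1)) :=
    mul_nonneg (by linarith) (by linarith)
  have h5 : 0 ≤ k ^ 2 * ((N ^ 2 - γ ^ 2) * ((r ^ 2 / s) ^ (m + 1) - (r ^ 2) ^ (m + 1))) :=
    mul_nonneg (sq_nonneg k) h4
  have h6 : 0 ≤ s ^ (m + 1) * (τ * τ) - 2 * k * (r ^ (m + 1) * (γ * τ)) +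
      k ^ 2 * (r ^ 2 / s) ^ (m + 1) * γ ^ 2 := by
    have : s ^ (m + 1) * (τ * τ) - 2 * k * (r ^ (m + 1) * (γ * τ)) +
        k ^ 2 * (r ^ 2 / s) ^ (m + 1) * γ ^ 2 =
        (s ^ (m + 1) * τ - k * r ^ (m + 1) * γ) ^ 2 / s ^ (m + 1) := by
      rw [e1]
      field_simp
      ring
    rw [this]
    positivity
  nlinarith

theorem energy_fin (D : Dat) {s : ℝ} (h0 : D.r ^ 2 < s) (h1 : s < 1) (n k : ℕ)
    (w : Fin n → ℂ) (hw : ∀ i, ‖w i‖ = 1) :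
    (∑ i, ∑ i', Real.log (ker s (w i) (w i'))) - 2 * k * ∑ i, Real.log (D.Om0 (w i)) ≤
      (k * D.N : ℝ) ^ 2 *
        (-D.En + 2 * (Real.log (1 - D.r ^ 2) - Real.log (1 - D.r ^ 2 / s))) := by
  have hr0 := D.r0
  have hr1 := D.r1
  have hN : (1 : ℝ) ≤ D.N := by exact_mod_cast D.hN
  have hs0 : 0 < s := lt_of_le_of_lt (sq_nonneg _) h0
  have hr2 : D.r ^ 2 < 1 := h0.trans h1
  have hq1 : D.r ^ 2 / s < 1 := by rwa [div_lt_one hs0]
  have hq0 : 0 ≤ D.r ^ 2 / s := by positivity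
  have HA := Energy_hasSum hs0.le h1 w w hw hw
  have HB := Energy_hasSum hr0.le hr1 D.v w D.hv hw
  have HE := Energy_hasSum (sq_nonneg D.r) hr2 D.v D.v D.hv D.hv
  have HL1 := Real.hasSum_pow_div_log_of_abs_lt_one (x := D.r ^ 2 / s) (by
    rw [abs_of_nonneg hq0]; exact hq1)
  have HL2 := Real.hasSum_pow_div_log_of_abs_lt_one (x := D.r ^ 2) (by
    rw [abs_of_nonneg (sq_nonneg _)]; exact hr2)
  have HT := ((HA.sub (HB.mul_left (2 * (k : ℝ)))).add (HE.mul_left ((k : ℝ) ^ 2))).add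
    ((HL1.sub HL2).mul_left (2 * (k : ℝ) ^ 2 * (D.N : ℝ) ^ 2))
  have hpos := HT.nonneg (fun m => by
    have hγ : |∑ j, ((D.v j) ^ (m + 1)).re| ≤ D.N := by
      calc |∑ j, ((D.v j) ^ (m + 1)).re| ≤ ∑ j, |((D.v j) ^ (m + 1)).re| :=
            Finset.abs_sum_le_sum_abs _ _
        _ ≤ ∑ _j : Fin D.N, (1 : ℝ) := by
            refine Finset.sum_le_sum fun j _ => ?_
            calc |((D.v j) ^ (m + 1)).re| ≤ ‖(D.v j) ^ (m + 1)‖ := Complex.abs_re_le_norm _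
              _ = 1 := by rw [norm_pow, D.hv j, one_pow]
        _ = D.N := by simp
    have hm : (0 : ℝ) < (m : ℝ) + 1 := by positivity
    have hpt := Energy_pt (r := D.r) (τ := ∑ i, ((w i) ^ (m + 1)).re) (k := (k : ℝ)) hs0 h1 m hγ
    have e := mul_nonneg (by positivity : (0 : ℝ) ≤ 2 / ((m : ℝ) + 1)) hpt
    refine e.trans (le_of_eq ?_)
    field_simp)
  have hEn : D.En * (D.N : ℝ) ^ 2 =
      ∑ j, ∑ l, Real.log (ker (D.r ^ 2) (D.v j) (D.v l)) := by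
    unfold Dat.En
    field_simp
  have hOm : ∑ i, Real.log (D.Om0 (w i)) =
      ∑ j, ∑ i, Real.log (ker D.r (D.v j) (w i)) := by
    rw [Finset.sum_comm]
    refine Finset.sum_congr rfl fun i _ => ?_
    unfold Dat.Om0
    rw [Real.log_prod]
    intro j _
    exact (ker_pos hr0.le hr1 (D.hv j) (hw i).ge).ne'
  rw [hOm]
  rw [← hEn] at hpos
  have hlog4 : 0 ≤ Real.log 4 := Real.log_nonneg (by norm_num)
  have hsq : 0 ≤ ((n : ℝ) - k * D.N) ^ 2 * Real.log 4 := by positivity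
  nlinarith

end Pool.Agent.H27Dual
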