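import Mathlib

set_option autoImplicit false

namespace Pool.Agent.H27Dual

open MeasureTheory

theorem linForms {ι : Type} [Fintype ι] [DecidableEq ι] (A : Matrix ι ι ℝ) (hA : A.det ≠ 0)
    (c : ι → ℝ) (hc : ∀ i, 0 < c i) (h : |A.det| < ∏ i, c i) :
    ∃ v : ι → ℤ, v ≠ 0 ∧ ∀ i, |A.mulVec (fun j => (v j : ℝ)) i| < c i := by
  classical
  set b := Pi.basisFun ℝ ι with hb
  have fund := ZSpan.isAddFundamentalDomain b (volume : Measure (ι → ℝ))
  set B : Set (ι → ℝ) := Set.pi Set.univ fun i => Set.Ioo (-c i) (c i) with hB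
  set s : Set (ι → ℝ) := (Matrix.toLin' A) ⁻¹' B with hs
  have hmem : ∀ x : ι → ℝ, x ∈ s ↔ ∀ i, |A.mulVec x i| < c i := by
    intro x
    simp only [hs, hB, Set.mem_preimage, Set.mem_pi, Set.mem_univ, true_implies, Set.mem_Ioo,
      Matrix.toLin'_apply, abs_lt]
  have hsymm : ∀ x ∈ s, -x ∈ s := by
    intro x hx
    rw [hmem] at hx ⊢
    intro i
    rw [Matrix.mulVec_neg, Pi.neg_apply, abs_neg]
    exact hx i
  have hconv : Convex ℝ s := by
    apply Convex.linear_preimage
    exact convex_pi fun i _ => convex_Ioo _ _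
  have hvol : volume s = ENNReal.ofReal |A.det|⁻¹ * ∏ i, ENNReal.ofReal (2 * c i) := by
    rw [hs, Measure.addHaar_preimage_linearMap volume (by rwa [LinearMap.det_toLin']),
      LinearMap.det_toLin', abs_inv, hB, Real.volume_pi_Ioo]
    congr 1
    refine Finset.prod_congr rfl fun i _ => ?_
    congr 1; ring
  have hfd : volume (ZSpan.fundamentalDomain b) = 1 := by
    rw [hb, ZSpan.fundamentalDomain_pi_basisFun, Real.volume_pi_Ico]
    simp
  have hlt : volume (ZSpan.fundamentalDomain b) * 2 ^ Module.finrank ℝ (ι → ℝ) < volume s := by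
    rw [hfd, hvol, one_mul, Module.finrank_pi, ← ENNReal.ofReal_prod_of_nonneg
      (fun i _ => by have := hc i; positivity), ← ENNReal.ofReal_mul (by positivity)]
    have h2 : ((2 : ENNReal) ^ Fintype.card ι) = ENNReal.ofReal (2 ^ Fintype.card ι) := by
      rw [ENNReal.ofReal_pow (by norm_num)]; norm_num
    rw [h2, ENNReal.ofReal_lt_ofReal_iff_of_nonneg (by positivity), Finset.prod_mul_distrib,
      Finset.prod_const, Finset.card_univ]
    have h3 : 0 < |A.det| := abs_pos.2 hA
    rw [inv_mul_eq_div, lt_div_iff₀ h3]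
    exact mul_lt_mul_of_pos_left h (by positivity)
  have : Countable (Submodule.span ℤ (Set.range b)).toAddSubgroup := by
    change Countable (Submodule.span ℤ (Set.range b))
    infer_instance
  obtain ⟨x, hx0, hxs⟩ := exists_ne_zero_mem_lattice_of_measure_mul_two_pow_lt_measure
    (L := (Submodule.span ℤ (Set.range b)).toAddSubgroup) fund hsymm hconv hlt
  have hint : ∀ i, ∃ n : ℤ, (n : ℝ) = (x : ι → ℝ) i := by
    intro i
    have h1 : (x : ι → ℝ) ∈ Submodule.span ℤ (Set.range b) := x.2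
    rw [b.mem_span_iff_repr_mem ℤ] at h1
    obtain ⟨n, hn⟩ := h1 i
    exact ⟨n, by simpa [hb] using hn⟩
  choose v hv using hint
  refine ⟨v, fun h0 => hx0 ?_, ?_⟩
  · apply Subtype.ext
    funext i
    rw [← hv i, h0]
    simp
  · have h1 := (hmem _).1 hxs
    intro i
    have h2 : (fun j => (v j : ℝ)) = (x : ι → ℝ) := funext hv
    rw [h2]
    exact h1 i

end Pool.Agent.H27Dual
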