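import Pool.Agent.H27Dual.MQb
import Pool.Agent.H27Dual.DetNorm
import Pool.Agent.H27Dual.LinForms

/-! # Small integer polynomials modulo `Q`

Proof. `a = Q.leadingCoeff`, `Qm := C a⁻¹ * toR Q` monic of degree `d`. `Q` is irreducible over `ℚ` (Gauss: `Irreducible.isPrimitive`,
`IsPrimitive.Int.irreducible_iff_irreducible_map_cast`), hence separable (`Irreducible.separable`), so `rts Q` has no repetition: enumerate it as an
injective `α : Fin d → ℂ` (`card_rts`). By `h` no `R(α)` is zero, so `R` and `Qm` are coprime (`Polynomial.isCoprime_iff_aeval_ne_zero_of_isAlgClosed ℂ`): `u R + v Qm = 1`. On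
`ι = Fin d ⊕ Fin l` let `A = Matrix.fromBlocks M B 0 (a⁻¹ • 1)` with `M i j = ((u X^j) %ₘ Qm).coeff i`, `B i k = ((u X^(d+k)) %ₘ Qm).coeff i`.
`det A = det M * a^(-l)` (`Matrix.det_fromBlocks_zero₂₁`), `|det M| = ∏ ‖u(α i)‖ = ∏ ‖R(α i)‖⁻¹` (`det_mulMod`; `u(α) R(α) = 1`). With `c = δ` on `Fin d`, `c = 1` on `Fin l`:
`|det A| < ∏ c` is `h`. `linForms` gives `v ≠ 0`; `F := ∑_{j<d} v_j X^j + ∑_{k<l} v_{d+k} X^(d+k)`, `e := (u * toR F) %ₘ Qm`: its coefficients are `(A v)_j`, `j < d`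
(`%ₘ` is linear), so `|e_j| < δ`; `toR F - R e` is divisible by `Qm`, hence by `toR Q`. `Q ∣ F` is impossible: `F ≠ 0`, so `deg F ≥ d` and `a ∣ F.leadingCoeff`,
but `F.leadingCoeff` is one of the `v_{d+k}`, `|v_{d+k} / a| < 1`. -/

set_option autoImplicit false

namespace Pool.Agent.H27Dual

open Polynomial

private lemma nodup_rts {Q : ℤ[X]} (hQ : Irreducible Q) (hd1 : 1 ≤ Q.natDegree) :
    (rts Q).Nodup := by
  have hprim : Q.IsPrimitive := hQ.isPrimitive (by omega)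
  have h1 : Irreducible (Q.map (Int.castRingHom ℚ)) :=
    (IsPrimitive.Int.irreducible_iff_irreducible_map_cast hprim).1 hQ
  have h2 : (Q.map (Int.castRingHom ℚ)).Separable := h1.separable
  have h3 := h2.map (f := algebraMap ℚ ℂ)
  have h4 : (Q.map (Int.castRingHom ℚ)).map (algebraMap ℚ ℂ) = Q.map (Int.castRingHom ℂ) := by
    rw [Polynomial.map_map]
    congr 1
  rw [h4] at h3
  unfold rts
  exact nodup_roots h3

private lemma enum_rts {Q : ℤ[X]} (hQ : Irreducible Q) {d : ℕ} (hd : Q.natDegree = d)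
    (hd1 : 1 ≤ d) : ∃ α : Fin d → ℂ, Function.Injective α ∧ (∀ i, aeval (α i) Q = 0) ∧
      (∀ f : ℂ → ℝ, ((rts Q).map f).prod = ∏ i, f (α i)) := by
  classical
  have hn := nodup_rts hQ (by omega)
  have hc : (rts Q).toFinset.card = d := by
    rw [Multiset.toFinset_card_of_nodup hn, card_rts, hd]
  let e := Finset.equivFinOfCardEq hc
  refine ⟨fun i => (e.symm i : ℂ), ?_, ?_, ?_⟩
  · intro i j hij
    exact e.symm.injective (Subtype.ext hij)
  · intro i
    rw [← mem_rts hQ.ne_zero]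
    have := (e.symm i).2
    rwa [Multiset.mem_toFinset] at this
  · intro f
    rw [Equiv.prod_comp e.symm (fun x : (rts Q).toFinset => f (x : ℂ))]
    rw [Finset.prod_coe_sort (rts Q).toFinset f]
    rw [Finset.prod, Multiset.toFinset_val, Multiset.dedup_eq_self.2 hn]

private lemma aeval_toR' (Q : ℤ[X]) (z : ℂ) : aeval z (toR Q) = aeval z Q := by
  unfold toR
  rw [← algebraMap_int_eq, aeval_map_algebraMap]

private lemma lc_ne {Q : ℤ[X]} (hQ0 : Q ≠ 0) : ((Q.leadingCoeff : ℤ) : ℝ) ≠ 0 := by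
  exact_mod_cast leadingCoeff_ne_zero.2 hQ0

private lemma coprime_main {Q : ℤ[X]} (hQ0 : Q ≠ 0) (R : ℝ[X])
    (hR : ∀ z : ℂ, aeval z Q = 0 → aeval z R ≠ 0) :
    IsCoprime R (C ((Q.leadingCoeff : ℝ)⁻¹) * toR Q) := by
  refine (isCoprime_iff_aeval_ne_zero_of_isAlgClosed ℝ ℂ R _).2 ?_
  intro z
  by_cases hz : aeval z Q = 0
  · exact Or.inl (hR z hz)
  · right
    rw [map_mul, aeval_C, aeval_toR']
    refine mul_ne_zero ?_ hz
    simp [hQ0]

private lemma lc_toR (Q : ℤ[X]) : (toR Q).leadingCoeff = (Q.leadingCoeff : ℝ) := by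
  unfold toR
  rw [leadingCoeff_map_of_injective (RingHom.injective_int (Int.castRingHom ℝ))]
  rfl

private lemma natDegree_toR (Q : ℤ[X]) : (toR Q).natDegree = Q.natDegree := by
  unfold toR
  exact natDegree_map_eq_of_injective (RingHom.injective_int (Int.castRingHom ℝ)) Q

private lemma Qm_monic {Q : ℤ[X]} (hQ0 : Q ≠ 0) :
    (C ((Q.leadingCoeff : ℝ)⁻¹) * toR Q).Monic := by
  unfold Monic
  rw [leadingCoeff_mul, leadingCoeff_C, lc_toR, inv_mul_cancel₀ (lc_ne hQ0)]

private lemma Qm_deg {Q : ℤ[X]} (hQ0 : Q ≠ 0) :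
    (C ((Q.leadingCoeff : ℝ)⁻¹) * toR Q).natDegree = Q.natDegree := by
  rw [natDegree_C_mul (inv_ne_zero (lc_ne hQ0)), natDegree_toR]

/-- the exponent -/
private def ex {d l : ℕ} : Fin d ⊕ Fin l → ℕ
  | Sum.inl j => j
  | Sum.inr k => d + k

private lemma ex_inj {d l : ℕ} : Function.Injective (ex : Fin d ⊕ Fin l → ℕ) := by
  rintro (i | i) (j | j) h
  · simp only [ex] at h
    rw [Fin.ext h]
  · simp only [ex] at h
    have := i.2
    omega
  · simp only [ex] at h
    have := j.2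
    omega
  · simp only [ex] at h
    rw [Fin.ext (by omega : (i : ℕ) = j)]

private lemma ex_lt {d l : ℕ} (i : Fin d ⊕ Fin l) : ex i < d + l := by
  rcases i with i | i
  · simp only [ex]
    have := i.2
    omega
  · simp only [ex]
    have := i.2
    omega

private lemma coeff_F {d l : ℕ} (v : Fin d ⊕ Fin l → ℤ) (i : Fin d ⊕ Fin l) :
    (∑ j, C (v j) * X ^ (ex j) : ℤ[X]).coeff (ex i) = v i := by
  rw [finsetSum_coeff]
  rw [Finset.sum_eq_single i]
  · simp
  · intro j _ hj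
    rw [coeff_C_mul, coeff_X_pow, if_neg, mul_zero]
    intro h
    exact hj (ex_inj h.symm)
  · intro h
    exact absurd (Finset.mem_univ _) h

private lemma coeff_F_zero {d l : ℕ} (v : Fin d ⊕ Fin l → ℤ) (m : ℕ)
    (hm : ∀ i : Fin d ⊕ Fin l, ex i ≠ m) :
    (∑ j, C (v j) * X ^ (ex j) : ℤ[X]).coeff m = 0 := by
  rw [finsetSum_coeff]
  refine Finset.sum_eq_zero (fun j _ => ?_)
  rw [coeff_C_mul, coeff_X_pow, if_neg, mul_zero]
  exact fun h => hm j h.symm

theorem exists_F {Q : ℤ[X]} (hQ : Irreducible Q) {d : ℕ} (hd : Q.natDegree = d) (hd1 : 1 ≤ d)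
    (R : ℝ[X]) (l : ℕ) {δ : ℝ} (hδ : 0 < δ)
    (h : 1 < δ ^ d * ((rts Q).map fun α => ‖aeval α R‖).prod * |(Q.leadingCoeff : ℝ)| ^ l) :
    ∃ (F : ℤ[X]) (e : ℝ[X]), F.natDegree < d + l ∧ ¬ Q ∣ F ∧ e.natDegree < d ∧
      (∀ j, |e.coeff j| < δ) ∧ toR Q ∣ toR F - R * e := by
  classical
  have hQ0 : Q ≠ 0 := hQ.ne_zero
  obtain ⟨α, hinj, hroot, hprod⟩ := enum_rts hQ hd hd1
  set a : ℝ := (Q.leadingCoeff : ℝ) with ha
  have ha0 : a ≠ 0 := lc_ne hQ0
  have hapos : 0 < |a| := abs_pos.2 ha0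
  set Qm : ℝ[X] := C (a⁻¹) * toR Q with hQm
  have hmon : Qm.Monic := Qm_monic hQ0
  have hdeg : Qm.natDegree = d := by rw [hQm, ha, Qm_deg hQ0, hd]
  rw [hprod] at h
  -- `R` does not vanish at the roots
  have hRα : ∀ i, aeval (α i) R ≠ 0 := by
    intro i hi
    have : ∏ i, ‖aeval (α i) R‖ = 0 :=
      Finset.prod_eq_zero (Finset.mem_univ i) (by rw [hi, norm_zero])
    rw [this] at h
    norm_num at h
  have hR : ∀ z : ℂ, aeval z Q = 0 → aeval z R ≠ 0 := by
    intro z hz hzR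
    have hmem : z ∈ rts Q := (mem_rts hQ0).2 hz
    have h0 : ((rts Q).map fun α => ‖aeval α R‖).prod = 0 := by
      apply Multiset.prod_eq_zero
      rw [Multiset.mem_map]
      exact ⟨z, hmem, by rw [hzR, norm_zero]⟩
    rw [hprod] at h0
    rw [h0] at h
    norm_num at h
  obtain ⟨u, w, huw⟩ := coprime_main hQ0 R hR
  rw [← ha, ← hQm] at huw
  have hQmα : ∀ i, aeval (α i) Qm = 0 := by
    intro i
    rw [hQm, map_mul, aeval_toR', hroot, mul_zero]
  have huα : ∀ i, ‖aeval (α i) u‖ = ‖aeval (α i) R‖⁻¹ := by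
    intro i
    have h1 := congrArg (aeval (α i)) huw
    rw [map_add, map_mul, map_mul, hQmα, mul_zero, add_zero, map_one] at h1
    have h2 : ‖aeval (α i) u‖ * ‖aeval (α i) R‖ = 1 := by rw [← norm_mul, h1, norm_one]
    exact eq_inv_of_mul_eq_one_left h2
  -- the matrix
  let M : Matrix (Fin d) (Fin d) ℝ := Matrix.of fun i j => ((u * X ^ (j : ℕ)) %ₘ Qm).coeff i
  let B : Matrix (Fin d) (Fin l) ℝ := Matrix.of fun i k => ((u * X ^ (d + (k : ℕ))) %ₘ Qm).coeff i
  let A : Matrix (Fin d ⊕ Fin l) (Fin d ⊕ Fin l) ℝ :=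
    Matrix.fromBlocks M B 0 ((a⁻¹) • (1 : Matrix (Fin l) (Fin l) ℝ))
  have hM : |M.det| = (∏ i, ‖aeval (α i) R‖)⁻¹ := by
    have h1 := det_mulMod hmon hdeg α hinj hQmα u
    have h2 : ‖((M.det : ℝ) : ℂ)‖ = ∏ i, ‖aeval (α i) u‖ := by
      rw [← norm_prod]
      exact congrArg norm h1
    rw [Complex.norm_real, Real.norm_eq_abs] at h2
    rw [h2, ← Finset.prod_inv_distrib]
    exact Finset.prod_congr rfl (fun i _ => huα i)
  have hAdet : A.det = M.det * (a⁻¹) ^ l := by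
    simp only [A]
    rw [Matrix.det_fromBlocks_zero₂₁, Matrix.det_smul, Matrix.det_one, mul_one, Fintype.card_fin]
  have hPpos : 0 < ∏ i, ‖aeval (α i) R‖ :=
    Finset.prod_pos (fun i _ => norm_pos_iff.2 (hRα i))
  have hAabs : |A.det| = (∏ i, ‖aeval (α i) R‖)⁻¹ * (|a| ^ l)⁻¹ := by
    rw [hAdet, abs_mul, hM, abs_pow, abs_inv, inv_pow]
  have hA0 : A.det ≠ 0 := by
    intro h0
    rw [h0, abs_zero] at hAabs
    have : 0 < (∏ i, ‖aeval (α i) R‖)⁻¹ * (|a| ^ l)⁻¹ := by positivity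
    linarith
  let c : Fin d ⊕ Fin l → ℝ := Sum.elim (fun _ => δ) (fun _ => 1)
  have hc : ∀ i, 0 < c i := by
    rintro (i | i)
    · exact hδ
    · exact one_pos
  have hcprod : ∏ i, c i = δ ^ d := by
    rw [Fintype.prod_sum_type]
    simp [c]
  have hlt : |A.det| < ∏ i, c i := by
    rw [hcprod, hAabs]
    have h1 : (∏ i, ‖aeval (α i) R‖)⁻¹ * (|a| ^ l)⁻¹ = 1 / ((∏ i, ‖aeval (α i) R‖) * |a| ^ l) := by
      rw [one_div, mul_inv]
    rw [h1, div_lt_iff₀ (by positivity)]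
    calc 1 < _ := h
      _ = _ := by ring
  obtain ⟨v, hv0, hv⟩ := linForms A hA0 c hc hlt
  -- the polynomials
  set F : ℤ[X] := ∑ j, C (v j) * X ^ (ex j) with hF
  have hFR : toR F = ∑ j, C ((v j : ℤ) : ℝ) * X ^ (ex j) := by
    rw [hF]
    unfold toR
    rw [Polynomial.map_sum]
    refine Finset.sum_congr rfl (fun j _ => ?_)
    rw [Polynomial.map_mul, Polynomial.map_C, Polynomial.map_pow, Polynomial.map_X]
    rfl
  have hF0 : F ≠ 0 := by
    intro h0
    apply hv0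
    funext i
    have h1 := coeff_F v i
    rw [← hF, h0, coeff_zero] at h1
    exact h1.symm
  have hFdeg : F.natDegree < d + l := by
    by_contra hcon
    push Not at hcon
    have h1 : F.coeff F.natDegree = 0 := by
      rw [hF]
      apply coeff_F_zero
      intro i hi
      have := ex_lt i
      rw [hF] at hcon
      omega
    exact hF0 (leadingCoeff_eq_zero.1 h1)
  have he : (u * toR F) %ₘ Qm = ∑ j, ((v j : ℤ) : ℝ) • ((u * X ^ (ex j)) %ₘ Qm) := by
    have h1 : u * toR F = ∑ j, ((v j : ℤ) : ℝ) • (u * X ^ (ex j)) := by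
      rw [hFR, Finset.mul_sum]
      refine Finset.sum_congr rfl (fun j _ => ?_)
      rw [smul_eq_C_mul]
      ring
    have h2 : ∀ p : ℝ[X], p %ₘ Qm = modByMonicHom Qm p := fun p => rfl
    rw [h1, h2, map_sum]
    refine Finset.sum_congr rfl (fun j _ => ?_)
    rw [map_smul]
    rfl
  have hQm1 : Qm ≠ 1 := by
    intro h1
    rw [h1, natDegree_one] at hdeg
    omega
  have hedeg : ((u * toR F) %ₘ Qm).natDegree < d := by
    have := natDegree_modByMonic_lt (u * toR F) hmon hQm1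
    rwa [hdeg] at this
  refine ⟨F, (u * toR F) %ₘ Qm, hFdeg, ?_, hedeg, ?_, ?_⟩
  · rintro ⟨G, hG⟩
    have hG0 : G ≠ 0 := by
      rintro rfl
      exact hF0 (by rw [hG, mul_zero])
    have hnd : F.natDegree = d + G.natDegree := by
      rw [hG, natDegree_mul hQ0 hG0, hd]
    have hkl : G.natDegree < l := by omega
    have hlcF : F.leadingCoeff = v (Sum.inr ⟨G.natDegree, hkl⟩) := by
      have h1 := coeff_F v (Sum.inr ⟨G.natDegree, hkl⟩)
      rw [← hF] at h1
      rw [leadingCoeff, hnd]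
      exact h1
    have hlc2 : F.leadingCoeff = Q.leadingCoeff * G.leadingCoeff := by
      rw [hG, leadingCoeff_mul]
    have h3 := hv (Sum.inr ⟨G.natDegree, hkl⟩)
    have h4 : A.mulVec (fun j => (v j : ℝ)) (Sum.inr ⟨G.natDegree, hkl⟩)
        = a⁻¹ * (v (Sum.inr ⟨G.natDegree, hkl⟩) : ℝ) := by
      simp only [A, Matrix.mulVec, dotProduct]
      rw [Fintype.sum_sum_type]
      simp only [Matrix.fromBlocks_apply₂₁, Matrix.fromBlocks_apply₂₂, Matrix.zero_apply,
        zero_mul, Finset.sum_const_zero, zero_add, Matrix.smul_apply, smul_eq_mul]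
      rw [Finset.sum_eq_single ⟨G.natDegree, hkl⟩]
      · rw [Matrix.one_apply_eq, mul_one]
      · intro j _ hj
        rw [Matrix.one_apply_ne hj.symm]
        ring
      · intro h
        exact absurd (Finset.mem_univ _) h
    rw [h4, ← hlcF, hlc2] at h3
    push_cast at h3
    rw [← ha, ← mul_assoc, inv_mul_cancel₀ ha0, one_mul] at h3
    simp only [c, Sum.elim_inr] at h3
    have h5 : |G.leadingCoeff| < 1 := by exact_mod_cast h3
    have h6 := leadingCoeff_ne_zero.2 hG0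
    have h7 := Int.one_le_abs h6
    omega
  · intro j
    by_cases hj : j < d
    · have h3 := hv (Sum.inl ⟨j, hj⟩)
      have h4 : A.mulVec (fun j => (v j : ℝ)) (Sum.inl ⟨j, hj⟩)
          = ((u * toR F) %ₘ Qm).coeff j := by
        rw [he, finsetSum_coeff, Fintype.sum_sum_type]
        simp only [A, Matrix.mulVec, dotProduct]
        rw [Fintype.sum_sum_type]
        congr 1
        · refine Finset.sum_congr rfl (fun i _ => ?_)
          simp only [Matrix.fromBlocks_apply₁₁, M, Matrix.of_apply, coeff_smul, smul_eq_mul, ex]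
          ring
        · refine Finset.sum_congr rfl (fun i _ => ?_)
          simp only [Matrix.fromBlocks_apply₁₂, B, Matrix.of_apply, coeff_smul, smul_eq_mul, ex]
          ring
      rw [h4] at h3
      exact h3
    · rw [coeff_eq_zero_of_natDegree_lt (by omega), abs_zero]
      exact hδ
  · have h1 : toR Q ∣ Qm := ⟨C (a⁻¹), by rw [hQm]; ring⟩
    refine h1.trans ⟨w * toR F + R * ((u * toR F) /ₘ Qm), ?_⟩
    rw [modByMonic_eq_sub_mul_div]
    linear_combination (-toR F) * huw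

end Pool.Agent.H27Dual
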