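import Mathlib

/-! # Sign changes and real roots

Proof. `roots_of_alt`: intermediate value theorem on `[x (i+1), x i]`: a root `z i` in the open interval; the `z i` are distinct (`n` of them, `s` = their set); if there were another complex root, `q` (mapped to `ℂ`)
would have `n + 1` roots, but `q ≠ 0` has degree `≤ n`. `coeff_le_of_alt`: if `|E.coeff n| > |P.coeff n|` let `c = P.coeff n / E.coeff n`, `|c| < 1`; `q := P - c E` has degree `< n` (`coeff n = 0`; for `n = 0`: `q = 0`) and
`0 < (-1)^i q(x i)`, so by the first theorem (with `n`) it has `n` distinct roots and is not zero: contradiction. -/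

set_option autoImplicit false

namespace Pool.Agent.H27Dual

open Polynomial

private theorem Sturm_anti {n : ℕ} (x : ℕ → ℝ) (hx : ∀ i < n, x (i + 1) < x i) :
    ∀ j ≤ n, ∀ i ≤ j, x j ≤ x i := by
  intro j
  induction j with
  | zero => intro _ i hi; rw [Nat.le_zero.mp hi]
  | succ j ih =>
    intro hj i hi
    rcases Nat.lt_or_ge j i with h | h
    · have : i = j + 1 := by omega
      rw [this]
    · exact le_trans (hx j (by omega)).le (ih (by omega) i h)

private theorem Sturm_ivt {n : ℕ} {q : ℝ[X]} (x : ℕ → ℝ)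
    (hx : ∀ i < n, x (i + 1) < x i) (hs : ∀ i ≤ n, 0 < (-1) ^ i * q.eval (x i)) (i : ℕ)
    (hi : i < n) : ∃ z, x (i + 1) < z ∧ z < x i ∧ q.eval z = 0 := by
  have h1 : 0 < (-1) ^ i * q.eval (x i) := hs i hi.le
  have h2 : (-1) ^ i * q.eval (x (i + 1)) < 0 := by
    have := hs (i + 1) hi
    rw [pow_succ] at this
    linarith
  have hc : ContinuousOn (fun t => (-1 : ℝ) ^ i * q.eval t) (Set.Icc (x (i + 1)) (x i)) :=
    (continuous_const.mul q.continuous).continuousOn
  obtain ⟨z, hz, hz0⟩ := intermediate_value_Ioo (hx i hi).le hc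
    (show (0 : ℝ) ∈ Set.Ioo ((-1 : ℝ) ^ i * q.eval (x (i + 1))) ((-1 : ℝ) ^ i * q.eval (x i)) from
      ⟨h2, h1⟩)
  refine ⟨z, hz.1, hz.2, ?_⟩
  have h3 : (-1 : ℝ) ^ i ≠ 0 := pow_ne_zero _ (by norm_num)
  exact (mul_eq_zero.mp hz0).resolve_left h3

theorem roots_of_alt {n : ℕ} {q : ℝ[X]} (hq : q.natDegree ≤ n) (x : ℕ → ℝ)
    (hx : ∀ i < n, x (i + 1) < x i) (hs : ∀ i ≤ n, 0 < (-1) ^ i * q.eval (x i)) :
    ∃ s : Finset ℝ, s.card = n ∧ (∀ z ∈ s, x n < z ∧ z < x 0 ∧ q.eval z = 0) ∧
      ∀ z : ℂ, aeval z q = 0 → ∃ y ∈ s, z = (y : ℂ) := by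
  have hanti := Sturm_anti x hx
  have hex : ∀ i, ∃ z, i < n → (x (i + 1) < z ∧ z < x i ∧ q.eval z = 0) := by
    intro i
    by_cases hi : i < n
    · obtain ⟨z, hz⟩ := Sturm_ivt x hx hs i hi
      exact ⟨z, fun _ => hz⟩
    · exact ⟨0, fun h => absurd h hi⟩
  choose z hz using hex
  have hlt : ∀ i j, i < j → j < n → z j < z i := by
    intro i j hij hj
    have h1 := (hz j hj).2.1
    have h2 := hanti j hj.le (i + 1) hij
    have h3 := (hz i (by omega)).1
    linarith
  have hinj : Set.InjOn z (Finset.range n : Set ℕ) := by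
    intro i hi j hj hij
    have hi' : i < n := by simpa using hi
    have hj' : j < n := by simpa using hj
    rcases lt_trichotomy i j with h | h | h
    · exact absurd hij (hlt i j h hj').ne'
    · exact h
    · exact absurd hij (hlt j i h hi').ne
  have hcard : ((Finset.range n).image z).card = n := by
    rw [Finset.card_image_of_injOn hinj, Finset.card_range]
  have hq0 : q ≠ 0 := by
    intro h
    have := hs 0 (Nat.zero_le _)
    rw [h] at this
    simp at this
  have hroot : ∀ y ∈ (Finset.range n).image z, x n < y ∧ y < x 0 ∧ q.eval y = 0 := by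
    intro y hy
    obtain ⟨i, hi, rfl⟩ := Finset.mem_image.mp hy
    have hi' : i < n := by simpa using hi
    obtain ⟨h1, h2, h3⟩ := hz i hi'
    exact ⟨lt_of_le_of_lt (hanti n le_rfl (i + 1) hi') h1,
      lt_of_lt_of_le h2 (hanti i hi'.le 0 (Nat.zero_le _)), h3⟩
  refine ⟨(Finset.range n).image z, hcard, hroot, ?_⟩
  intro w hw
  classical
  have hQ0 : q.map (algebraMap ℝ ℂ) ≠ 0 := by
    rw [Ne, Polynomial.map_eq_zero]
    exact hq0
  have hsub : ((Finset.range n).image z).image (fun y : ℝ => (y : ℂ)) ⊆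
      (q.map (algebraMap ℝ ℂ)).roots.toFinset := by
    intro y hy
    obtain ⟨t, ht, rfl⟩ := Finset.mem_image.mp hy
    rw [Multiset.mem_toFinset, mem_roots hQ0, IsRoot.def, eval_map]
    have h0 := (hroot t ht).2.2
    have h1 : eval₂ (algebraMap ℝ ℂ) ((algebraMap ℝ ℂ) t) q = (algebraMap ℝ ℂ) (q.eval t) := by
      rw [eval₂_at_apply]
    have h2 : ((algebraMap ℝ ℂ) t) = (t : ℂ) := rfl
    rw [← h2, h1, h0, map_zero]
  have hle : (q.map (algebraMap ℝ ℂ)).roots.toFinset.card ≤
      (((Finset.range n).image z).image (fun y : ℝ => (y : ℂ))).card := by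
    rw [Finset.card_image_of_injective _ Complex.ofReal_injective, hcard]
    calc _ ≤ Multiset.card (q.map (algebraMap ℝ ℂ)).roots := Multiset.toFinset_card_le _
      _ ≤ (q.map (algebraMap ℝ ℂ)).natDegree := card_roots' _
      _ ≤ q.natDegree := natDegree_map_le
      _ ≤ n := hq
  have heq := Finset.eq_of_subset_of_card_le hsub hle
  have hwm : w ∈ (q.map (algebraMap ℝ ℂ)).roots.toFinset := by
    rw [Multiset.mem_toFinset, mem_roots hQ0, IsRoot.def, eval_map]
    rw [aeval_def] at hw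
    exact hw
  rw [← heq] at hwm
  obtain ⟨y, hy, hyw⟩ := Finset.mem_image.mp hwm
  exact ⟨y, hy, hyw.symm⟩

theorem coeff_le_of_alt {n : ℕ} {P E : ℝ[X]} (hP : P.natDegree ≤ n) (hE : E.natDegree ≤ n)
    (x : ℕ → ℝ) (hx : ∀ i < n, x (i + 1) < x i)
    (hs : ∀ i ≤ n, |E.eval (x i)| < (-1) ^ i * P.eval (x i)) :
    |E.coeff n| ≤ |P.coeff n| := by
  by_contra hcon
  push Not at hcon
  have hE0 : 0 < |E.coeff n| := lt_of_le_of_lt (abs_nonneg _) hcon
  have hE1 : E.coeff n ≠ 0 := abs_pos.mp hE0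
  set c : ℝ := P.coeff n / E.coeff n with hc
  have hc1 : |c| ≤ 1 := by
    rw [hc, abs_div, div_le_one hE0]
    exact hcon.le
  set q : ℝ[X] := P - C c * E with hqdef
  have hqdeg : q.natDegree ≤ n :=
    (natDegree_sub_le _ _).trans (max_le hP ((natDegree_C_mul_le _ _).trans hE))
  have hqn : q.coeff n = 0 := by
    rw [hqdef, coeff_sub, coeff_C_mul, hc]
    field_simp
    ring
  have hqs : ∀ i ≤ n, 0 < (-1) ^ i * q.eval (x i) := by
    intro i hi
    have h1 := hs i hi
    have h2 : (-1 : ℝ) ^ i * q.eval (x i) =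
        (-1) ^ i * P.eval (x i) - (-1) ^ i * (c * E.eval (x i)) := by
      rw [hqdef]; simp; ring
    have h3 : (-1 : ℝ) ^ i * (c * E.eval (x i)) ≤ |E.eval (x i)| := by
      calc (-1 : ℝ) ^ i * (c * E.eval (x i)) ≤ |(-1 : ℝ) ^ i * (c * E.eval (x i))| := le_abs_self _
        _ = |c| * |E.eval (x i)| := by
          rw [abs_mul, abs_mul, abs_pow, abs_neg, abs_one, one_pow, one_mul]
        _ ≤ 1 * |E.eval (x i)| := mul_le_mul_of_nonneg_right hc1 (abs_nonneg _)
        _ = _ := one_mul _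
    rw [h2]
    linarith
  obtain ⟨s, hcard, hroot, -⟩ := roots_of_alt hqdeg x hx hqs
  have hq0 : q ≠ 0 := by
    intro h
    have := hqs 0 (Nat.zero_le _)
    rw [h] at this
    simp at this
  have hle : n ≤ q.natDegree := by
    classical
    rw [← hcard]
    have hsub : s ⊆ q.roots.toFinset := by
      intro z hz
      rw [Multiset.mem_toFinset, mem_roots hq0, IsRoot.def]
      exact (hroot z hz).2.2
    calc s.card ≤ q.roots.toFinset.card := Finset.card_le_card hsub
      _ ≤ Multiset.card q.roots := Multiset.toFinset_card_le _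
      _ ≤ q.natDegree := card_roots' _
  have heq : q.natDegree = n := le_antisymm hqdeg hle
  have : q.leadingCoeff = 0 := by rw [leadingCoeff, heq, hqn]
  exact hq0 (leadingCoeff_eq_zero.mp this)

end Pool.Agent.H27Dual
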