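import Pool.Agent.H27Dual.Cover
import Pool.Agent.H27Dual.APoly
import Pool.Agent.H27Dual.CoefA
import Pool.Agent.H27Dual.Alt
import Pool.Agent.H27Dual.Sturm
import Pool.Agent.H27Dual.Eis

/-! # Irreducible polynomials with all zeros in `(0,1)` and small leading coefficient

Proof. `cover` with `η = 1/8` and `max K 1`: `k ≥ K`, `k ≥ 1`, `n := k N`. `A` from `exists_A`. `G` for `F := (A - X^n - 2)/4`; `q0 := X^n + 2 + 4 G`. On the circle
`|A(xOf w) - q0(xOf w)| = 4 |F - G| ≤ Om^k / 2`. With the points `w i` of `exists_alt`, `x i := xOf (w i)`: `A(x i) = Re (Z^k) = (-1)^i Om^k` (`exists_A` at `w i`, `Z_inv`, `J_eq_xOf`). So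
`(-1)^i q0(x i) ≥ Om^k / 2 > 0`: `roots_of_alt` (`0 ≤ x n`, `x 0 ≤ 1`). `E := A - q0`: `|E(x i)| < (-1)^i A(x i)`, `coeff_le_of_alt`: `|lead q0| ≤ 2 |A.coeff n| ≤ 2 exp(n L)`
(`coeff_A_le`). `q0.coeff n = 1 + 4 G.coeff n` is odd (`n ≥ 1`), so `deg q0 = n`; the other coefficients are even and `q0.coeff 0 = 2 + 4 G.coeff 0`. `q := q0.primPart` (`irr_primPart`;
same degree, same roots, `|lead q| ≤ |lead q0|`, since `q0 = C content * q`, `content ≠ 0`). -/

set_option autoImplicit false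

namespace Pool.Agent.H27Dual

open Polynomial

theorem FinalQ_xOf_mem {w : ℂ} (hw : ‖w‖ = 1) : 0 ≤ xOf w ∧ xOf w ≤ 1 := by
  have h1 := Complex.abs_re_le_norm w
  rw [hw, abs_le] at h1
  unfold xOf
  constructor <;> linarith [h1.1, h1.2]

/-- `A (x i) = (-1)^i Om^k` -/
theorem FinalQ_eval_A (D : Dat) {k : ℕ} {A : ℝ[X]}
    (hA : ∀ w : ℂ, w ≠ 0 → aeval (J w) A = (D.Z w ^ k + D.Z w⁻¹ ^ k) / 2) {w : ℂ}
    (hw : ‖w‖ = 1) {i : ℕ} (hZ : D.Z w ^ k = (-1) ^ i * (D.Om w : ℂ) ^ k) :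
    A.eval (xOf w) = (-1) ^ i * D.Om w ^ k := by
  have hw0 : w ≠ 0 := by
    rintro rfl
    rw [norm_zero] at hw
    exact zero_ne_one hw
  have h1 := hA w hw0
  rw [D.Z_inv hw, ← map_pow, hZ, J_eq_xOf hw] at h1
  have h2 : aeval ((xOf w : ℝ) : ℂ) A = ((A.eval (xOf w) : ℝ) : ℂ) := by
    have := Polynomial.aeval_algebraMap_apply ℂ (xOf w) A
    rw [Polynomial.coe_aeval_eq_eval] at this
    exact this
  rw [h2] at h1
  have h3 : (starRingEnd ℂ) ((-1) ^ i * (D.Om w : ℂ) ^ k) = (-1) ^ i * (D.Om w : ℂ) ^ k := by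
    rw [map_mul, map_pow, map_pow, map_neg, map_one, Complex.conj_ofReal]
  rw [h3] at h1
  have h4 : ((A.eval (xOf w) : ℝ) : ℂ) = (((-1) ^ i * D.Om w ^ k : ℝ) : ℂ) := by
    rw [h1]
    push_cast
    ring
  exact_mod_cast h4

theorem exists_q {D : Dat} {ε : ℝ} (hA : D.Adm ε) (K : ℕ) : ∃ q : ℤ[X], Irreducible q ∧
    K ≤ q.natDegree ∧ 1 ≤ q.natDegree ∧
    (∀ z : ℂ, aeval z q = 0 → ∃ x : ℝ, 0 < x ∧ x < 1 ∧ z = (x : ℂ)) ∧
    |(q.leadingCoeff : ℝ)| ≤ 2 * Real.exp (q.natDegree * D.L) := by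
  obtain ⟨k, hk, hcov⟩ := cover hA (show (0 : ℝ) < 1 / 8 by norm_num) (max K 1)
  have hkK : K ≤ k := le_trans (le_max_left _ _) hk
  have hk1 : 1 ≤ k := le_trans (le_max_right _ _) hk
  obtain ⟨A, hAdeg, hAeq⟩ := exists_A D k
  obtain ⟨w, hw1, hw2, hw3⟩ := exists_alt D hk1
  set n : ℕ := k * D.N with hn
  have hkn : k ≤ n := by
    rw [hn]
    exact Nat.le_mul_of_pos_right _ D.hN
  have hn1 : 1 ≤ n := hk1.trans hkn
  have hXn : ((X : ℝ[X]) ^ n).natDegree ≤ n := by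
    rw [natDegree_X_pow]
  have hF : (C (1 / 4 : ℝ) * (A - X ^ n - C 2)).natDegree ≤ n := by
    refine (natDegree_C_mul_le _ _).trans ?_
    refine (natDegree_sub_le _ _).trans (max_le ?_ ?_)
    · exact (natDegree_sub_le _ _).trans (max_le hAdeg hXn)
    · rw [natDegree_C]
      exact Nat.zero_le _
  obtain ⟨G, hGdeg, hG⟩ := hcov _ hF
  set q0 : ℤ[X] := X ^ n + C 2 + C 4 * G with hq0
  have hq0R : toR q0 = X ^ n + C 2 + C 4 * toR G := by
    rw [hq0]
    unfold toR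
    rw [Polynomial.map_add, Polynomial.map_add, Polynomial.map_mul, Polynomial.map_pow, map_X,
      map_C, map_C]
    norm_num
  have hE : A - toR q0 = C 4 * (C (1 / 4 : ℝ) * (A - X ^ n - C 2) - toR G) := by
    rw [hq0R, mul_sub, ← mul_assoc, ← C_mul, show (4 : ℝ) * (1 / 4) = 1 by norm_num, C_1, one_mul]
    ring
  have hEb : ∀ v : ℂ, ‖v‖ = 1 → |(A - toR q0).eval (xOf v)| ≤ D.Om v ^ k / 2 := by
    intro v hv
    have h1 := hG v hv
    rw [Polynomial.coe_aeval_eq_eval] at h1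
    rw [hE, eval_mul, eval_C, abs_mul, abs_of_pos (show (0 : ℝ) < 4 by norm_num)]
    linarith
  have hq0n : q0.coeff n = 1 + 4 * G.coeff n := by
    rw [hq0, coeff_add, coeff_add, coeff_X_pow_self, coeff_C_mul, coeff_C_of_ne_zero (by omega)]
    ring
  have hq0i : ∀ i < n, i ≠ 0 → q0.coeff i = 4 * G.coeff i := by
    intro i hi hi0
    rw [hq0, coeff_add, coeff_add, coeff_X_pow, if_neg (by omega), coeff_C_mul,
      coeff_C_of_ne_zero hi0]
    ring
  have hq00 : q0.coeff 0 = 2 + 4 * G.coeff 0 := by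
    rw [hq0, coeff_add, coeff_add, coeff_X_pow, if_neg (by omega), coeff_C_mul, coeff_C_zero]
    ring
  have hq0deg : q0.natDegree = n := by
    apply le_antisymm
    · rw [hq0]
      refine (natDegree_add_le _ _).trans (max_le ((natDegree_add_le _ _).trans (max_le ?_ ?_)) ?_)
      · rw [natDegree_X_pow]
      · rw [natDegree_C]
        exact Nat.zero_le _
      · exact (natDegree_C_mul_le _ _).trans hGdeg
    · apply le_natDegree_of_ne_zero
      rw [hq0n]
      omega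
  have hq0ne : q0 ≠ 0 := by
    intro h
    rw [h, natDegree_zero] at hq0deg
    omega
  have hR0deg : (toR q0).natDegree ≤ n := by
    rw [← hq0deg]
    exact natDegree_map_le
  -- signs
  set x : ℕ → ℝ := fun i => xOf (w i) with hx
  have hAx : ∀ i ≤ n, A.eval (x i) = (-1) ^ i * D.Om (w i) ^ k := fun i hi =>
    FinalQ_eval_A D hAeq (hw1 i hi) (hw3 i hi)
  have hsq : ∀ i : ℕ, ((-1 : ℝ) ^ i) * (-1) ^ i = 1 := by
    intro i
    rw [← mul_pow]
    norm_num
  have hOm : ∀ i ≤ n, 0 < D.Om (w i) ^ k := fun i hi => pow_pos (D.Om_pos (hw1 i hi).ge) k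
  have hsA : ∀ i ≤ n, (-1) ^ i * A.eval (x i) = D.Om (w i) ^ k := by
    intro i hi
    rw [hAx i hi, ← mul_assoc, hsq, one_mul]
  have hs1 : ∀ i ≤ n, 0 < (-1) ^ i * (toR q0).eval (x i) := by
    intro i hi
    have h1 := hEb (w i) (hw1 i hi)
    have h2 : (toR q0).eval (x i) = A.eval (x i) - (A - toR q0).eval (x i) := by
      rw [eval_sub]
      ring
    rw [h2, mul_sub, hsA i hi]
    have h3 : |(-1) ^ i * (A - toR q0).eval (x i)| ≤ D.Om (w i) ^ k / 2 := by
      rw [abs_mul, abs_pow, abs_neg, abs_one, one_pow, one_mul]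
      exact h1
    have h4 := (abs_le.1 h3).2
    have h5 := hOm i hi
    linarith
  obtain ⟨s, hs2, hs3, hs4⟩ := roots_of_alt hR0deg x hw2 hs1
  have hcoef : |(A - toR q0).coeff n| ≤ |A.coeff n| := by
    refine coeff_le_of_alt hAdeg ((natDegree_sub_le _ _).trans (max_le hAdeg hR0deg)) x hw2 ?_
    intro i hi
    rw [hsA i hi]
    have h1 := hEb (w i) (hw1 i hi)
    have h5 := hOm i hi
    exact lt_of_le_of_lt h1 (by linarith)
  have hAc := coeff_A_le D k hAdeg hAeq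
  have hlead : |(q0.leadingCoeff : ℝ)| ≤ 2 * Real.exp ((n : ℕ) * D.L) := by
    have h1 : (q0.leadingCoeff : ℝ) = (toR q0).coeff n := by
      unfold toR
      rw [coeff_map, leadingCoeff, hq0deg]
      rfl
    rw [coeff_sub] at hcoef
    rw [h1]
    have h2 := abs_sub_abs_le_abs_sub ((toR q0).coeff n) (A.coeff n)
    rw [abs_sub_comm] at h2
    have h3 : |A.coeff n| ≤ Real.exp ((n : ℕ) * D.L) := hAc
    linarith
  have hirr : Irreducible q0.primPart := by
    refine irr_primPart hn1 hq0deg ?_ ?_ ?_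
    · rw [hq0n]
      omega
    · intro i hi
      by_cases hi0 : i = 0
      · rw [hi0, hq00]
        omega
      · rw [hq0i i hi hi0]
        omega
    · rw [hq00]
      omega
  have hdeg : q0.primPart.natDegree = n := by rw [natDegree_primPart, hq0deg]
  refine ⟨q0.primPart, hirr, ?_, ?_, ?_, ?_⟩
  · rw [hdeg]
    exact hkK.trans hkn
  · rw [hdeg]
    exact hn1
  · intro z hz
    have h1 : aeval z q0 = 0 := by
      rw [q0.eq_C_content_mul_primPart, map_mul, hz, mul_zero]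
    have h2 : aeval z (toR q0) = 0 := by
      unfold toR
      rw [← h1, ← aeval_map_algebraMap ℝ z q0]
      rfl
    obtain ⟨y, hy, hzy⟩ := hs4 z h2
    obtain ⟨h3, h4, -⟩ := hs3 y hy
    refine ⟨y, ?_, ?_, hzy⟩
    · exact lt_of_le_of_lt (FinalQ_xOf_mem (hw1 n le_rfl)).1 h3
    · exact lt_of_lt_of_le h4 (FinalQ_xOf_mem (hw1 0 (Nat.zero_le _))).2
  · rw [hdeg]
    refine le_trans ?_ hlead
    have h1 : q0.leadingCoeff = q0.content * q0.primPart.leadingCoeff := by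
      conv_lhs => rw [q0.eq_C_content_mul_primPart]
      rw [leadingCoeff_mul, leadingCoeff_C]
    have h2 : q0.content ≠ 0 := by
      rw [Ne, content_eq_zero_iff]
      exact hq0ne
    have h3 : 1 ≤ |q0.content| := Int.one_le_abs h2
    have h4 : |q0.primPart.leadingCoeff| ≤ |q0.leadingCoeff| := by
      rw [h1, abs_mul]
      exact le_mul_of_one_le_left (abs_nonneg _) h3
    exact_mod_cast h4

end Pool.Agent.H27Dual
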