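import Pool.Agent.H27Dual.MQb

/-! # A finite grid which sees all polynomials

Proof. Choose `η > 0` with `(1 + η / (1 - r)) ^ 2 ≤ exp δ`; `G` = a finite `η`-net of the unit circle consisting of points of the circle
(`IsCompact.finite_cover_balls` for `Metric.sphere 0 1`, `isCompact_sphere`). For `F ≠ 0` take `x ∈ [0,1]` with `t ^ deg F ≤ |F(x)|`, `v := wOf x`
(`norm_wOf`, `xOf_wOf`), `g ∈ G` with `‖g - v‖ < η`. Then `(r t) ^ deg F ≤ r ^ deg F |F(xOf v)| ≤ MQ r F v ≤ MQ r F g (1 + η/(1-r)) ^ (2 deg F)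
≤ MQ r F g exp(δ) ^ deg F` (`le_MQ`, `MQ_le_MQ`). -/

set_option autoImplicit false

namespace Pool.Agent.H27Dual

open Polynomial

theorem exists_grid {t r δ : ℝ} (ht : 0 < t) (hr0 : 0 < r) (hr1 : r < 1) (hδ : 0 < δ)
    (hstar : ∀ F : ℤ[X], F ≠ 0 → ∃ x ∈ Set.Icc (0 : ℝ) 1, t ^ F.natDegree ≤ |aeval x F|) :
    ∃ G : Finset ℂ, G.Nonempty ∧ (∀ g ∈ G, ‖g‖ = 1) ∧ ∀ F : ℤ[X], F ≠ 0 →
      ∃ g ∈ G, (t * r * Real.exp (-δ)) ^ F.natDegree ≤ MQ r F g := by
  have hr : 0 < 1 - r := by linarith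
  have he1 : 1 < Real.exp (δ / 2) := Real.one_lt_exp_iff.2 (by positivity)
  have hη : 0 < (Real.exp (δ / 2) - 1) * (1 - r) := mul_pos (by linarith) hr
  obtain ⟨T, hTs, hTf, hTc⟩ := finite_cover_balls_of_compact
    (isCompact_sphere (0 : ℂ) 1) hη
  have hnorm : ∀ g ∈ T, ‖g‖ = 1 := by
    intro g hg
    have := hTs hg
    rwa [mem_sphere_zero_iff_norm] at this
  have hfind : ∀ v : ℂ, ‖v‖ = 1 → ∃ g ∈ T, ‖g - v‖ < (Real.exp (δ / 2) - 1) * (1 - r) := by
    intro v hv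
    have h1 : v ∈ ⋃ x ∈ T, Metric.ball x ((Real.exp (δ / 2) - 1) * (1 - r)) := by
      apply hTc
      rw [mem_sphere_zero_iff_norm]
      exact hv
    rw [Set.mem_iUnion₂] at h1
    obtain ⟨g, hg, hd⟩ := h1
    refine ⟨g, hg, ?_⟩
    rw [Metric.mem_ball, dist_comm, dist_eq_norm] at hd
    exact hd
  refine ⟨hTf.toFinset, ?_, ?_, ?_⟩
  · obtain ⟨g, hg, _⟩ := hfind 1 (by simp)
    exact ⟨g, by simpa using hg⟩
  · intro g hg
    exact hnorm g (by simpa using hg)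
  · intro F hF
    obtain ⟨x, hx, hxF⟩ := hstar F hF
    obtain ⟨g, hg, hgv⟩ := hfind (wOf x) (norm_wOf hx)
    refine ⟨g, by simpa using hg, ?_⟩
    have h1 := le_MQ hr0.le hr1 (norm_wOf hx) F
    rw [xOf_wOf] at h1
    have h2 := MQ_le_MQ hr0.le hr1 (hnorm g hg) (norm_wOf hx) F
    have h3 : (1 + ‖g - wOf x‖ / (1 - r)) ^ (2 * F.natDegree)
        ≤ Real.exp δ ^ F.natDegree := by
      have h4 : 1 + ‖g - wOf x‖ / (1 - r) ≤ Real.exp (δ / 2) := by
        have h5 : ‖g - wOf x‖ / (1 - r) ≤ Real.exp (δ / 2) - 1 := by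
          rw [div_le_iff₀ hr]
          exact hgv.le
        linarith
      have h6 : Real.exp δ = Real.exp (δ / 2) ^ 2 := by
        rw [← Real.exp_nat_mul]
        congr 1
        push_cast
        ring
      rw [h6, ← pow_mul]
      exact pow_le_pow_left₀ (by positivity) h4 _
    have h7 : 0 < MQ r F g := MQ_pos hr0.le hr1 (hnorm g hg) hF
    have h8 : r ^ F.natDegree * t ^ F.natDegree ≤ MQ r F g * Real.exp δ ^ F.natDegree := by
      calc r ^ F.natDegree * t ^ F.natDegree ≤ r ^ F.natDegree * |aeval x F| :=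
            mul_le_mul_of_nonneg_left hxF (by positivity)
        _ ≤ _ := h1
        _ ≤ _ := h2
        _ ≤ _ := mul_le_mul_of_nonneg_left h3 h7.le
    have h9 : (t * r * Real.exp (-δ)) ^ F.natDegree
        = (r ^ F.natDegree * t ^ F.natDegree) * Real.exp (-δ) ^ F.natDegree := by
      rw [mul_pow, mul_pow]
      ring
    rw [h9]
    have h10 : Real.exp δ ^ F.natDegree * Real.exp (-δ) ^ F.natDegree = 1 := by
      rw [← mul_pow, ← Real.exp_add]
      simp
    calc (r ^ F.natDegree * t ^ F.natDegree) * Real.exp (-δ) ^ F.natDegree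
        ≤ (MQ r F g * Real.exp δ ^ F.natDegree) * Real.exp (-δ) ^ F.natDegree :=
          mul_le_mul_of_nonneg_right h8 (by positivity)
      _ = MQ r F g * (Real.exp δ ^ F.natDegree * Real.exp (-δ) ^ F.natDegree) := by ring
      _ = MQ r F g := by rw [h10, mul_one]

end Pool.Agent.H27Dual
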