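import Pool.Agent.H27Dual.Defs

/-! # The kernel

Proofs. `J w - J v = (w - v)(w v - 1) / (4 w v)` and `‖w v - 1‖ = ‖w - v̄‖` for `‖v‖ = 1` (multiply by `v̄`).
`norm_J_sub` is `ker 1 v w`. `le_ker`: `‖w - r v‖² - r ‖w - v‖² = (1 - r)(‖w‖² - r) ≥ 0` for `‖v‖ = 1 ≤ ‖w‖`, so
`‖w - r v‖ ≥ √r ‖w - v‖`; the same for `v̄` (norm one as well); multiply.
`ker_le_ker`: `‖w - r v'‖ ≤ ‖w - r v‖ + r ‖v - v'‖` and `‖w - r v‖ ≥ 1 - r`, so
`‖w - r v'‖ ≤ ‖w - r v‖ (1 + ‖v - v'‖ / (1 - r))`; the same for the conjugates.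
`ker_congr`: `w' = w` or `w' = w̄`. Bounds for `‖w‖ = 1`: `1 - r ≤ ‖w - r v‖ ≤ 2`. -/

set_option autoImplicit false

namespace Pool.Agent.H27Dual

open Polynomial

theorem J_eq_xOf {w : ℂ} (hw : ‖w‖ = 1) : J w = (xOf w : ℂ) := by
  have h1 : w⁻¹ = (starRingEnd ℂ) w := Complex.inv_eq_conj hw
  have h2 := Complex.add_conj w
  unfold J xOf
  rw [h1, add_assoc, h2]
  push_cast
  ring

theorem xOf_mem {w : ℂ} (hw : ‖w‖ = 1) : xOf w ∈ Set.Icc (0 : ℝ) 1 := by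
  have h := Complex.abs_re_le_norm w
  rw [hw, abs_le] at h
  unfold xOf
  constructor <;> linarith [h.1, h.2]

theorem norm_wOf {x : ℝ} (hx : x ∈ Set.Icc (0 : ℝ) 1) : ‖wOf x‖ = 1 := by
  have h1 : 0 ≤ 1 - (2 * x - 1) ^ 2 := by nlinarith [hx.1, hx.2]
  have h2 : Complex.normSq (wOf x) = 1 := by
    unfold wOf
    rw [Complex.normSq_mk, ← pow_two (Real.sqrt _), Real.sq_sqrt h1]
    ring
  rw [← sq_eq_sq₀ (norm_nonneg _) zero_le_one, ← Complex.normSq_eq_norm_sq, h2]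
  norm_num

theorem xOf_wOf (x : ℝ) : xOf (wOf x) = x := by
  unfold xOf wOf
  ring

theorem continuous_wOf : Continuous wOf := by
  have e : wOf = fun x : ℝ => ((2 * x - 1 : ℝ) : ℂ)
      + ((Real.sqrt (1 - (2 * x - 1) ^ 2) : ℝ) : ℂ) * Complex.I := by
    funext x
    unfold wOf
    rw [Complex.mk_eq_add_mul_I]
  rw [e]
  fun_prop

private lemma v_mul_conj {v : ℂ} (hv : ‖v‖ = 1) : v * (starRingEnd ℂ) v = 1 := by
  rw [Complex.mul_conj, Complex.normSq_eq_norm_sq, hv]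
  norm_num

theorem norm_J_sub {w v : ℂ} (hw : w ≠ 0) (hv : ‖v‖ = 1) :
    ‖J w - J v‖ = ‖w - v‖ * ‖w - (starRingEnd ℂ) v‖ / (4 * ‖w‖) := by
  have h1 : v⁻¹ = (starRingEnd ℂ) v := Complex.inv_eq_conj hv
  have h2 := v_mul_conj hv
  have e : J w - J v = (w - v) * (w - (starRingEnd ℂ) v) / (4 * w) := by
    unfold J
    rw [h1]
    field_simp
    linear_combination -h2
  rw [e, norm_div, norm_mul, norm_mul]
  norm_num

private lemma norm_conj_eq {v : ℂ} (hv : ‖v‖ = 1) : ‖(starRingEnd ℂ) v‖ = 1 := by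
  rw [Complex.norm_conj, hv]

private lemma norm_smul_eq {r : ℝ} (h0 : 0 ≤ r) {v : ℂ} (hv : ‖v‖ = 1) : ‖(r : ℂ) * v‖ = r := by
  rw [norm_mul, hv, mul_one, Complex.norm_real, Real.norm_eq_abs, abs_of_nonneg h0]

private lemma lower {r : ℝ} (h0 : 0 ≤ r) {v w : ℂ} (hv : ‖v‖ = 1) (hw : 1 ≤ ‖w‖) :
    1 - r ≤ ‖w - r * v‖ := by
  have h := norm_sub_norm_le w ((r : ℂ) * v)
  rw [norm_smul_eq h0 hv] at h
  linarith

private lemma upper {r : ℝ} (h0 : 0 ≤ r) {v w : ℂ} (hv : ‖v‖ = 1) :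
    ‖w - r * v‖ ≤ ‖w‖ + r := by
  have h := norm_sub_le w ((r : ℂ) * v)
  rw [norm_smul_eq h0 hv] at h
  linarith

theorem ker_pos {r : ℝ} (h0 : 0 ≤ r) (h1 : r < 1) {v w : ℂ} (hv : ‖v‖ = 1) (hw : 1 ≤ ‖w‖) :
    0 < ker r v w := by
  have a1 := lower h0 hv hw
  have a2 := lower h0 (norm_conj_eq hv) hw
  unfold ker
  have a3 : 0 < ‖w - r * v‖ := by linarith
  have a4 : 0 < ‖w - r * (starRingEnd ℂ) v‖ := by linarith
  have a5 : 0 < ‖w‖ := by linarith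
  positivity

private lemma sq_ineq {r : ℝ} (h1 : r ≤ 1) {v w : ℂ} (hv : ‖v‖ = 1)
    (hw : 1 ≤ ‖w‖) : r * ‖w - v‖ ^ 2 ≤ ‖w - r * v‖ ^ 2 := by
  have hv2 : v.re * v.re + v.im * v.im = 1 := by
    have := Complex.normSq_eq_norm_sq v
    rw [Complex.normSq_apply, hv] at this
    linarith
  have hw2 : 1 ≤ w.re * w.re + w.im * w.im := by
    have := Complex.normSq_eq_norm_sq w
    rw [Complex.normSq_apply] at this
    nlinarith
  rw [← Complex.normSq_eq_norm_sq, ← Complex.normSq_eq_norm_sq, Complex.normSq_apply,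
    Complex.normSq_apply]
  simp only [Complex.sub_re, Complex.sub_im, Complex.mul_re, Complex.mul_im, Complex.ofReal_re,
    Complex.ofReal_im, zero_mul, sub_zero, add_zero]
  have hkey : (w.re - r * v.re) * (w.re - r * v.re) + (w.im - r * v.im) * (w.im - r * v.im)
      - r * ((w.re - v.re) * (w.re - v.re) + (w.im - v.im) * (w.im - v.im))
      = (1 - r) * (w.re * w.re + w.im * w.im - r * (v.re * v.re + v.im * v.im)) := by ring
  have h3 : 0 ≤ (1 - r) * (w.re * w.re + w.im * w.im - r * (v.re * v.re + v.im * v.im)) := by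
    rw [hv2]
    refine mul_nonneg (by linarith) (by linarith)
  linarith

private lemma sqrt_ineq {r : ℝ} (h0 : 0 ≤ r) (h1 : r ≤ 1) {v w : ℂ} (hv : ‖v‖ = 1)
    (hw : 1 ≤ ‖w‖) : Real.sqrt r * ‖w - v‖ ≤ ‖w - r * v‖ := by
  refine abs_le_of_sq_le_sq' ?_ (norm_nonneg _) |>.2
  rw [mul_pow, Real.sq_sqrt h0]
  exact sq_ineq h1 hv hw

theorem le_ker {r : ℝ} (h0 : 0 ≤ r) (h1 : r ≤ 1) {v w : ℂ} (hv : ‖v‖ = 1) (hw : 1 ≤ ‖w‖) :
    r * ‖J w - J v‖ ≤ ker r v w := by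
  have hw0 : w ≠ 0 := by
    rintro rfl
    rw [norm_zero] at hw
    linarith
  have hwp : 0 < ‖w‖ := by linarith
  rw [norm_J_sub hw0 hv]
  unfold ker
  rw [← mul_div_assoc]
  refine div_le_div_of_nonneg_right ?_ (by positivity)
  have a1 := sqrt_ineq h0 h1 hv hw
  have a2 := sqrt_ineq h0 h1 (norm_conj_eq hv) hw
  have a3 := mul_le_mul a1 a2 (by positivity) (norm_nonneg _)
  have e : Real.sqrt r * ‖w - v‖ * (Real.sqrt r * ‖w - (starRingEnd ℂ) v‖)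
      = (Real.sqrt r) ^ 2 * (‖w - v‖ * ‖w - (starRingEnd ℂ) v‖) := by ring
  rw [e, Real.sq_sqrt h0] at a3
  exact a3

private lemma step {r : ℝ} (h0 : 0 ≤ r) (h1 : r < 1) {v v' w : ℂ} (hv : ‖v‖ = 1)
    (hw : 1 ≤ ‖w‖) : ‖w - r * v'‖ ≤ ‖w - r * v‖ * (1 + ‖v - v'‖ / (1 - r)) := by
  have a1 := lower h0 hv hw
  have hr : 0 < 1 - r := by linarith
  have e : w - r * v' = (w - r * v) + r * (v - v') := by ring
  have a2 : ‖w - r * v'‖ ≤ ‖w - r * v‖ + r * ‖v - v'‖ := by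
    rw [e]
    refine (norm_add_le _ _).trans ?_
    rw [norm_mul, Complex.norm_real, Real.norm_eq_abs, abs_of_nonneg h0]
  have a3 : r * ‖v - v'‖ ≤ ‖w - r * v‖ * (‖v - v'‖ / (1 - r)) := by
    have b1 : r * ‖v - v'‖ ≤ ‖v - v'‖ := by nlinarith [norm_nonneg (v - v')]
    have b2 : ‖v - v'‖ = (1 - r) * (‖v - v'‖ / (1 - r)) := by field_simp
    have b3 : (1 - r) * (‖v - v'‖ / (1 - r)) ≤ ‖w - r * v‖ * (‖v - v'‖ / (1 - r)) :=
      mul_le_mul_of_nonneg_right a1 (by positivity)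
    linarith
  calc ‖w - r * v'‖ ≤ ‖w - r * v‖ + r * ‖v - v'‖ := a2
    _ ≤ ‖w - r * v‖ + ‖w - r * v‖ * (‖v - v'‖ / (1 - r)) := by linarith
    _ = ‖w - r * v‖ * (1 + ‖v - v'‖ / (1 - r)) := by ring

theorem ker_le_ker {r : ℝ} (h0 : 0 ≤ r) (h1 : r < 1) {v v' w : ℂ} (hv : ‖v‖ = 1)
    (hv' : ‖v'‖ = 1) (hw : 1 ≤ ‖w‖) :
    ker r v' w ≤ ker r v w * (1 + ‖v - v'‖ / (1 - r)) ^ 2 := by
  have a1 := step h0 h1 (v' := v') hv hw
  have a2 := step h0 h1 (v' := (starRingEnd ℂ) v') (norm_conj_eq hv) hw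
  have e1 : ‖(starRingEnd ℂ) v - (starRingEnd ℂ) v'‖ = ‖v - v'‖ := by
    rw [← map_sub, Complex.norm_conj]
  rw [e1] at a2
  have hr : 0 < 1 - r := by linarith
  have hwp : 0 < ‖w‖ := by linarith
  have a3 := mul_le_mul a1 a2 (norm_nonneg _) (by positivity)
  unfold ker
  rw [div_mul_eq_mul_div]
  refine div_le_div_of_nonneg_right ?_ (by positivity)
  calc ‖w - r * v'‖ * ‖w - r * (starRingEnd ℂ) v'‖ ≤ _ := a3
    _ = _ := by ring

theorem ker_congr (r : ℝ) (v : ℂ) {w w' : ℂ} (hw : ‖w‖ = 1) (hw' : ‖w'‖ = 1)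
    (h : w.re = w'.re) : ker r v w = ker r v w' := by
  have h1 : w.re * w.re + w.im * w.im = 1 := by
    have := Complex.normSq_eq_norm_sq w
    rw [Complex.normSq_apply, hw] at this
    linarith
  have h2 : w'.re * w'.re + w'.im * w'.im = 1 := by
    have := Complex.normSq_eq_norm_sq w'
    rw [Complex.normSq_apply, hw'] at this
    linarith
  have h3 : w.im * w.im = w'.im * w'.im := by
    rw [h] at h1
    linarith
  rcases mul_self_eq_mul_self_iff.1 h3 with h4 | h4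
  · rw [Complex.ext h h4]
  · have e : w = (starRingEnd ℂ) w' := by
      apply Complex.ext
      · rw [Complex.conj_re, h]
      · rw [Complex.conj_im, h4]
    have e1 : ‖w - r * v‖ = ‖w' - r * (starRingEnd ℂ) v‖ := by
      rw [← Complex.norm_conj (w - r * v), e]
      simp
    have e2 : ‖w - r * (starRingEnd ℂ) v‖ = ‖w' - r * v‖ := by
      rw [← Complex.norm_conj (w - r * (starRingEnd ℂ) v), e]
      simp
    unfold ker
    rw [e1, e2, hw, hw']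
    ring

theorem ker_le_one {r : ℝ} (h0 : 0 ≤ r) (h1 : r < 1) {v w : ℂ} (hv : ‖v‖ = 1) (hw : ‖w‖ = 1) :
    ker r v w ≤ 1 := by
  have a1 := upper (w := w) h0 hv
  have a2 := upper (w := w) h0 (norm_conj_eq hv)
  rw [hw] at a1 a2
  unfold ker
  rw [hw]
  have b1 : ‖w - r * v‖ ≤ 2 := by linarith
  have b2 : ‖w - r * (starRingEnd ℂ) v‖ ≤ 2 := by linarith
  have b3 := mul_le_mul b1 b2 (norm_nonneg _) (by norm_num)
  linarith

theorem le_ker_unit {r : ℝ} (h0 : 0 ≤ r) (h1 : r < 1) {v w : ℂ} (hv : ‖v‖ = 1) (hw : ‖w‖ = 1) :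
    (1 - r) ^ 2 / 4 ≤ ker r v w := by
  have a1 := lower h0 hv hw.ge
  have a2 := lower h0 (norm_conj_eq hv) hw.ge
  have b3 := mul_le_mul a1 a2 (by linarith) (norm_nonneg _)
  unfold ker
  rw [hw]
  linarith

theorem continuousOn_ker (r : ℝ) (v : ℂ) : ContinuousOn (ker r v) {w | w ≠ 0} := by
  unfold ker
  refine ContinuousOn.div (by fun_prop) (by fun_prop) ?_
  intro w hw
  have : 0 < ‖w‖ := norm_pos_iff.2 hw
  positivity

end Pool.Agent.H27Dual
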