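import Pool.Agent.H27Dual.Ker

/-! # The products `M_r(Q, v)`

Proofs. `Q.map (Int.castRingHom ℂ)` splits (`IsAlgClosed.splits`), so it is
`C lead * ∏ (X - C α)`: `card_rts`, `norm_aeval_eq`. `MQ_mul`: `Polynomial.roots_mul`, `leadingCoeff_mul`. `MQ_prod`: induction.
`le_MQ`: `J v = xOf v` for `‖v‖ = 1` (`J_eq_xOf`), `|Q(xOf v)| = |lead| ∏ ‖J v - α‖` and `α = J (rootW α)`; use `le_ker` for every
root and `card_rts`. `MQ_le_MQ`: `ker_le_ker` for every root. `prod_MQ`: exchange the products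
(`Multiset.prod_map_prod` or induction). -/

set_option autoImplicit false

namespace Pool.Agent.H27Dual

open Polynomial

private theorem MQb_inj : Function.Injective (Int.castRingHom ℂ) := by
  intro a b h
  simpa using h

private theorem MQb_map_ne {Q : ℤ[X]} (hQ : Q ≠ 0) : Q.map (Int.castRingHom ℂ) ≠ 0 :=
  (Polynomial.map_ne_zero_iff MQb_inj).2 hQ

private theorem MQb_natDegree_map (Q : ℤ[X]) :
    (Q.map (Int.castRingHom ℂ)).natDegree = Q.natDegree :=
  natDegree_map_eq_of_injective MQb_inj Q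

private theorem MQb_lead (Q : ℤ[X]) :
    (Q.map (Int.castRingHom ℂ)).leadingCoeff = (Q.leadingCoeff : ℂ) := by
  rw [leadingCoeff_map_of_injective MQb_inj]
  simp

private theorem MQb_aeval (Q : ℤ[X]) (z : ℂ) :
    aeval z Q = (Q.map (Int.castRingHom ℂ)).eval z := by
  rw [eval_map, aeval_def]
  congr 1

theorem card_rts (Q : ℤ[X]) : (rts Q).card = Q.natDegree := by
  unfold rts
  rw [← MQb_natDegree_map Q]
  exact splits_iff_card_roots.1 (IsAlgClosed.splits _)

theorem mem_rts {Q : ℤ[X]} (hQ : Q ≠ 0) {z : ℂ} : z ∈ rts Q ↔ aeval z Q = 0 := by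
  unfold rts
  rw [mem_roots (MQb_map_ne hQ), IsRoot.def, MQb_aeval]

theorem norm_aeval_eq (Q : ℤ[X]) (z : ℂ) :
    ‖aeval z Q‖ = |(Q.leadingCoeff : ℝ)| * ((rts Q).map fun α => ‖z - α‖).prod := by
  have h1 := C_leadingCoeff_mul_prod_multiset_X_sub_C
    (p := Q.map (Int.castRingHom ℂ))
    (splits_iff_card_roots.1 (IsAlgClosed.splits _))
  rw [MQb_aeval]
  conv_lhs => rw [← h1]
  rw [eval_mul, eval_C, MQb_lead, norm_mul]
  congr 1
  · simp
  · rw [eval_multiset_prod, Multiset.map_map]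
    unfold rts
    have h2 : ∀ s : Multiset ℂ, ‖s.prod‖ = (s.map fun a => ‖a‖).prod := by
      intro s
      induction s using Multiset.induction_on with
      | empty => simp
      | cons a s ih => simp [ih]
    rw [h2, Multiset.map_map]
    congr 1
    apply Multiset.map_congr rfl
    intro a _
    simp

theorem rts_mul {P Q : ℤ[X]} (hP : P ≠ 0) (hQ : Q ≠ 0) : rts (P * Q) = rts P + rts Q := by
  unfold rts
  rw [Polynomial.map_mul]
  exact roots_mul (mul_ne_zero (MQb_map_ne hP) (MQb_map_ne hQ))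

theorem MQ_pos {r : ℝ} (h0 : 0 ≤ r) (h1 : r < 1) {v : ℂ} (hv : ‖v‖ = 1) {Q : ℤ[X]}
    (hQ : Q ≠ 0) : 0 < MQ r Q v := by
  unfold MQ
  apply mul_pos
  · rw [abs_pos]
    exact_mod_cast leadingCoeff_ne_zero.2 hQ
  · apply Multiset.prod_pos
    intro a ha
    rw [Multiset.mem_map] at ha
    obtain ⟨α, _, rfl⟩ := ha
    exact ker_pos h0 h1 hv (one_le_rootW α)

theorem MQ_mul (r : ℝ) (v : ℂ) {P Q : ℤ[X]} (hP : P ≠ 0) (hQ : Q ≠ 0) :
    MQ r (P * Q) v = MQ r P v * MQ r Q v := by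
  unfold MQ
  rw [rts_mul hP hQ, Multiset.map_add, Multiset.prod_add, leadingCoeff_mul, Int.cast_mul, abs_mul]
  ring

private theorem MQb_one (r : ℝ) (v : ℂ) : MQ r 1 v = 1 := by
  unfold MQ rts
  simp

private theorem MQb_pow (r : ℝ) (v : ℂ) {P : ℤ[X]} (hP : P ≠ 0) (n : ℕ) :
    MQ r (P ^ n) v = MQ r P v ^ n := by
  induction n with
  | zero => simp [MQb_one]
  | succ n ih => rw [pow_succ, MQ_mul r v (pow_ne_zero n hP) hP, ih, pow_succ]

theorem MQ_prod (r : ℝ) (v : ℂ) {ι : Type*} (s : Finset ι) (f : ι → ℤ[X]) (n : ι → ℕ)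
    (hf : ∀ i ∈ s, f i ≠ 0) : MQ r (∏ i ∈ s, f i ^ n i) v = ∏ i ∈ s, MQ r (f i) v ^ n i := by
  classical
  induction s using Finset.induction_on with
  | empty => simp [MQb_one]
  | insert a s ha ih =>
    rw [Finset.prod_insert ha, Finset.prod_insert ha]
    have h1 : f a ≠ 0 := hf a (Finset.mem_insert_self a s)
    have h2 : ∀ i ∈ s, f i ≠ 0 := fun i hi => hf i (Finset.mem_insert_of_mem hi)
    rw [MQ_mul r v (pow_ne_zero _ h1)
      (Finset.prod_ne_zero_iff.2 fun i hi => pow_ne_zero _ (h2 i hi)), MQb_pow r v h1, ih h2]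

private theorem MQb_prod_le {s : Multiset ℂ} {f g : ℂ → ℝ} (hf : ∀ a ∈ s, 0 ≤ f a)
    (h : ∀ a ∈ s, f a ≤ g a) : (s.map f).prod ≤ (s.map g).prod ∧ 0 ≤ (s.map f).prod := by
  induction s using Multiset.induction_on with
  | empty => simp
  | cons a s ih =>
    obtain ⟨i1, i2⟩ := ih (fun b hb => hf b (Multiset.mem_cons_of_mem hb))
      (fun b hb => h b (Multiset.mem_cons_of_mem hb))
    have h1 := hf a (Multiset.mem_cons_self a s)
    have h2 := h a (Multiset.mem_cons_self a s)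
    rw [Multiset.map_cons, Multiset.prod_cons, Multiset.map_cons, Multiset.prod_cons]
    exact ⟨mul_le_mul h2 i1 i2 (h1.trans h2), mul_nonneg h1 i2⟩

private theorem MQb_prod_const (s : Multiset ℂ) (c : ℝ) (f : ℂ → ℝ) :
    (s.map fun a => c * f a).prod = c ^ s.card * (s.map f).prod := by
  induction s using Multiset.induction_on with
  | empty => simp
  | cons a s ih =>
    rw [Multiset.map_cons, Multiset.prod_cons, Multiset.map_cons, Multiset.prod_cons, ih,
      Multiset.card_cons, pow_succ]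
    ring

theorem le_MQ {r : ℝ} (h0 : 0 ≤ r) (h1 : r < 1) {v : ℂ} (hv : ‖v‖ = 1) (Q : ℤ[X]) :
    r ^ Q.natDegree * |aeval (xOf v) Q| ≤ MQ r Q v := by
  have e1 : |aeval (xOf v) Q| = ‖aeval (J v) Q‖ := by
    rw [J_eq_xOf hv]
    have : aeval ((xOf v : ℝ) : ℂ) Q = ((aeval (xOf v) Q : ℝ) : ℂ) := by
      have := aeval_algebraMap_apply ℂ (xOf v) Q
      simpa using this
    rw [this, Complex.norm_real, Real.norm_eq_abs]
  rw [e1, norm_aeval_eq, MQ]
  have h2 : r ^ Q.natDegree * ((rts Q).map fun α => ‖J v - α‖).prod ≤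
      ((rts Q).map fun α => ker r v (rootW α)).prod := by
    rw [← card_rts Q, ← MQb_prod_const]
    refine (MQb_prod_le ?_ ?_).1
    · intro a _
      positivity
    · intro a _
      have := le_ker h0 h1.le hv (one_le_rootW a)
      rw [J_rootW] at this
      rwa [norm_sub_rev] at this
  calc r ^ Q.natDegree * (|(Q.leadingCoeff : ℝ)| * ((rts Q).map fun α => ‖J v - α‖).prod)
      = |(Q.leadingCoeff : ℝ)| * (r ^ Q.natDegree * ((rts Q).map fun α => ‖J v - α‖).prod) := by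
        ring
    _ ≤ _ := mul_le_mul_of_nonneg_left h2 (abs_nonneg _)

theorem MQ_le_MQ {r : ℝ} (h0 : 0 ≤ r) (h1 : r < 1) {v v' : ℂ} (hv : ‖v‖ = 1) (hv' : ‖v'‖ = 1)
    (Q : ℤ[X]) : MQ r Q v' ≤ MQ r Q v * (1 + ‖v - v'‖ / (1 - r)) ^ (2 * Q.natDegree) := by
  unfold MQ
  have h2 : ((rts Q).map fun α => ker r v' (rootW α)).prod ≤
      ((rts Q).map fun α => ker r v (rootW α)).prod *
        (1 + ‖v - v'‖ / (1 - r)) ^ (2 * Q.natDegree) := by
    rw [pow_mul, ← card_rts Q, mul_comm ((rts Q).map fun α => ker r v (rootW α)).prod,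
      ← MQb_prod_const]
    refine (MQb_prod_le ?_ ?_).1
    · intro a _
      exact (ker_pos h0 h1 hv' (one_le_rootW a)).le
    · intro a _
      have := ker_le_ker h0 h1 hv hv' (one_le_rootW a)
      linarith
  calc |(Q.leadingCoeff : ℝ)| * ((rts Q).map fun α => ker r v' (rootW α)).prod
      ≤ |(Q.leadingCoeff : ℝ)| * (((rts Q).map fun α => ker r v (rootW α)).prod *
        (1 + ‖v - v'‖ / (1 - r)) ^ (2 * Q.natDegree)) :=
        mul_le_mul_of_nonneg_left h2 (abs_nonneg _)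
    _ = _ := by ring

private theorem MQb_exch {n : ℕ} (s : Multiset ℂ) (f : Fin n → ℂ → ℝ) :
    ∏ j, (s.map fun a => f j a).prod = (s.map fun a => ∏ j, f j a).prod := by
  induction s using Multiset.induction_on with
  | empty => simp
  | cons a s ih =>
    simp only [Multiset.map_cons, Multiset.prod_cons, Finset.prod_mul_distrib, ih]

theorem prod_MQ (D : Dat) (Q : ℤ[X]) : ∏ j, MQ D.r Q (D.v j) =
    |(Q.leadingCoeff : ℝ)| ^ D.N * ((rts Q).map fun α => D.Om0 (rootW α)).prod := by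
  unfold MQ Dat.Om0
  rw [Finset.prod_mul_distrib, Finset.prod_const, Finset.card_univ, Fintype.card_fin,
    MQb_exch (rts Q) fun j α => ker D.r (D.v j) (rootW α)]

theorem Dat.Adm.prod_Om {D : Dat} {ε : ℝ} (hA : D.Adm ε) {Q : ℤ[X]} (hQ : Q ≠ 0) :
    Real.exp (ε * (D.N * Q.natDegree)) ≤
      |(Q.leadingCoeff : ℝ)| ^ D.N * ((rts Q).map fun α => D.Om (rootW α)).prod := by
  have h1 := hA.h Q hQ
  rw [prod_MQ] at h1
  unfold Dat.Om
  rw [MQb_prod_const, card_rts, ← Real.exp_nat_mul]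
  refine h1.trans (le_of_eq ?_)
  have : D.L * (D.N * Q.natDegree) = (Q.natDegree : ℝ) * (D.N * D.L) := by ring
  rw [this]
  ring

end Pool.Agent.H27Dual
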