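import Pool.Agent.H27Dual.FinalQ
import Pool.Agent.H27Dual.AdmEx
import Pool.Agent.H27Cheb.Transfer

/-! # Strong duality for the integer Chebyshev constant of `[0,1]` -/

set_option autoImplicit false

namespace Pool.Agent.H27Dual

open Polynomial Filter Topology H27Cheb

/-- `q` is irreducible in `ℤ[x]`, of positive degree, and all its complex zeros lie in `[0,1]`. -/
def TotIrr (q : ℤ[X]) : Prop :=
  Irreducible q ∧ 1 ≤ q.natDegree ∧
    ∀ z : ℂ, aeval z q = 0 → ∃ x ∈ Set.Icc (0 : ℝ) 1, z = (x : ℂ)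

/-- `|a|^{1/d}` for an integer polynomial of degree `d` with leading coefficient `a` -/
noncomputable def leadRoot (q : ℤ[X]) : ℝ :=
  |(q.leadingCoeff : ℝ)| ^ (1 / (q.natDegree : ℝ))

theorem eval_toR (p : ℤ[X]) (x : ℝ) :
    (p.map (Int.castRingHom ℝ)).eval x = aeval x p := by
  rw [eval_map, aeval_def]
  rfl

theorem abs_lead_ge {q : ℤ[X]} (hq : q ≠ 0) : (1 : ℝ) ≤ |(q.leadingCoeff : ℝ)| := by
  have h : (1 : ℤ) ≤ |q.leadingCoeff| := Int.one_le_abs (leadingCoeff_ne_zero.2 hq)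
  exact_mod_cast h

theorem ker_half_ge {w : ℂ} (hw : 1 ≤ ‖w‖) : (1 / 16 : ℝ) ≤ ker (1 / 2) 1 w := by
  unfold ker
  have h1 : ‖w‖ - 1 / 2 ≤ ‖w - ((1 / 2 : ℝ) : ℂ) * 1‖ := by
    have h := norm_sub_norm_le w (((1 / 2 : ℝ) : ℂ) * 1)
    have h2 : ‖((1 / 2 : ℝ) : ℂ) * 1‖ = 1 / 2 := by
      rw [mul_one, Complex.norm_real]; norm_num
    rw [h2] at h
    exact h
  have h3 : ‖w - ((1 / 2 : ℝ) : ℂ) * (starRingEnd ℂ) 1‖ = ‖w - ((1 / 2 : ℝ) : ℂ) * 1‖ := by
    rw [map_one]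
  rw [h3, le_div_iff₀ (by positivity)]
  have h4 : (‖w‖ - 1 / 2) * (‖w‖ - 1 / 2) ≤
      ‖w - ((1 / 2 : ℝ) : ℂ) * 1‖ * ‖w - ((1 / 2 : ℝ) : ℂ) * 1‖ :=
    mul_self_le_mul_self (by linarith) h1
  nlinarith

/-- the auxiliary weight used for the trivial lower bound -/
noncomputable def D0 : Dat where
  N := 1
  v := fun _ => 1
  r := 1 / 2
  L := 0
  hN := le_rfl
  hv := fun _ => by simp
  r0 := by norm_num
  r1 := by norm_num

theorem pow_le_MQ {p : ℤ[X]} (hp : p ≠ 0) : (1 / 16 : ℝ) ^ p.natDegree ≤ MQ (1 / 2) p 1 := by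
  unfold MQ
  have h1 : (1 / 16 : ℝ) ^ p.natDegree ≤ ((rts p).map fun α => ker (1 / 2) 1 (rootW α)).prod := by
    rw [← card_rts p]
    induction rts p using Multiset.induction with
    | empty => simp
    | cons a s ih =>
      rw [Multiset.card_cons, pow_succ, Multiset.map_cons, Multiset.prod_cons, mul_comm]
      exact mul_le_mul (ker_half_ge (one_le_rootW a)) ih (by positivity)
        ((by norm_num : (0:ℝ) ≤ 1 / 16).trans (ker_half_ge (one_le_rootW a)))
  calc (1 / 16 : ℝ) ^ p.natDegree ≤ 1 * ((rts p).map fun α => ker (1 / 2) 1 (rootW α)).prod := by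
        rw [one_mul]; exact h1
    _ ≤ _ := mul_le_mul_of_nonneg_right (abs_lead_ge hp) (le_trans (by positivity) h1)

theorem lower16 {p : ℤ[X]} (hp : p ≠ 0) {n : ℕ} (hn : p.natDegree ≤ n) :
    (1 / 16 : ℝ) ^ n ≤ supNorm01 p := by
  refine le_of_forall_pos_le_add fun ε hε => ?_
  have h1 := max_principle D0 hp 0 (C := supNorm01 p + ε)
    (by have := supNorm01_nonneg p; linarith) (fun w hw => by
      rw [pow_zero, mul_one, ← eval_toR]
      have hx := xOf_mem hw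
      exact (le_supNorm01 p hx.1 hx.2).trans (by linarith))
  have h2 : ∏ l, MQ D0.r p (D0.v l) = MQ (1 / 2) p 1 := by
    have : ∏ l : Fin 1, MQ (1 / 2) p 1 = MQ (1 / 2) p 1 := by simp
    exact this
  rw [h2, pow_zero, mul_one] at h1
  have h3 : (supNorm01 p + ε) ^ D0.N = supNorm01 p + ε := pow_one _
  rw [h3] at h1
  calc (1 / 16 : ℝ) ^ n ≤ (1 / 16 : ℝ) ^ p.natDegree :=
        pow_le_pow_of_le_one (by norm_num) (by norm_num) hn
    _ ≤ MQ (1 / 2) p 1 := pow_le_MQ hp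
    _ ≤ _ := h1

theorem exists_abs_eq (p : ℤ[X]) : ∃ x ∈ Set.Icc (0 : ℝ) 1, |aeval x p| = supNorm01 p := by
  have hc : ContinuousOn (fun x : ℝ => |(p.map (Int.castRingHom ℝ)).eval x|) (Set.Icc 0 1) :=
    (p.map (Int.castRingHom ℝ)).continuous.abs.continuousOn
  obtain ⟨x, hx, hmax⟩ := isCompact_Icc.exists_isMaxOn (Set.nonempty_Icc.2 zero_le_one) hc
  refine ⟨x, hx, le_antisymm ?_ ?_⟩
  · rw [← eval_toR]; exact le_supNorm01 p hx.1 hx.2
  · refine supNorm01_le fun y h0 h1 => ?_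
    have h2 : |(p.map (Int.castRingHom ℝ)).eval y| ≤ |(p.map (Int.castRingHom ℝ)).eval x| :=
      hmax (show y ∈ Set.Icc (0 : ℝ) 1 from ⟨h0, h1⟩)
    rwa [eval_toR p x] at h2

theorem pow_le_supNorm {t : ℝ} (ht : 0 ≤ t) (h : ∀ n ≥ 1, t ≤ mZ n) {p : ℤ[X]} (hp : p ≠ 0) :
    t ^ p.natDegree ≤ supNorm01 p := by
  rcases Nat.eq_zero_or_pos p.natDegree with h0 | h1
  · have h2 := lower16 hp (n := 0) (by omega)
    rw [h0]
    simpa using h2
  · have h2 : t ≤ supNorm01 p ^ (1 / (p.natDegree : ℝ)) := (h _ h1).trans (mZ_le hp le_rfl)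
    have hn : (p.natDegree : ℝ) ≠ 0 := by positivity
    calc t ^ p.natDegree ≤ (supNorm01 p ^ (1 / (p.natDegree : ℝ))) ^ p.natDegree :=
          pow_le_pow_left₀ ht h2 _
      _ = supNorm01 p := by
          rw [← Real.rpow_natCast, ← Real.rpow_mul (supNorm01_nonneg p), one_div_mul_cancel hn,
            Real.rpow_one]

theorem leadRoot_pow {q : ℤ[X]} (hd : 1 ≤ q.natDegree) :
    leadRoot q ^ q.natDegree = |(q.leadingCoeff : ℝ)| := by
  have hn : (q.natDegree : ℝ) ≠ 0 := by positivity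
  unfold leadRoot
  rw [← Real.rpow_natCast, ← Real.rpow_mul (abs_nonneg _), one_div_mul_cancel hn, Real.rpow_one]

theorem one_le_leadRoot {q : ℤ[X]} (hd : 1 ≤ q.natDegree) : 1 ≤ leadRoot q := by
  have hq : q ≠ 0 := fun h => by rw [h, natDegree_zero] at hd; omega
  exact Real.one_le_rpow (abs_lead_ge hq) (by positivity)

/-- the classical half -/
theorem finite_below {t : ℝ} (ht : 0 < t) (hlim : Tendsto mZ atTop (𝓝 t)) {s : ℝ}
    (hs : s < 1 / t) : {q : ℤ[X] | TotIrr q ∧ leadRoot q ≤ s}.Finite := by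
  rcases lt_or_ge s 1 with hs1 | hs1
  · convert Set.finite_empty
    refine Set.eq_empty_iff_forall_notMem.2 ?_
    rintro q ⟨⟨-, hd, -⟩, h⟩
    linarith [one_le_leadRoot hd]
  · have hs0 : 0 < s := by linarith
    have hts : t < 1 / s := by
      rw [lt_div_iff₀ ht] at hs
      rw [lt_div_iff₀ hs0]; linarith
    obtain ⟨n, hn1, hn⟩ := ((hlim.eventually_lt_const hts).and (eventually_ge_atTop 1)).exists
    obtain ⟨_, ⟨p, ⟨hp, hpn⟩, rfl⟩, hlt⟩ := exists_lt_of_csInf_lt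
      (s := ((fun p : ℤ[X] => supNorm01 p ^ (1 / (n : ℝ))) '' {p | p ≠ 0 ∧ p.natDegree ≤ n}))
      ⟨_, one_mem n⟩ hn1
    have hM : s ^ n * supNorm01 p < 1 := by
      have hn' : (n : ℝ) ≠ 0 := by positivity
      have h1 : supNorm01 p = (supNorm01 p ^ (1 / (n : ℝ))) ^ n := by
        rw [← Real.rpow_natCast, ← Real.rpow_mul (supNorm01_nonneg p), one_div_mul_cancel hn',
          Real.rpow_one]
      rw [h1, ← mul_pow]
      refine pow_lt_one₀ (mul_nonneg hs0.le (Real.rpow_nonneg (supNorm01_nonneg p) _)) ?_ (by omega)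
      have h2 : s * supNorm01 p ^ (1 / (n : ℝ)) < s * (1 / s) :=
        mul_lt_mul_of_pos_left hlt hs0
      rwa [mul_one_div_cancel hs0.ne'] at h2
    refine (finite_irr_dvd hp).subset ?_
    rintro q ⟨⟨hq, hd, hr⟩, hle⟩
    refine ⟨hq, ?_⟩
    by_contra hqp
    have h1 := easy hq hd hr hp hqp (M := supNorm01 p) (fun x hx => by
      rw [← eval_toR]; exact le_supNorm01 p hx.1 hx.2)
    have h2 : |(q.leadingCoeff : ℝ)| ^ p.natDegree ≤ (s ^ n) ^ q.natDegree := by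
      calc |(q.leadingCoeff : ℝ)| ^ p.natDegree ≤ |(q.leadingCoeff : ℝ)| ^ n :=
            pow_le_pow_right₀ (abs_lead_ge hq.ne_zero) hpn
        _ = (leadRoot q ^ n) ^ q.natDegree := by rw [← leadRoot_pow hd, ← pow_mul, ← pow_mul, mul_comm]
        _ ≤ (s ^ n) ^ q.natDegree := by
            have h0 : 0 ≤ leadRoot q := zero_le_one.trans (one_le_leadRoot hd)
            gcongr
    have h3 : 1 ≤ (s ^ n * supNorm01 p) ^ q.natDegree := by
      rw [mul_pow]
      exact h1.trans (mul_le_mul_of_nonneg_right h2 (pow_nonneg (supNorm01_nonneg p) _))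
    have h4 : (s ^ n * supNorm01 p) ^ q.natDegree < 1 :=
      pow_lt_one₀ (mul_nonneg (pow_nonneg hs0.le _) (supNorm01_nonneg p)) hM (by omega)
    linarith

/-- the new half -/
theorem exists_above {t : ℝ} (ht : 0 < t) (ht1 : t ≤ 1) (hmZ : ∀ n ≥ 1, t ≤ mZ n) {s : ℝ}
    (hs : 1 / t < s) (K : ℕ) : ∃ q : ℤ[X], TotIrr q ∧ K ≤ q.natDegree ∧ leadRoot q < s := by
  have hs0 : 0 < s := lt_trans (by positivity) hs
  have hlog : 0 < Real.log s + Real.log t := by
    rw [← Real.log_mul hs0.ne' ht.ne']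
    apply Real.log_pos
    rwa [div_lt_iff₀ ht] at hs
  set η := (Real.log s + Real.log t) / 2 with hη
  obtain ⟨D, ε, hA, hL⟩ := exists_adm ht ht1 (show 0 < η by positivity) (fun F hF => by
    obtain ⟨x, hx, hx'⟩ := exists_abs_eq F
    exact ⟨x, hx, hx' ▸ pow_le_supNorm ht.le hmZ hF⟩)
  have hLs : D.L + η ≤ Real.log s := by rw [hη] at *; linarith
  obtain ⟨K', hK'⟩ := exists_nat_gt (Real.log 2 / η)
  obtain ⟨q, hq, hK, hd, hr, hlead⟩ := exists_q hA (max K K')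
  refine ⟨q, ⟨hq, hd, fun z hz => ?_⟩, (le_max_left _ _).trans hK, ?_⟩
  · obtain ⟨x, h0, h1, rfl⟩ := hr z hz
    exact ⟨x, ⟨h0.le, h1.le⟩, rfl⟩
  · have hn0 : (0 : ℝ) < q.natDegree := by exact_mod_cast hd
    have hη0 : 0 < η := by positivity
    have hKn : (K' : ℝ) ≤ q.natDegree := by exact_mod_cast (le_max_right K K').trans hK
    have h2 : Real.log 2 < η * q.natDegree := by
      rw [div_lt_iff₀ hη0] at hK'
      nlinarith
    have h3 : 2 * Real.exp (q.natDegree * D.L) < s ^ q.natDegree := by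
      have e1 : s ^ q.natDegree = Real.exp (q.natDegree * Real.log s) := by
        rw [mul_comm, Real.exp_mul, Real.exp_log hs0, Real.rpow_natCast]
      have e2 : (2 : ℝ) = Real.exp (Real.log 2) := (Real.exp_log two_pos).symm
      rw [e1]
      conv_lhs => rw [e2]
      rw [← Real.exp_add, Real.exp_lt_exp]
      nlinarith
    have h4 : leadRoot q ^ q.natDegree < s ^ q.natDegree := by
      rw [leadRoot_pow hd]; exact hlead.trans_lt h3
    exact lt_of_pow_lt_pow_left₀ _ hs0.le h4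

/-- **Strong duality.** -/
theorem duality : ∃ t : ℝ, Tendsto mZ atTop (𝓝 t) ∧ 0 < t ∧ (∀ n : ℕ, 1 ≤ n → t ≤ mZ n) ∧
    (∀ s < 1 / t, {q : ℤ[X] | TotIrr q ∧ leadRoot q ≤ s}.Finite) ∧
    ∀ s > 1 / t, ∀ K : ℕ, ∃ q : ℤ[X], TotIrr q ∧ K ≤ q.natDegree ∧ leadRoot q < s := by
  obtain ⟨t, ht, h16, hle⟩ := exists_tendsto_mZ (c := 1 / 16) (by norm_num)
    (fun n hn => le_mZ_of_pow (by norm_num) (fun p hp k hk => lower16 hp hk) hn)
  have ht0 : 0 < t := lt_of_lt_of_le (by norm_num) h16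
  have ht1 : t ≤ 1 := by
    refine (hle 1 le_rfl).trans ((mZ_le (p := 1) one_ne_zero (by simp)).trans ?_)
    have : supNorm01 1 ≤ 1 := supNorm01_le fun x _ _ => by simp
    exact Real.rpow_le_one (supNorm01_nonneg _) this (by positivity)
  exact ⟨t, ht, ht0, hle, fun s hs => finite_below ht0 ht hs,
    fun s hs K => exists_above ht0 ht1 hle hs K⟩

end Pool.Agent.H27Dual
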