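import Pool.Agent.H27Dual.MQb
import Pool.Agent.H27Dual.OmB

/-! # The maximum principle

Proof. Let `H(ζ) = lead(S) ∏_α (w_α - ζ)(w̄_α - ζ) / (4 ‖w_α‖)` (product over `α ∈ rts S`, `w_α = rootW α`) and
`h(ζ) = ∏_j (1 - r v_j ζ)(1 - r v̄_j ζ) / 4`. For `‖ζ‖ = 1`: `‖ζ - w̄‖ = ‖w - ζ̄‖`, so by `norm_J_sub` (roles: `‖J w_α - J ζ‖ = ‖w_α - ζ‖ ‖w_α - ζ̄‖ / (4 ‖w_α‖)`)
`‖H ζ‖ = ‖S(J ζ)‖ = |S(xOf ζ)|` (`norm_aeval_eq`, `J_eq_xOf`), and `‖1 - r v ζ‖ = ‖ζ̄ - r v‖ = ‖ζ - r v̄‖`, so `‖h ζ‖ = Om0 ζ`. `h` has no zero in the closed disc. So `H / h ^ k` is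
continuous on the closed unit disc, holomorphic inside, and bounded by `C` on the circle, hence inside (`Complex.norm_le_of_forall_mem_frontier_norm_le`):
`‖H (r v_l)‖ ≤ C ‖h (r v_l)‖ ^ k`. Here `‖H (r v_l)‖ = MQ r S (v_l)` (`‖w̄_α - r v‖ = ‖w_α - r v̄‖`) and
`‖h (r v_l)‖ = ∏_j ‖1 - r² v_j v_l‖ ‖1 - r² v̄_j v_l‖ / 4 = ∏_j ker (r²) (v_j) (v_l)`. Take the product over `l`;
`∏_l ∏_j ker (r²) (v_j) (v_l) = exp (N² En)`. -/

set_option autoImplicit false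

namespace Pool.Agent.H27Dual

open Polynomial ComplexConjugate

private lemma MaxPr_conj_sub (a b : ℂ) : ‖conj a - b‖ = ‖a - conj b‖ := by
  rw [← Complex.norm_conj (conj a - b)]
  simp

private lemma MaxPr_one_sub (z w : ℂ) (hw : ‖w‖ = 1) : ‖1 - z * w‖ = ‖w - conj z‖ := by
  have h1 : conj w * w = 1 := by
    rw [mul_comm, Complex.mul_conj, Complex.normSq_eq_norm_sq, hw]; simp
  have h2 : 1 - z * w = (conj w - z) * w := by rw [sub_mul, h1]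
  rw [h2, norm_mul, hw, mul_one, MaxPr_conj_sub]

/-- the numerator -/
private noncomputable def MaxPr_H (S : ℤ[X]) (ζ : ℂ) : ℂ :=
  (S.leadingCoeff : ℂ) *
    ((rts S).map fun α => (rootW α - ζ) * (conj (rootW α) - ζ) / (4 * (‖rootW α‖ : ℂ))).prod

/-- the denominator -/
private noncomputable def MaxPr_h (D : Dat) (ζ : ℂ) : ℂ :=
  ∏ j, (1 - (D.r : ℂ) * D.v j * ζ) * (1 - (D.r : ℂ) * conj (D.v j) * ζ) / 4

private lemma MaxPr_norm_msprod (m : Multiset ℂ) (f : ℂ → ℂ) :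
    ‖(m.map f).prod‖ = (m.map fun a => ‖f a‖).prod := by
  induction m using Multiset.induction_on with
  | empty => simp
  | cons a s ih => simp [ih]

private lemma MaxPr_norm_H (S : ℤ[X]) (ζ : ℂ) : ‖MaxPr_H S ζ‖ = |(S.leadingCoeff : ℝ)| *
    ((rts S).map fun α => ‖rootW α - ζ‖ * ‖rootW α - conj ζ‖ / (4 * ‖rootW α‖)).prod := by
  unfold MaxPr_H
  rw [norm_mul, MaxPr_norm_msprod]
  congr 1
  · rw [Complex.norm_intCast]
  · congr 1
    refine Multiset.map_congr rfl (fun α _ => ?_)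
    rw [norm_div, norm_mul, norm_mul, MaxPr_conj_sub]
    simp

private lemma MaxPr_norm_H_circle (S : ℤ[X]) {ζ : ℂ} (hζ : ‖ζ‖ = 1) :
    ‖MaxPr_H S ζ‖ = |aeval (xOf ζ) S| := by
  rw [MaxPr_norm_H]
  have h1 : ‖aeval (J ζ) S‖ = |aeval (xOf ζ) S| := by
    rw [J_eq_xOf hζ]
    have : aeval ((xOf ζ : ℝ) : ℂ) S = ((aeval (xOf ζ) S : ℝ) : ℂ) := by
      have := Polynomial.aeval_algebraMap_apply ℂ (xOf ζ) S
      simpa using this
    rw [this, Complex.norm_real, Real.norm_eq_abs]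
  rw [← h1, norm_aeval_eq]
  congr 1
  congr 1
  refine Multiset.map_congr rfl (fun α _ => ?_)
  have h0 : rootW α ≠ 0 := by
    intro h
    have := one_le_rootW α
    rw [h, norm_zero] at this
    linarith
  rw [← norm_J_sub h0 hζ, J_rootW, norm_sub_rev]

private lemma MaxPr_norm_h_circle (D : Dat) {ζ : ℂ} (hζ : ‖ζ‖ = 1) :
    ‖MaxPr_h D ζ‖ = D.Om0 ζ := by
  unfold MaxPr_h Dat.Om0
  rw [norm_prod]
  refine Finset.prod_congr rfl (fun j _ => ?_)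
  unfold ker
  rw [norm_div, norm_mul, MaxPr_one_sub _ _ hζ, MaxPr_one_sub _ _ hζ, hζ]
  have e1 : conj ((D.r : ℂ) * D.v j) = D.r * conj (D.v j) := by simp
  have e2 : conj ((D.r : ℂ) * conj (D.v j)) = D.r * D.v j := by simp
  rw [e1, e2]
  simp
  ring

private lemma MaxPr_norm_lt (D : Dat) (j : Fin D.N) {ζ : ℂ} (hζ : ‖ζ‖ ≤ 1) :
    ‖(D.r : ℂ) * D.v j * ζ‖ < 1 := by
  rw [norm_mul, norm_mul, D.hv, Complex.norm_real, Real.norm_eq_abs, abs_of_pos D.r0]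
  have := D.r1
  have := D.r0
  nlinarith [norm_nonneg ζ]

private lemma MaxPr_norm_lt' (D : Dat) (j : Fin D.N) {ζ : ℂ} (hζ : ‖ζ‖ ≤ 1) :
    ‖(D.r : ℂ) * conj (D.v j) * ζ‖ < 1 := by
  rw [norm_mul, norm_mul, Complex.norm_conj, D.hv, Complex.norm_real, Real.norm_eq_abs,
    abs_of_pos D.r0]
  have := D.r1
  have := D.r0
  nlinarith [norm_nonneg ζ]

private lemma MaxPr_one_sub_ne {z : ℂ} (hz : ‖z‖ < 1) : 1 - z ≠ 0 := by
  intro h
  have : z = 1 := (sub_eq_zero.1 h).symm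
  rw [this, norm_one] at hz
  exact lt_irrefl _ hz

private lemma MaxPr_h_ne (D : Dat) {ζ : ℂ} (hζ : ‖ζ‖ ≤ 1) : MaxPr_h D ζ ≠ 0 := by
  unfold MaxPr_h
  rw [Finset.prod_ne_zero_iff]
  intro j _
  refine div_ne_zero (mul_ne_zero ?_ ?_) (by norm_num)
  · exact MaxPr_one_sub_ne (MaxPr_norm_lt D j hζ)
  · exact MaxPr_one_sub_ne (MaxPr_norm_lt' D j hζ)

private lemma MaxPr_diff_msprod (m : Multiset ℂ) (f : ℂ → ℂ → ℂ) (hf : ∀ a, Differentiable ℂ (f a)) :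
    Differentiable ℂ (fun ζ => (m.map fun a => f a ζ).prod) := by
  induction m using Multiset.induction_on with
  | empty => simp
  | cons a s ih =>
    simp only [Multiset.map_cons, Multiset.prod_cons]
    exact (hf a).mul ih

private lemma MaxPr_diff_H (S : ℤ[X]) : Differentiable ℂ (MaxPr_H S) := by
  unfold MaxPr_H
  refine Differentiable.const_mul ?_ _
  refine MaxPr_diff_msprod (rts S)
    (fun α ζ => (rootW α - ζ) * (conj (rootW α) - ζ) / (4 * (‖rootW α‖ : ℂ))) (fun a => ?_)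
  exact (((differentiable_const _).sub differentiable_id).mul
    ((differentiable_const _).sub differentiable_id)).div_const _

private lemma MaxPr_diff_h (D : Dat) : Differentiable ℂ (MaxPr_h D) := by
  unfold MaxPr_h
  refine Differentiable.fun_finsetProd (fun j _ => ?_)
  fun_prop

private lemma MaxPr_inside (D : Dat) (S : ℤ[X]) (k : ℕ) {C : ℝ}
    (h : ∀ w : ℂ, ‖w‖ = 1 → |aeval (xOf w) S| ≤ C * D.Om0 w ^ k) {z : ℂ} (hz : ‖z‖ ≤ 1) :
    ‖MaxPr_H S z‖ ≤ C * ‖MaxPr_h D z‖ ^ k := by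
  have hd : DiffContOnCl ℂ (fun ζ => MaxPr_H S ζ / MaxPr_h D ζ ^ k) (Metric.ball (0 : ℂ) 1) := by
    apply DifferentiableOn.diffContOnCl
    rw [closure_ball (0 : ℂ) one_ne_zero]
    refine DifferentiableOn.div (MaxPr_diff_H S).differentiableOn
      ((MaxPr_diff_h D).differentiableOn.pow k) (fun x hx => ?_)
    exact pow_ne_zero _ (MaxPr_h_ne D (by simpa using hx))
  have hb : ∀ z ∈ frontier (Metric.ball (0 : ℂ) 1), ‖MaxPr_H S z / MaxPr_h D z ^ k‖ ≤ C := by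
    intro z hz
    rw [frontier_ball (0 : ℂ) one_ne_zero] at hz
    have hz1 : ‖z‖ = 1 := by simpa using hz
    have hp : 0 < D.Om0 z := D.Om0_pos hz1.ge
    rw [norm_div, norm_pow, MaxPr_norm_H_circle S hz1, MaxPr_norm_h_circle D hz1,
      div_le_iff₀ (by positivity)]
    exact h z hz1
  have hz' : z ∈ closure (Metric.ball (0 : ℂ) 1) := by
    rw [closure_ball (0 : ℂ) one_ne_zero]
    simpa using hz
  have := Complex.norm_le_of_forall_mem_frontier_norm_le Metric.isBounded_ball hd hb hz'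
  have hn : 0 < ‖MaxPr_h D z‖ := norm_pos_iff.2 (MaxPr_h_ne D hz)
  rw [norm_div, norm_pow, div_le_iff₀ (by positivity)] at this
  exact this

private lemma MaxPr_H_at (D : Dat) (S : ℤ[X]) (l : Fin D.N) :
    ‖MaxPr_H S (D.r * D.v l)‖ = MQ D.r S (D.v l) := by
  rw [MaxPr_norm_H]
  unfold MQ ker
  simp

private lemma MaxPr_h_at (D : Dat) (l : Fin D.N) :
    ‖MaxPr_h D (D.r * D.v l)‖ = ∏ j, ker (D.r ^ 2) (D.v j) (D.v l) := by
  unfold MaxPr_h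
  rw [norm_prod]
  refine Finset.prod_congr rfl (fun j _ => ?_)
  unfold ker
  have e1 : (D.r : ℂ) * D.v j * (D.r * D.v l) = ((D.r ^ 2 : ℝ) : ℂ) * D.v j * D.v l := by
    push_cast; ring
  have e2 : (D.r : ℂ) * conj (D.v j) * (D.r * D.v l)
      = ((D.r ^ 2 : ℝ) : ℂ) * conj (D.v j) * D.v l := by
    push_cast; ring
  rw [e1, e2, norm_div, norm_mul, MaxPr_one_sub _ _ (D.hv l), MaxPr_one_sub _ _ (D.hv l), D.hv l]
  have e3 : conj (((D.r ^ 2 : ℝ) : ℂ) * D.v j) = ((D.r ^ 2 : ℝ) : ℂ) * conj (D.v j) := by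
    rw [map_mul, Complex.conj_ofReal]
  have e4 : conj (((D.r ^ 2 : ℝ) : ℂ) * conj (D.v j)) = ((D.r ^ 2 : ℝ) : ℂ) * D.v j := by
    rw [map_mul, Complex.conj_ofReal, Complex.conj_conj]
  rw [e3, e4]
  have e5 : ‖(4 : ℂ)‖ = 4 := by simp
  rw [e5]
  ring

private lemma MaxPr_prod_exp (D : Dat) :
    ∏ l, ∏ j, ker (D.r ^ 2) (D.v j) (D.v l) = Real.exp ((D.N : ℝ) ^ 2 * D.En) := by
  have hN : ((D.N : ℝ) ^ 2) ≠ 0 := by
    have := D.hN
    have : (0 : ℝ) < D.N := by exact_mod_cast this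
    positivity
  have hpos : ∀ j l, 0 < ker (D.r ^ 2) (D.v j) (D.v l) := by
    intro j l
    have h0 := D.r0
    have h1 := D.r1
    exact ker_pos (by positivity) (by nlinarith) (D.hv j) (D.hv l).ge
  unfold Dat.En
  rw [mul_div_cancel₀ _ hN, Finset.sum_comm, Real.exp_sum]
  refine Finset.prod_congr rfl (fun l _ => ?_)
  rw [Real.exp_sum]
  refine Finset.prod_congr rfl (fun j _ => ?_)
  rw [Real.exp_log (hpos j l)]

theorem max_principle (D : Dat) {S : ℤ[X]} (hS : S ≠ 0) (k : ℕ) {C : ℝ} (hC : 0 < C)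
    (h : ∀ w : ℂ, ‖w‖ = 1 → |aeval (xOf w) S| ≤ C * D.Om0 w ^ k) :
    ∏ l, MQ D.r S (D.v l) ≤ C ^ D.N * Real.exp ((D.N : ℝ) ^ 2 * D.En) ^ k := by
  have h1 : ∀ l, MQ D.r S (D.v l) ≤ C * (∏ j, ker (D.r ^ 2) (D.v j) (D.v l)) ^ k := by
    intro l
    have hr : ‖(D.r : ℂ) * D.v l‖ ≤ 1 := by
      rw [norm_mul, D.hv, Complex.norm_real, Real.norm_eq_abs, abs_of_pos D.r0, mul_one]
      exact D.r1.le
    have := MaxPr_inside D S k h hr
    rwa [MaxPr_H_at, MaxPr_h_at] at this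
  have h0 : ∀ l ∈ (Finset.univ : Finset (Fin D.N)), 0 ≤ MQ D.r S (D.v l) := by
    intro l _
    exact (MQ_pos D.r0.le D.r1 (D.hv l) hS).le
  calc ∏ l, MQ D.r S (D.v l)
      ≤ ∏ l, (C * (∏ j, ker (D.r ^ 2) (D.v j) (D.v l)) ^ k) :=
        Finset.prod_le_prod h0 (fun l _ => h1 l)
    _ = C ^ D.N * Real.exp ((D.N : ℝ) ^ 2 * D.En) ^ k := by
        rw [Finset.prod_mul_distrib, Finset.prod_pow, MaxPr_prod_exp]
        simp

end Pool.Agent.H27Dual
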