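import Pool.Agent.H27Dual.APoly
import Pool.Agent.H27Dual.OmB

/-! # Real polynomials which are large at given points

Proof. `R := 2 A² + W` with `exists_A`, `exists_W`. With `Z' = Z w⁻¹`: `R(J w) = (Z^(2k) + Z'^(2k))/2 + 2 Z^k Z'^k`. For `‖w‖ = 1`, `Z'` is the conjugate of `Z`
(`Z_inv`), `J w = xOf w` (`J_eq_xOf`): `‖R‖ ≤ 3 ‖Z‖^(2k)` and `R = 2 (Re Z^k)² + ‖Z‖^(2k) ≥ ‖Z‖^(2k)`. For `α ∈ s` with `‖rootW α‖ > 1`: `q := ‖Z'‖ / ‖Z‖ < 1` (`norm_Z_inv_lt`)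
and `‖R‖ ≥ ‖Z‖^(2k) (1/2 - q^(2k)/2 - 2 q^k) ≥ ‖Z‖^(2k) / 4` as soon as `q^k ≤ 1/10`. `‖Z w‖ = Om w` (`norm_Z`). Finitely many `α`. -/

set_option autoImplicit false

namespace Pool.Agent.H27Dual

open Polynomial

private theorem RPoly_unit (z : ℂ) (k : ℕ) :
    ‖z‖ ^ (2 * k) ≤ ‖2 * ((z ^ k + (starRingEnd ℂ) z ^ k) / 2) ^ 2
      + (z * (starRingEnd ℂ) z) ^ k‖ := by
  have h1 : z ^ k + (starRingEnd ℂ) z ^ k = ((2 * (z ^ k).re : ℝ) : ℂ) := by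
    rw [← map_pow]
    exact Complex.add_conj (z ^ k)
  have h2 : (z * (starRingEnd ℂ) z) ^ k = ((Complex.normSq z ^ k : ℝ) : ℂ) := by
    rw [Complex.mul_conj]
    push_cast
    rfl
  have h3 : 2 * ((z ^ k + (starRingEnd ℂ) z ^ k) / 2) ^ 2 + (z * (starRingEnd ℂ) z) ^ k =
      ((2 * ((z ^ k).re) ^ 2 + Complex.normSq z ^ k : ℝ) : ℂ) := by
    rw [h1, h2]
    push_cast
    ring
  rw [h3, Complex.norm_real, Real.norm_eq_abs]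
  have h4 : ‖z‖ ^ (2 * k) = Complex.normSq z ^ k := by
    rw [Complex.normSq_eq_norm_sq, ← pow_mul]
  rw [h4]
  have h5 : 0 ≤ Complex.normSq z ^ k := pow_nonneg (Complex.normSq_nonneg z) k
  rw [abs_of_nonneg (by positivity)]
  nlinarith [sq_nonneg ((z ^ k).re)]

private theorem RPoly_out (z z' : ℂ) (h : ‖z'‖ < ‖z‖) : ∃ K : ℕ, ∀ k ≥ K,
    1 / 4 * ‖z‖ ^ (2 * k) ≤ ‖2 * ((z ^ k + z' ^ k) / 2) ^ 2 + (z * z') ^ k‖ := by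
  have hz : 0 < ‖z‖ := lt_of_le_of_lt (norm_nonneg _) h
  have hq : ‖z'‖ / ‖z‖ < 1 := (div_lt_one hz).2 h
  have hq0 : 0 ≤ ‖z'‖ / ‖z‖ := by positivity
  obtain ⟨K, hK⟩ := exists_pow_lt_of_lt_one (show (0 : ℝ) < 1 / 10 by norm_num) hq
  refine ⟨K, fun k hk => ?_⟩
  have hk1 : (‖z'‖ / ‖z‖) ^ k ≤ 1 / 10 :=
    (pow_le_pow_of_le_one hq0 hq.le hk).trans hK.le
  have hb : ‖z'‖ ^ k ≤ 1 / 10 * ‖z‖ ^ k := by
    rw [div_pow] at hk1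
    rwa [div_le_iff₀ (pow_pos hz k)] at hk1
  have ha0 : 0 < ‖z‖ ^ k := pow_pos hz k
  have hb0 : 0 ≤ ‖z'‖ ^ k := by positivity
  have e : 2 * ((z ^ k + z' ^ k) / 2) ^ 2 + (z * z') ^ k =
      (z ^ k) ^ 2 / 2 - (-((z' ^ k) ^ 2 / 2) - 2 * (z ^ k * z' ^ k)) := by
    rw [mul_pow]
    ring
  rw [e]
  have n1 : ‖(z ^ k) ^ 2 / 2‖ = (‖z‖ ^ k) ^ 2 / 2 := by
    simp [norm_div, norm_pow]
  have n2 : ‖-((z' ^ k) ^ 2 / 2) - 2 * (z ^ k * z' ^ k)‖ ≤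
      (‖z'‖ ^ k) ^ 2 / 2 + 2 * (‖z‖ ^ k * ‖z'‖ ^ k) := by
    refine (norm_sub_le _ _).trans (le_of_eq ?_)
    simp [norm_div, norm_pow, norm_mul]
  have n3 := norm_sub_norm_le ((z ^ k) ^ 2 / 2) (-((z' ^ k) ^ 2 / 2) - 2 * (z ^ k * z' ^ k))
  have e2 : ‖z‖ ^ (2 * k) = (‖z‖ ^ k) ^ 2 := by rw [← pow_mul, mul_comm]
  rw [e2]
  have n4 : (‖z'‖ ^ k) ^ 2 ≤ (1 / 10 * ‖z‖ ^ k) ^ 2 := by
    exact pow_le_pow_left₀ hb0 hb 2
  have n5 : ‖z‖ ^ k * ‖z'‖ ^ k ≤ ‖z‖ ^ k * (1 / 10 * ‖z‖ ^ k) :=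
    mul_le_mul_of_nonneg_left hb ha0.le
  nlinarith [sq_nonneg (‖z‖ ^ k)]

private theorem RPoly_all (D : Dat) (α : ℂ) : ∃ K : ℕ, ∀ k ≥ K,
    1 / 4 * D.Om (rootW α) ^ (2 * k) ≤
      ‖2 * ((D.Z (rootW α) ^ k + D.Z (rootW α)⁻¹ ^ k) / 2) ^ 2
        + (D.Z (rootW α) * D.Z (rootW α)⁻¹) ^ k‖ := by
  have h1 := one_le_rootW α
  have h0 : rootW α ≠ 0 := by
    intro h
    rw [h, norm_zero] at h1
    linarith
  rw [← D.norm_Z h0]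
  rcases h1.eq_or_lt with h | h
  · refine ⟨0, fun k _ => ?_⟩
    rw [D.Z_inv h.symm]
    have := RPoly_unit (D.Z (rootW α)) k
    have h2 : 0 ≤ ‖D.Z (rootW α)‖ ^ (2 * k) := by positivity
    linarith
  · exact RPoly_out _ _ (D.norm_Z_inv_lt h)

theorem exists_R (D : Dat) (s : Finset ℂ) : ∃ K : ℕ, ∀ k ≥ K, ∃ R : ℝ[X],
    R.natDegree ≤ 2 * k * D.N ∧
    (∀ w : ℂ, ‖w‖ = 1 → |aeval (xOf w) R| ≤ 3 * D.Om w ^ (2 * k)) ∧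
    ∀ α ∈ s, 1 / 4 * D.Om (rootW α) ^ (2 * k) ≤ ‖aeval α R‖ := by
  choose K hK using RPoly_all D
  refine ⟨s.sup K, fun k hk => ?_⟩
  obtain ⟨A, hA1, hA2⟩ := exists_A D k
  obtain ⟨W, hW1, hW2⟩ := exists_W D k
  have hR : ∀ w : ℂ, w ≠ 0 → aeval (J w) (C (2 : ℝ) * A ^ 2 + W) =
      2 * ((D.Z w ^ k + D.Z w⁻¹ ^ k) / 2) ^ 2 + (D.Z w * D.Z w⁻¹) ^ k := by
    intro w hw
    simp only [map_add, map_mul, map_pow, aeval_C, hA2 w hw, hW2 w hw]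
    simp
  refine ⟨C (2 : ℝ) * A ^ 2 + W, ?_, ?_, ?_⟩
  · refine natDegree_add_le_of_degree_le ?_ hW1
    refine (natDegree_C_mul_le _ _).trans ?_
    refine natDegree_pow_le.trans ?_
    calc 2 * A.natDegree ≤ 2 * (k * D.N) := Nat.mul_le_mul_left _ hA1
      _ = 2 * k * D.N := by ring
  · intro w hw
    have h0 : w ≠ 0 := by
      intro h
      rw [h, norm_zero] at hw
      norm_num at hw
    have e1 : ((aeval (xOf w) (C (2 : ℝ) * A ^ 2 + W) : ℝ) : ℂ) =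
        aeval (J w) (C (2 : ℝ) * A ^ 2 + W) := by
      rw [J_eq_xOf hw]
      exact (aeval_algebraMap_apply ℂ (xOf w) (C (2 : ℝ) * A ^ 2 + W)).symm
    have e2 : |aeval (xOf w) (C (2 : ℝ) * A ^ 2 + W)| =
        ‖aeval (J w) (C (2 : ℝ) * A ^ 2 + W)‖ := by
      rw [← e1, Complex.norm_real, Real.norm_eq_abs]
    rw [e2, hR w h0, D.Z_inv hw, ← D.norm_Z h0]
    set z := D.Z w
    have n0 : ‖(starRingEnd ℂ) z‖ = ‖z‖ := Complex.norm_conj z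
    have n1 : ‖2 * ((z ^ k + (starRingEnd ℂ) z ^ k) / 2) ^ 2‖ ≤ 2 * (‖z‖ ^ k) ^ 2 := by
      have h2 : ‖(z ^ k + (starRingEnd ℂ) z ^ k) / 2‖ ≤ ‖z‖ ^ k := by
        rw [norm_div]
        have h3 : ‖z ^ k + (starRingEnd ℂ) z ^ k‖ ≤ ‖z‖ ^ k + ‖z‖ ^ k := by
          refine (norm_add_le _ _).trans (le_of_eq ?_)
          rw [norm_pow, norm_pow, n0]
        simp only [Complex.norm_ofNat]
        linarith
      rw [norm_mul, norm_pow]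
      simp only [Complex.norm_ofNat]
      have := pow_le_pow_left₀ (norm_nonneg _) h2 2
      linarith
    have n2 : ‖(z * (starRingEnd ℂ) z) ^ k‖ = (‖z‖ ^ k) ^ 2 := by
      rw [norm_pow, norm_mul, n0, mul_pow]
      ring
    have e3 : ‖z‖ ^ (2 * k) = (‖z‖ ^ k) ^ 2 := by rw [← pow_mul, mul_comm]
    rw [e3]
    refine (norm_add_le _ _).trans ?_
    rw [n2]
    linarith
  · intro α hα
    have h0 : rootW α ≠ 0 := by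
      intro h
      have h1 := one_le_rootW α
      rw [h, norm_zero] at h1
      linarith
    have h2 := hR (rootW α) h0
    rw [J_rootW] at h2
    rw [h2]
    exact hK α k ((Finset.le_sup hα).trans hk)

end Pool.Agent.H27Dual
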