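import Pool.Agent.H27Dual.OmB

/-! # Reduction modulo an irreducible polynomial -/

set_option autoImplicit false

namespace Pool.Agent.H27Dual

open Polynomial

private theorem RedT_map_map (Q : ℤ[X]) :
    (Q.map (Int.castRingHom ℚ)).map (algebraMap ℚ ℝ) = toR Q := by
  rw [Polynomial.map_map]
  congr 1

private theorem RedT_coprime {Q T : ℤ[X]} (hQ : Irreducible Q) (hd : 1 ≤ Q.natDegree)
    (hQT : ¬ Q ∣ T) : IsCoprime (toR T) (toR Q) := by
  have hprim : Q.IsPrimitive := hQ.isPrimitive (by omega)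
  have hirr : Irreducible (Q.map (Int.castRingHom ℚ)) :=
    (IsPrimitive.Int.irreducible_iff_irreducible_map_cast hprim).1 hQ
  have h1 : ¬ Q.map (Int.castRingHom ℚ) ∣ T.map (Int.castRingHom ℚ) := fun h =>
    hQT ((IsPrimitive.Int.dvd_iff_map_cast_dvd_map_cast _ _ hprim).2 h)
  have h2 : IsCoprime (Q.map (Int.castRingHom ℚ)) (T.map (Int.castRingHom ℚ)) :=
    (Irreducible.coprime_iff_not_dvd hirr).2 h1
  have h3 := h2.map (Polynomial.mapRingHom (algebraMap ℚ ℝ))
  simp only [coe_mapRingHom, RedT_map_map] at h3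
  exact h3.symm

private theorem RedT_aeval_bound {f : ℝ[X]} {d : ℕ} (hf : f.natDegree < d)
    (hc : ∀ i, |f.coeff i| ≤ 1 / 2) {x : ℝ} (hx : x ∈ Set.Icc (0 : ℝ) 1) :
    |aeval x f| ≤ d / 2 := by
  rw [aeval_eq_sum_range' hf]
  refine (Finset.abs_sum_le_sum_abs _ _).trans ?_
  have h : ∀ i ∈ Finset.range d, |f.coeff i • x ^ i| ≤ 1 / 2 := by
    intro i _
    rw [smul_eq_mul, abs_mul, abs_of_nonneg (pow_nonneg hx.1 i)]
    calc |f.coeff i| * x ^ i ≤ 1 / 2 * 1 :=
          mul_le_mul (hc i) (pow_le_one₀ hx.1 hx.2) (pow_nonneg hx.1 i) (by norm_num)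
      _ = 1 / 2 := mul_one _
  refine (Finset.sum_le_sum h).trans ?_
  rw [Finset.sum_const, Finset.card_range, nsmul_eq_mul]
  linarith

/-- rounding the coefficients -/
private theorem RedT_round {c : ℝ[X]} {d : ℕ} (hd : 1 ≤ d) (hc : c.natDegree < d) :
    ∃ (g : ℤ[X]) (f : ℝ[X]), c = toR g + f ∧ g.natDegree < d ∧ f.natDegree < d ∧
      ∀ i, |f.coeff i| ≤ 1 / 2 := by
  set g : ℤ[X] := ∑ i ∈ Finset.range d, C (round (c.coeff i)) * X ^ i with hg
  have hgc : ∀ i, g.coeff i = if i < d then round (c.coeff i) else 0 := by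
    intro i
    rw [hg, finsetSum_coeff]
    simp only [coeff_C_mul, coeff_X_pow, mul_ite, mul_one, mul_zero]
    rw [Finset.sum_ite_eq]
    simp only [Finset.mem_range]
  have hgd : g.natDegree < d := by
    by_contra h
    push Not at h
    have h0 : g ≠ 0 := by
      intro h0
      rw [h0, natDegree_zero] at h
      omega
    have h1 := hgc g.natDegree
    rw [if_neg (by omega)] at h1
    exact h0 (leadingCoeff_eq_zero.1 h1)
  refine ⟨g, c - toR g, by ring, hgd, ?_, ?_⟩
  · refine (natDegree_sub_le _ _).trans_lt (max_lt hc ?_)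
    exact natDegree_map_le.trans_lt hgd
  · intro i
    rw [coeff_sub, coeff_map, hgc]
    split_ifs with h
    · exact abs_sub_round _
    · rw [coeff_eq_zero_of_natDegree_lt (by omega : c.natDegree < i)]
      simp

theorem red_of_T {D : Dat} {Q : ℤ[X]} (hQ : Irreducible Q) (hd : 1 ≤ Q.natDegree) {k1 : ℕ}
    (hk1 : 1 ≤ k1) {T : ℤ[X]} {E : ℝ[X]} (hT : T.natDegree ≤ k1 * D.N)
    (hE : E.natDegree ≤ k1 * D.N) (hQT : ¬ Q ∣ T) (hTE : toR Q ∣ toR T - E)
    (hb : ∀ w : ℂ, ‖w‖ = 1 → |aeval (xOf w) E| ≤ 1 / 2 * D.Om w ^ k1) : D.Red Q := by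
  intro s η hη
  have hcop := RedT_coprime hQ hd hQT
  obtain ⟨c0, hc0, hc1, hcOm⟩ := D.exists_lower
  set d := Q.natDegree with hdd
  set s' := s + d with hs'
  have hQd : (toR Q).natDegree = d := natDegree_map_eq_of_injective Int.cast_injective _
  have hQ0 : toR Q ≠ 0 := by
    intro h
    rw [h, natDegree_zero] at hQd
    omega
  -- `j0` with `(1/2)^j (d/2) ≤ η c0^(s'+k1)`
  have hpos : 0 < η * c0 ^ (s' + k1) := by positivity
  obtain ⟨j0, hj0⟩ : ∃ j0 : ℕ, ∀ j ≥ j0, (1 / 2 : ℝ) ^ j * (d / 2) ≤ η * c0 ^ (s' + k1) := by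
    have hlim : Filter.Tendsto (fun j : ℕ => (1 / 2 : ℝ) ^ j * (d / 2)) Filter.atTop
        (nhds (0 * (d / 2))) :=
      (tendsto_pow_atTop_nhds_zero_of_lt_one (by norm_num) (by norm_num)).mul_const _
    rw [zero_mul] at hlim
    exact Filter.eventually_atTop.1 (hlim.eventually_le_const hpos)
  refine ⟨s' + k1 * j0, fun k hk F => ?_⟩
  set j := (k - s') / k1 with hj
  have hjj0 : j0 ≤ j := by
    rw [hj, Nat.le_div_iff_mul_le (by omega)]
    have : j0 * k1 = k1 * j0 := mul_comm _ _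
    omega
  have hk1j : k1 * j ≤ k - s' := Nat.mul_div_le _ _
  have hk1j' : k - s' < k1 * j + k1 := by
    have := Nat.lt_mul_div_succ (k - s') (show 0 < k1 by omega)
    rw [← hj] at this
    have e : k1 * (j + 1) = k1 * j + k1 := by ring
    omega
  obtain ⟨u, v, huv⟩ := (IsCoprime.pow_left (m := j) hcop)
  -- `c`
  set c := (F * u) % toR Q with hc
  have hcdeg : c.natDegree < d := by
    rw [← hQd]
    exact natDegree_mod_lt _ (by omega)
  obtain ⟨g, f, hcgf, hgd, hfd, hfc⟩ := RedT_round hd hcdeg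
  have hdvd1 : toR Q ∣ F - toR T ^ j * c := by
    have h1 : toR Q ∣ F * u - c := by
      rw [hc]
      exact ⟨(F * u) / toR Q, by
        have := EuclideanDomain.div_add_mod (F * u) (toR Q)
        linear_combination -this⟩
    have h2 : F - toR T ^ j * c = toR T ^ j * (F * u - c) + toR Q * (F * v) := by
      linear_combination (-F) * huv
    rw [h2]
    exact dvd_add (h1.mul_left _) (dvd_mul_right _ _)
  have hNpos := D.hN
  have hks : s' + k1 * j ≤ k := by omega
  have hdegs : k1 * D.N * j + s' ≤ k * D.N := by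
    calc k1 * D.N * j + s' ≤ k1 * D.N * j + s' * D.N :=
          Nat.add_le_add_left (Nat.le_mul_of_pos_right _ hNpos) _
      _ = (s' + k1 * j) * D.N := by ring
      _ ≤ k * D.N := Nat.mul_le_mul_right _ hks
  refine ⟨T ^ j * g, E ^ j * f, ?_, ?_, ?_, ?_⟩
  · have h1 : (T ^ j * g).natDegree ≤ j * (k1 * D.N) + g.natDegree :=
      natDegree_mul_le.trans (Nat.add_le_add_right
        (natDegree_pow_le.trans (Nat.mul_le_mul_left _ hT)) _)
    have e : j * (k1 * D.N) = k1 * D.N * j := by ring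
    omega
  · have h1 : (E ^ j * f).natDegree ≤ j * (k1 * D.N) + f.natDegree :=
      natDegree_mul_le.trans (Nat.add_le_add_right
        (natDegree_pow_le.trans (Nat.mul_le_mul_left _ hE)) _)
    have e : j * (k1 * D.N) = k1 * D.N * j := by ring
    omega
  · have h1 : F - toR (T ^ j * g) - E ^ j * f =
        (F - toR T ^ j * c) + (toR T ^ j - E ^ j) * f := by
      rw [hcgf]
      simp only [toR, Polynomial.map_mul, Polynomial.map_pow]
      ring
    rw [h1]
    exact dvd_add hdvd1 ((hTE.trans (sub_dvd_pow_sub_pow _ _ j)).mul_right _)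
  · intro w hw
    have hx := xOf_mem hw
    have hOm : 0 < D.Om w := D.Om_pos hw.ge
    rw [map_mul, map_pow, abs_mul, abs_pow]
    have h1 : |aeval (xOf w) E| ^ j ≤ (1 / 2 * D.Om w ^ k1) ^ j :=
      pow_le_pow_left₀ (abs_nonneg _) (hb w hw) _
    have h2 := RedT_aeval_bound hfd hfc hx
    calc |aeval (xOf w) E| ^ j * |aeval (xOf w) f| ≤ (1 / 2 * D.Om w ^ k1) ^ j * (d / 2) :=
          mul_le_mul h1 h2 (abs_nonneg _) (by positivity)
      _ = ((1 / 2 : ℝ) ^ j * (d / 2)) * D.Om w ^ (k1 * j) := by rw [mul_pow, ← pow_mul]; ring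
      _ ≤ (η * c0 ^ (s' + k1)) * D.Om w ^ (k1 * j) :=
          mul_le_mul_of_nonneg_right (hj0 j hjj0) (by positivity)
      _ ≤ (η * D.Om w ^ (k - k1 * j)) * D.Om w ^ (k1 * j) := by
          have h3 : c0 ^ (s' + k1) ≤ c0 ^ (k - k1 * j) :=
            pow_le_pow_of_le_one hc0.le hc1 (by omega)
          have h4 : c0 ^ (k - k1 * j) ≤ D.Om w ^ (k - k1 * j) :=
            pow_le_pow_left₀ hc0.le (hcOm w hw) _
          have h5 := h3.trans h4
          gcongr
      _ = η * D.Om w ^ k := by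
          rw [mul_assoc, ← pow_add]
          congr 2
          omega

end Pool.Agent.H27Dual
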