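import Pool.Agent.H27Dual.TEx
import Pool.Agent.H27Dual.RedT

/-! # Reduction modulo an arbitrary polynomial

Proof. `Red (C a)` for `a ≠ 0`: `G = E = 0` (`toR (C a)` is a unit of `ℝ[X]`), `K := s`. `Red S → Red S' → Red (S * S')`: given `s, η`, let `M ≥ 1` bound `|S|` on `[0,1]`; apply `Red S` with
`s, η / 2` and `Red S'` with `s + deg S`, `η / (2 M)`: `F - G - E = S F'`, `F' - G' - E' = S' F''`, so
`F - (G + S G') - (E + S E') = S S' F''`. Units of `ℤ[X]` are `C u`. Induction: `WfDvdMonoid.induction_on_irreducible`; an irreducible polynomial of degree zero is `C a`, one of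
positive degree is `exists_T` + `red_of_T`. -/

set_option autoImplicit false

namespace Pool.Agent.H27Dual

open Polynomial

private theorem RedAll_Om_nonneg (D : Dat) (w : ℂ) : 0 ≤ D.Om w := by
  unfold Dat.Om Dat.Om0
  refine mul_nonneg (Real.exp_pos _).le (Finset.prod_nonneg fun j _ => ?_)
  unfold ker
  positivity

private theorem RedAll_xOf_mem {w : ℂ} (hw : ‖w‖ = 1) : xOf w ∈ Set.Icc (0 : ℝ) 1 := by
  have h1 : |w.re| ≤ 1 := hw ▸ Complex.abs_re_le_norm w
  have h2 := abs_le.mp h1
  unfold xOf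
  constructor <;> linarith [h2.1, h2.2]

theorem red_C (D : Dat) {a : ℤ} (ha : a ≠ 0) : D.Red (C a) := by
  intro s η hη
  refine ⟨s, fun k hk F => ⟨0, 0, ?_, ?_, ?_, ?_⟩⟩
  · have := Nat.le_mul_of_pos_right k D.hN
    simp; omega
  · have := Nat.le_mul_of_pos_right k D.hN
    simp; omega
  · have : IsUnit (toR (C a)) := by
      rw [toR, map_C, isUnit_C]
      simpa using ha
    exact this.dvd
  · intro w _
    simp only [map_zero, abs_zero]
    exact mul_nonneg hη.le (pow_nonneg (RedAll_Om_nonneg D w) _)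

theorem red_mul {D : Dat} {S S' : ℤ[X]} (h : D.Red S) (h' : D.Red S') : D.Red (S * S') := by
  intro s η hη
  obtain ⟨M0, hM0⟩ := isCompact_Icc.exists_bound_of_continuousOn
    (s := Set.Icc (0 : ℝ) 1) (f := fun x => (toR S).eval x) (toR S).continuous.continuousOn
  set M : ℝ := max M0 1 with hM
  have hM1 : 1 ≤ M := le_max_right _ _
  have hMpos : 0 < M := by linarith
  obtain ⟨K1, hK1⟩ := h s (η / 2) (by positivity)
  obtain ⟨K2, hK2⟩ := h' (s + S.natDegree) (η / (2 * M)) (by positivity)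
  refine ⟨max K1 K2, fun k hk F => ?_⟩
  obtain ⟨G, E, hG, hE, ⟨F', hF'⟩, hb⟩ := hK1 k (le_trans (le_max_left _ _) hk) F
  obtain ⟨G', E', hG', hE', ⟨F'', hF''⟩, hb'⟩ := hK2 k (le_trans (le_max_right _ _) hk) F'
  have hSdeg : (toR S).natDegree ≤ S.natDegree := natDegree_map_le
  refine ⟨G + S * G', E + toR S * E', ?_, ?_, ?_, ?_⟩
  · have h1 := natDegree_add_le G (S * G')
    have h2 := natDegree_mul_le (p := S) (q := G')
    rcases le_max_iff.mp h1 with h3 | h3 <;> omega
  · have h1 := natDegree_add_le E (toR S * E')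
    have h2 := natDegree_mul_le (p := toR S) (q := E')
    rcases le_max_iff.mp h1 with h3 | h3 <;> omega
  · refine ⟨F'', ?_⟩
    have e1 : toR (G + S * G') = toR G + toR S * toR G' := by simp [toR]
    have e2 : toR (S * S') = toR S * toR S' := by simp [toR]
    rw [e1, e2]
    linear_combination hF' + toR S * hF''
  · intro w hw
    have hx := hM0 _ (RedAll_xOf_mem hw)
    have h1 := hb w hw
    have h2 := hb' w hw
    have hev : ∀ p : ℝ[X], aeval (xOf w) p = p.eval (xOf w) := fun p => by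
      rw [aeval_def, Algebra.algebraMap_self, eval₂_id]
    rw [map_add, map_mul]
    have h3 : |aeval (xOf w) (toR S)| ≤ M := by
      rw [hev]
      exact le_trans hx (le_max_left _ _)
    have h4 : |aeval (xOf w) (toR S) * aeval (xOf w) E'| ≤ M * (η / (2 * M) * D.Om w ^ k) := by
      rw [abs_mul]
      exact mul_le_mul h3 h2 (abs_nonneg _) hMpos.le
    have h5 : M * (η / (2 * M) * D.Om w ^ k) = η / 2 * D.Om w ^ k := by
      field_simp
    calc _ ≤ |aeval (xOf w) E| + |aeval (xOf w) (toR S) * aeval (xOf w) E'| := abs_add_le _ _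
      _ ≤ η / 2 * D.Om w ^ k + η / 2 * D.Om w ^ k := by
        rw [h5] at h4
        exact add_le_add h1 h4
      _ = η * D.Om w ^ k := by ring

theorem red_all {D : Dat} {ε : ℝ} (hA : D.Adm ε) {S : ℤ[X]} (hS : S ≠ 0) : D.Red S := by
  revert hS
  refine WfDvdMonoid.induction_on_irreducible (motive := fun S : ℤ[X] => S ≠ 0 → D.Red S) S
    ?_ ?_ ?_
  · intro h
    exact absurd rfl h
  · intro u hu _
    obtain ⟨r, hr, rfl⟩ := Polynomial.isUnit_iff.mp hu
    exact red_C D hr.ne_zero
  · intro a i ha hi hind hia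
    refine red_mul ?_ (hind ha)
    rcases Nat.eq_zero_or_pos i.natDegree with h0 | h1
    · rw [eq_C_of_natDegree_eq_zero h0] at hi ⊢
      refine red_C D ?_
      intro hc
      rw [hc] at hi
      simp at hi
    · obtain ⟨k1, T, E, hk1, hT, hE, hQT, hTE, hb⟩ := exists_T hA hi h1
      exact red_of_T hi h1 hk1 hT hE hQT hTE hb

end Pool.Agent.H27Dual
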