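import Pool.Agent.H27Dual.RPoly
import Pool.Agent.H27Dual.ExistsF

/-! # For every irreducible `Q` there is a small integer polynomial modulo `Q`

Proof. `d = deg Q`, `N = D.N`, `a = Q.leadingCoeff`. `exists_R` with `s = (rts Q).toFinset`; let `k` be large, `l := 2 k N`, `δ := 8 exp (-2 ε k N)`. Since
`∏ ‖R(α)‖ ≥ 4^(-d) ∏ Om(rootW α)^(2k)` and `|a|^N ∏ Om(rootW α) ≥ exp (ε N d)` (`Adm.prod_Om`, `card_rts`):
`δ^d ∏ ‖R(α)‖ |a|^l ≥ (δ/4)^d exp (2 k ε N d) = 2^d > 1`. `exists_F` gives `T := F` and `e`; `E := R e`, `k1 := 2 k + d`: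
`deg T < d + 2 k N ≤ k1 N`, `deg E ≤ 2 k N + d - 1`, and on the circle (`0 ≤ xOf w ≤ 1`)
`|E(xOf w)| ≤ 3 Om^(2k) d δ ≤ 3 d δ c^(-d) Om^(k1) ≤ Om^(k1) / 2` for `k` large, `c` from `exists_lower`. -/

set_option autoImplicit false

namespace Pool.Agent.H27Dual

open Polynomial

/-- a polynomial with small coefficients is small on `[0, 1]` -/
private theorem TEx_abs_aeval_le {e : ℝ[X]} {d : ℕ} (hd : e.natDegree < d) {δ : ℝ}
    (he : ∀ j, |e.coeff j| < δ) {x : ℝ} (hx : x ∈ Set.Icc (0 : ℝ) 1) :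
    |aeval x e| ≤ d * δ := by
  rw [Polynomial.aeval_eq_sum_range' hd]
  refine (Finset.abs_sum_le_sum_abs _ _).trans ?_
  have h1 : ∀ i ∈ Finset.range d, |e.coeff i • x ^ i| ≤ δ := by
    intro i _
    rw [smul_eq_mul, abs_mul, abs_of_nonneg (pow_nonneg hx.1 i)]
    have h2 : x ^ i ≤ 1 := pow_le_one₀ hx.1 hx.2
    have h3 := (he i).le
    have h4 : (0 : ℝ) ≤ x ^ i := pow_nonneg hx.1 i
    calc |e.coeff i| * x ^ i ≤ |e.coeff i| * 1 := mul_le_mul_of_nonneg_left h2 (abs_nonneg _)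
      _ ≤ δ := by rw [mul_one]; exact h3
  refine (Finset.sum_le_sum h1).trans ?_
  rw [Finset.sum_const, Finset.card_range, nsmul_eq_mul]

/-- the product of the values of `R` at the roots -/
private theorem TEx_prod {D : Dat} {ε : ℝ} (hA : D.Adm ε) {Q : ℤ[X]} (hQ0 : Q ≠ 0)
    (hd : 1 ≤ Q.natDegree) (k : ℕ) (R : ℝ[X])
    (hR : ∀ α ∈ rts Q, 1 / 4 * D.Om (rootW α) ^ (2 * k) ≤ ‖aeval α R‖) :
    1 < (8 * Real.exp (-(2 * ε * k * D.N))) ^ Q.natDegree *
      ((rts Q).map fun α => ‖aeval α R‖).prod * |(Q.leadingCoeff : ℝ)| ^ (2 * k * D.N) := by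
  have h1 : ((rts Q).map fun α => 1 / 4 * D.Om (rootW α) ^ (2 * k)).prod ≤
      ((rts Q).map fun α => ‖aeval α R‖).prod := by
    refine Multiset.prod_map_le_prod_map₀ _ _ (fun α _ => ?_) hR
    have := (D.Om_pos (one_le_rootW α)).le
    positivity
  have h2 : ((rts Q).map fun α => 1 / 4 * D.Om (rootW α) ^ (2 * k)).prod =
      (1 / 4) ^ Q.natDegree * ((rts Q).map fun α => D.Om (rootW α)).prod ^ (2 * k) := by
    rw [Multiset.prod_map_mul, Multiset.prod_map_pow, Multiset.map_const', Multiset.prod_replicate,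
      card_rts]
  have h3 := hA.prod_Om hQ0
  have h4 : (Real.exp (ε * (D.N * Q.natDegree))) ^ (2 * k) ≤
      (|(Q.leadingCoeff : ℝ)| ^ D.N * ((rts Q).map fun α => D.Om (rootW α)).prod) ^ (2 * k) :=
    pow_le_pow_left₀ (Real.exp_pos _).le h3 _
  have h5 : (Real.exp (ε * (D.N * Q.natDegree))) ^ (2 * k) =
      Real.exp (2 * ε * k * D.N) ^ Q.natDegree := by
    rw [← Real.exp_nat_mul, ← Real.exp_nat_mul]
    congr 1
    push_cast
    ring
  rw [h5, mul_pow, ← pow_mul] at h4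
  have h6 : D.N * (2 * k) = 2 * k * D.N := by ring
  rw [h6] at h4
  rw [h2] at h1
  have hE : 0 < Real.exp (2 * ε * k * D.N) := Real.exp_pos _
  set E := Real.exp (2 * ε * k * D.N) with hEdef
  have hE' : Real.exp (-(2 * ε * k * D.N)) = E⁻¹ := by rw [Real.exp_neg]
  rw [hE']
  set a := |(Q.leadingCoeff : ℝ)| ^ (2 * k * D.N) with ha
  have ha0 : 0 ≤ a := by positivity
  set P := ((rts Q).map fun α => D.Om (rootW α)).prod ^ (2 * k) with hP
  calc (1 : ℝ) < 2 ^ Q.natDegree := one_lt_pow₀ (by norm_num) (by omega)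
    _ = (8 * E⁻¹) ^ Q.natDegree * ((1 / 4) ^ Q.natDegree * E ^ Q.natDegree) := by
        rw [← mul_pow, ← mul_pow]
        congr 1
        field_simp
        norm_num
    _ ≤ (8 * E⁻¹) ^ Q.natDegree * ((1 / 4) ^ Q.natDegree * (a * P)) := by
        gcongr
    _ = (8 * E⁻¹) ^ Q.natDegree * ((1 / 4) ^ Q.natDegree * P) * a := by ring
    _ ≤ (8 * E⁻¹) ^ Q.natDegree * ((rts Q).map fun α => ‖aeval α R‖).prod * a := by
        gcongr

theorem exists_T {D : Dat} {ε : ℝ} (hA : D.Adm ε) {Q : ℤ[X]} (hQ : Irreducible Q)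
    (hd : 1 ≤ Q.natDegree) : ∃ (k1 : ℕ) (T : ℤ[X]) (E : ℝ[X]), 1 ≤ k1 ∧
      T.natDegree ≤ k1 * D.N ∧ E.natDegree ≤ k1 * D.N ∧ ¬ Q ∣ T ∧ toR Q ∣ toR T - E ∧
      ∀ w : ℂ, ‖w‖ = 1 → |aeval (xOf w) E| ≤ 1 / 2 * D.Om w ^ k1 := by
  have hQ0 : Q ≠ 0 := hQ.ne_zero
  have hN := D.hN
  have hN' : (1 : ℝ) ≤ D.N := by exact_mod_cast hN
  have hε := hA.e0
  obtain ⟨c, c0, c1, hc⟩ := D.exists_lower
  obtain ⟨K, hK⟩ := exists_R D (rts Q).toFinset
  set d := Q.natDegree with hdd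
  have hd' : (1 : ℝ) ≤ d := by exact_mod_cast hd
  have hcd : 0 < c ^ d := pow_pos c0 d
  obtain ⟨k2, hk2⟩ := exists_nat_ge (48 * d / (ε * c ^ d))
  set k := max K k2 with hk
  obtain ⟨R, hR1, hR2, hR3⟩ := hK k (le_max_left _ _)
  set δ := 8 * Real.exp (-(2 * ε * k * D.N)) with hδ
  have hδ0 : 0 < δ := by positivity
  have hprod := TEx_prod hA hQ0 hd k R fun α hα => hR3 α (Multiset.mem_toFinset.2 hα)
  obtain ⟨F, e, hF, hQF, he, hej, hdiv⟩ := exists_F hQ hdd.symm hd R (2 * k * D.N) hδ0 hprod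
  -- `δ` is small
  have hδs : 6 * d * δ ≤ c ^ d := by
    have hkk : 48 * d / (ε * c ^ d) ≤ k := hk2.trans (by exact_mod_cast le_max_right _ _)
    rw [div_le_iff₀ (by positivity)] at hkk
    have h1 : 2 * ε * k * D.N + 1 ≤ Real.exp (2 * ε * k * D.N) := Real.add_one_le_exp _
    have hk0 : (0 : ℝ) ≤ k := Nat.cast_nonneg _
    have h2 : ε * k ≤ 2 * ε * k * D.N := by
      have : 0 ≤ ε * k := by positivity
      nlinarith
    have h3 : 0 < Real.exp (2 * ε * k * D.N) := Real.exp_pos _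
    have h4 : 48 * d ≤ Real.exp (2 * ε * k * D.N) * c ^ d := by
      calc 48 * (d : ℝ) ≤ k * (ε * c ^ d) := hkk
        _ = (ε * k) * c ^ d := by ring
        _ ≤ Real.exp (2 * ε * k * D.N) * c ^ d :=
            mul_le_mul_of_nonneg_right (by linarith) hcd.le
    rw [hδ, Real.exp_neg]
    have h5 : 6 * (d : ℝ) * (8 * (Real.exp (2 * ε * k * D.N))⁻¹) =
        48 * d / Real.exp (2 * ε * k * D.N) := by
      field_simp
      ring
    rw [h5, div_le_iff₀ h3]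
    linarith
  refine ⟨2 * k + d, F, R * e, by omega, ?_, ?_, hQF, hdiv, ?_⟩
  · have : d ≤ d * D.N := Nat.le_mul_of_pos_right _ (by omega)
    have e1 : (2 * k + d) * D.N = 2 * k * D.N + d * D.N := by ring
    omega
  · have : d ≤ d * D.N := Nat.le_mul_of_pos_right _ (by omega)
    have e1 : (2 * k + d) * D.N = 2 * k * D.N + d * D.N := by ring
    have := Polynomial.natDegree_mul_le (p := R) (q := e)
    omega
  · intro w hw
    have h1 := hR2 w hw
    have h2 := TEx_abs_aeval_le he hej (xOf_mem hw)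
    have h3 : 0 < D.Om w := D.Om_pos hw.ge
    have h4 : c ^ d ≤ D.Om w ^ d := pow_le_pow_left₀ c0.le (hc w hw) d
    rw [map_mul, abs_mul, pow_add]
    calc |aeval (xOf w) R| * |aeval (xOf w) e|
        ≤ (3 * D.Om w ^ (2 * k)) * (d * δ) := by
          gcongr
      _ = 1 / 2 * (D.Om w ^ (2 * k) * (6 * d * δ)) := by ring
      _ ≤ 1 / 2 * (D.Om w ^ (2 * k) * D.Om w ^ d) := by
          have h5 : 6 * d * δ ≤ D.Om w ^ d := hδs.trans h4
          gcongr

end Pool.Agent.H27Dual
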